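import Pool.Agent.Helper56.FN.St

/-! Project FN, module AT: the atlas of a certificate. -/

set_option autoImplicit false

open Set Filter Topology

noncomputable section

namespace Pool.Agent.Helper56.FN

open Pool.Agent.Helper54.TRI
open Pool.Agent.Helper56.FM (Ops Sound Rf Tr trv sh1 eqr ZF eqf sides cyc cancel sgI sgD crossz sT StVL StTL)

variable {Q : Type} {M : Ops Q} {β : ℂ} {e : Q → ℂ} {Γ : ℤ → ℂ → Prop}

theorem cl_mem (X : Cert Q) (c : Fin X.CS.length) : X.cl c.val ∈ X.CS := by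
  unfold Cert.cl
  rw [List.getD_eq_getElem _ _ c.isLt]
  exact List.getElem_mem _

private lemma pos_add_AT (P : Fin 3 → ℂ) (w : ℂ) (h : Pos P) : Pos (fun s => P s + w) := by
  unfold Pos ht at *
  simp only [add_sub_add_right_eq_sub]
  exact h

private lemma ne_AT (hM : Sound M β e Γ) {p q : Q} (h : sgD M p q ≠ 0) : e p ≠ e q := by
  intro h'
  unfold sgD at h
  have key : ∀ z w : ℂ, z = w → ht (e M.zero) z w = 0 := by
    rintro z w rfl
    unfold ht
    rcases eq_or_ne (z - e M.zero) 0 with h0 | h0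
    · rw [h0]
      simp
    · rw [div_self h0]
      simp
  split_ifs at h with h1 h2
  · have := hM.pos _ _ _ h1
    rw [key _ _ h'] at this
    exact lt_irrefl _ this
  · have := hM.pos _ _ _ h2
    rw [key _ _ h'.symm] at this
    exact lt_irrefl _ this
  · exact h rfl

theorem m_AT (hg : StGG) (g1 : StGP) (g2 : StGW) (g3 : StGT) (g4 : StGE) (hn : StNB) (hc : StCH)
    (hw : StWI) (hv : StVL) (ht : StTL) : StAT := by
  intro Q M β e Γ hM X hX
  unfold Cert.check at hX
  simp only [Bool.and_eq_true] at hX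
  obtain ⟨hG, hN, hC, hS⟩ := hX
  -- the clusters
  have hGL : ∀ c ∈ X.CS, X.okG M c = true ∧ X.okL M c = true := by
    unfold Cert.chkG at hG
    rw [List.all_eq_true] at hG
    intro c hc
    have := hG c hc
    rwa [Bool.and_eq_true] at this
  have G1 : ∀ c : Fin X.CS.length, X.Good1 M e (X.cl c.val) := fun c =>
    hg Q M β e Γ hM X _ (hGL _ (cl_mem X c)).1
  have hG2 : ∀ c : CD, X.okL M c = true → X.Good2 M e Γ c := by
    intro c h
    cases c with
    | P t => exact g1 Q M β e Γ hM X t h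
    | W s t0 t1 => exact g2 Q M β e Γ hM X s t0 t1 h
    | T t0 t1 t2 t3 => exact g3 Q M β e Γ hM X t0 t1 t2 t3 h
    | E k t0 t1 t2 => exact g4 Q M β e Γ hM X k t0 t1 t2 h
  have G2 : ∀ c : Fin X.CS.length, X.Good2 M e Γ (X.cl c.val) := fun c =>
    hG2 _ (hGL _ (cl_mem X c)).2
  -- the neighbours
  have hnb := hn Q M β e Γ hM X hN G1
  choose nj nt nm h1 h2 h3 h4 h5 using hnb
  refine ⟨fun i s => (nj i s, nt i s, nm i s), ?_⟩
  have hchk := hS
  unfold Cert.chkS at hchk
  simp only [Bool.and_eq_true, decide_eq_true_eq, List.all_eq_true] at hchk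
  have htil : Tiling (Ix (X.C M e)) (TT (X.C M e)) β (fun i s => (nj i s, nt i s, nm i s)) := by
    refine ht (Ix (X.C M e)) (TT (X.C M e)) β (fun i s => (nj i s, nt i s, nm i s))
      ((cyc X.seam).map (fun a => (X.pt M e a.1, X.pt M e a.2))) hM.one_lt
      ?_ ?_ h1 h2 (hc Q M β e Γ hM X hC G1) (hw Q M β e Γ hM X hS).1 ?_ (hw Q M β e Γ hM X hS).2
    · intro i
      exact pos_add_AT _ _ (G1 i.1).2.1
    · intro i
      exact (G1 i.1).2.2.2 i.2
    · intro a ha
      rw [List.mem_map] at ha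
      obtain ⟨a', ha1, rfl⟩ := ha
      exact ne_AT hM (hchk.2.1 a' ha1).2
  exact
    { tiling := htil
      lat := fun l k u hu => hM.ga l k u hu
      ok := fun c => (G2 c).1
      fok := fun i s => (G2 i.1).2.2.2 i.2 s
      form := fun i s t ht0 ht1 => (G2 i.1).2.1 i.2 s t ht0 ht1
      edge := fun i s => h3 i s
      vert := fun i s => (G2 i.1).2.2.1 i.2 s
      vlab := fun i s i' s' k h => hv _ _ _ _ htil (X.lab M e) h4 h5 i s i' s' k h }

end Pool.Agent.Helper56.FN
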