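import Pool.Agent.Helper56.FN.St

set_option autoImplicit false

open Set Filter Topology

noncomputable section

namespace Pool.Agent.Helper56.FN

open Pool.Agent.Helper54.TRI
open Pool.Agent.Helper56.FM (Ops Sound Rf Tr trv sh1 eqr ZF eqf sides cyc cancel sgI sgD crossz sT StVL StTL)

private theorem cancel_sum_CH (G : Rf → Rf → ℝ) : ∀ (n : ℕ) (L : List (Rf × Rf)),
    (∀ d ∈ L, G d.2 d.1 = - G d.1 d.2) → cancel n L = true →
    (L.map (fun d => G d.1 d.2)).sum = 0 := by
  intro n
  induction n with
  | zero =>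
    intro L _ h
    have h' : L = [] := by
      rw [cancel] at h
      exact List.isEmpty_iff.1 h
    rw [h', List.map_nil, List.sum_nil]
  | succ n ih =>
    intro L hL h
    cases L with
    | nil => rw [List.map_nil, List.sum_nil]
    | cons d t =>
      rw [cancel] at h
      have h2 : t.contains (d.2, d.1) = true ∧ cancel n (t.erase (d.2, d.1)) = true := by
        rwa [Bool.and_eq_true] at h
      have h1 : (d.2, d.1) ∈ t := by
        have := h2.1
        rwa [List.contains_iff_mem] at this
      have hperm := List.perm_cons_erase h1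
      have hs := (hperm.map (fun d : Rf × Rf => G d.1 d.2)).sum_eq
      have hi := ih (t.erase (d.2, d.1))
        (fun d' hd' => hL d' (List.mem_cons_of_mem _ (List.mem_of_mem_erase hd'))) h2.2
      rw [List.map_cons, List.sum_cons, hs, List.map_cons, List.sum_cons, hi]
      show G d.1 d.2 + (G d.2 d.1 + 0) = 0
      rw [hL d List.mem_cons_self]
      ring

private theorem sum_flatMap_CH {A B : Type} (L : List A) (F : A → List B) (f : B → ℝ) :
    ((L.flatMap F).map f).sum = (L.map (fun x => ((F x).map f).sum)).sum := by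
  induction L with
  | nil => simp
  | cons a L ih => rw [List.flatMap_cons, List.map_append, List.sum_append, ih, List.map_cons, List.sum_cons]

private theorem sum_range_CH (n : ℕ) (k : ℕ → ℝ) : ((List.range n).map k).sum = ∑ a : Fin n, k a.val := by
  induction n with
  | zero => simp
  | succ n ih =>
    rw [List.range_succ, List.map_append, List.sum_append, ih, Fin.sum_univ_castSucc]
    simp

private theorem sum_list_CH {A : Type} (L : List A) (d : A) (h : A → ℝ) :
    (L.map h).sum = ∑ c : Fin L.length, h (L.getD c.val d) := by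
  have : ∀ c : Fin L.length, h (L.getD c.val d) = h L[c.val] := fun c => by
    rw [List.getD_eq_getElem _ _ c.isLt]
  rw [Finset.sum_congr rfl fun c _ => this c]
  exact (Fin.sum_univ_fun_getElem L h).symm

private theorem sides_CH {Q : Type} (M : Ops Q) (e : Q → ℂ) (X : Cert Q) (t : Tr) (g : ℂ → ℂ → ℝ) :
    ((sides t).map (fun d => g (X.pt M e d.1) (X.pt M e d.2))).sum =
      ∑ s : Fin 3, g (X.ptr M e t s) (X.ptr M e t (s + 1)) := by
  rw [Fin.sum_univ_three]
  simp [sides, Cert.ptr, trv]
  ring

theorem m_CH : StCH := by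
  intro Q M β e Γ hM X hC hG g h1 h2 h3
  have hsh1 : ∀ r : Rf, X.pt M e (sh1 r) = β * X.pt M e r := by
    intro r
    show e (M.mul (r.2 + 1) _) = β * e (M.mul r.2 _)
    rw [hM.mul, hM.mul, pow_succ]
    show _ * e (X.V.getD r.1 (M.zero, 0)).1 = _
    ring
  -- triangles
  have hT : ∀ (c : Fin X.CS.length) (a : Fin (X.C M e c).n) (s : Fin 3),
      TT (X.C M e) ⟨c, a⟩ s = X.ptr M e ((X.cl c.val).tr a.val) s := fun c a s => (hG c).2.2.1 a s
  have hn : ∀ c : Fin X.CS.length, (X.C M e c).n = (X.cl c.val).n := fun c => (hG c).1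
  -- antisymmetry for the sides
  have hanti : ∀ (c : Fin X.CS.length) (a : ℕ), a < (X.cl c.val).n → ∀ s : Fin 3,
      g (X.ptr M e ((X.cl c.val).tr a) (s + 1)) (X.ptr M e ((X.cl c.val).tr a) s) =
        - g (X.ptr M e ((X.cl c.val).tr a) s) (X.ptr M e ((X.cl c.val).tr a) (s + 1)) := by
    intro c a ha s
    have := h1 ⟨c, ⟨a, by rw [hn c]; exact ha⟩⟩ s
    rw [hT, hT] at this
    exact this
  have hdarts : ∀ d ∈ X.darts, g (X.pt M e d.2) (X.pt M e d.1) =
      - g (X.pt M e d.1) (X.pt M e d.2) := by
    intro d hmem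
    rw [Cert.darts, List.mem_flatMap] at hmem
    obtain ⟨c, hc, hmem⟩ := hmem
    rw [List.mem_flatMap] at hmem
    obtain ⟨a, ha, hmem⟩ := hmem
    obtain ⟨i, hi, rfl⟩ := List.getElem_of_mem hc
    have hcl : X.cl i = X.CS[i] := List.getD_eq_getElem _ _ hi
    have ha' : a < (X.cl i).n := by rw [hcl]; exact List.mem_range.1 ha
    have h0 := hanti ⟨i, hi⟩ a ha' 0
    have h1' := hanti ⟨i, hi⟩ a ha' 1
    have h2' := hanti ⟨i, hi⟩ a ha' 2
    simp only at h0 h1' h2'
    rw [hcl] at h0 h1' h2'
    simp only [sides, List.mem_cons, List.not_mem_nil, or_false] at hmem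
    rcases hmem with rfl | rfl | rfl
    · exact h0
    · exact h1'
    · exact h2'
  -- the sum over the darts
  have hsum : (X.darts.map (fun d => g (X.pt M e d.1) (X.pt M e d.2))).sum =
      ∑ i : Ix (X.C M e), ∑ s : Fin 3, g (TT (X.C M e) i s) (TT (X.C M e) i (s + 1)) := by
    rw [Cert.darts, sum_flatMap_CH, sum_list_CH X.CS (.P ((0, 0), (0, 0), (0, 0))), Fintype.sum_sigma]
    refine Finset.sum_congr rfl fun c _ => ?_
    rw [sum_flatMap_CH]
    show ((List.range (X.cl c.val).n).map _).sum = _
    rw [← hn c, sum_range_CH]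
    refine Finset.sum_congr rfl fun a _ => ?_
    show ((sides ((X.cl c.val).tr a.val)).map
      (fun d => g (X.pt M e d.1) (X.pt M e d.2))).sum = _
    rw [sides_CH]
    refine Finset.sum_congr rfl fun s _ => ?_
    rw [hT, hT]
  rw [← hsum]
  -- the cancellation
  have hcan := cancel_sum_CH (fun r r' => g (X.pt M e r) (X.pt M e r')) 4000
    (X.darts ++ cyc X.seam ++ (cyc X.seam).map fun d => (sh1 d.2, sh1 d.1)) ?_ hC
  · rw [List.map_append, List.sum_append, List.map_append, List.sum_append] at hcan
    have e1 : ((((cyc X.seam).map (fun d => (X.pt M e d.1, X.pt M e d.2))).map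
        (fun d => g (β * d.1) (β * d.2) - g d.1 d.2)).sum : ℝ) =
        - ((((cyc X.seam).map fun d => (sh1 d.2, sh1 d.1)).map
          (fun d => g (X.pt M e d.1) (X.pt M e d.2))).sum) -
        ((cyc X.seam).map (fun d => g (X.pt M e d.1) (X.pt M e d.2))).sum := by
      rw [List.map_map, List.map_map]
      have hanti3 : ∀ d ∈ cyc X.seam, g (β * X.pt M e d.2) (β * X.pt M e d.1) =
          - g (β * X.pt M e d.1) (β * X.pt M e d.2) := fun d hmem =>
        h3 (X.pt M e d.1, X.pt M e d.2) (List.mem_map.2 ⟨d, hmem, rfl⟩)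
      generalize cyc X.seam = L at hanti3
      induction L with
      | nil => simp
      | cons d L ih =>
        have ih' := ih (fun d' hd' => hanti3 d' (List.mem_cons_of_mem _ hd'))
        have hh := hanti3 d List.mem_cons_self
        simp only [List.map_cons, List.sum_cons, Function.comp_apply] at ih' ⊢
        rw [ih', hsh1, hsh1, hh]
        ring
    rw [e1]
    linarith
  · intro d hmem
    rw [List.mem_append, List.mem_append] at hmem
    rcases hmem with (hmem | hmem) | hmem
    · exact hdarts d hmem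
    · exact h2 (X.pt M e d.1, X.pt M e d.2) (List.mem_map.2 ⟨d, hmem, rfl⟩)
    · obtain ⟨d', hd', rfl⟩ := List.mem_map.1 hmem
      have := h3 (X.pt M e d'.1, X.pt M e d'.2) (List.mem_map.2 ⟨d', hd', rfl⟩)
      show g (X.pt M e (sh1 d'.1)) (X.pt M e (sh1 d'.2)) =
        - g (X.pt M e (sh1 d'.2)) (X.pt M e (sh1 d'.1))
      rw [hsh1, hsh1]
      simp only at this
      linarith

end Pool.Agent.Helper56.FN
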