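import Pool.Agent.Helper56.FN.St

/-! # Project FN: module GE (three-clusters of a certificate) -/

set_option autoImplicit false

open Set Filter Topology

noncomputable section

namespace Pool.Agent.Helper56.FN

open Pool.Agent.Helper54.TRI
open Pool.Agent.Helper56.FM (Ops Sound Rf Tr trv sh1 eqr ZF eqf sides cyc cancel sgI sgD crossz sT StVL StTL)

private theorem ofNat_GE (a : Fin 3) : (Fin.ofNat 3 a.val : Fin 3) = a := by
  apply Fin.ext
  simp

theorem m_GE (hk : StKES) : StGE := by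
  intro Q M β e Γ hM X k t0 t1 t2 hok
  simp only [Cert.okL, Bool.and_eq_true, decide_eq_true_eq] at hok
  obtain ⟨hij, hl, hd, hg⟩ := hok
  have winj : Function.Injective (fun a : Fin 3 => e (X.wz M (.E k t0 t1 t2) a.val)) := by
    intro a b hab
    by_contra hne
    have h1 := hM.nz _ (hd a b hne)
    rw [hM.sub] at h1
    exact h1 (sub_eq_zero.2 hab)
  have hΓi : ∀ a b : Fin 3, Γ (X.lz M t0.1)
      (e (X.wz M (.E k t0 t1 t2) b.val) - e (X.wz M (.E k t0 t1 t2) a.val)) := by
    intro a b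
    rw [← hM.sub]
    exact hM.inG _ _ (hg a b).1
  have hΓj : ∀ a b : Fin 3, Γ (X.lz M t0.2.1)
      (e (X.wz M (.E k t0 t1 t2) b.val) - e (X.wz M (.E k t0 t1 t2) a.val)) := by
    intro a b
    rw [← hM.sub]
    exact hM.inG _ _ (hg a b).2
  obtain ⟨k1, k2, k3, k4⟩ := hk k Γ (X.ptr M e t0)
    (fun a : Fin 3 => e (X.wz M (.E k t0 t1 t2) a.val)) (X.lz M t0.1) (X.lz M t0.2.1)
    winj hij hΓi hΓj
  have hE : ∀ (a : Fin 3) (s : Fin 3), (X.zf M (.E k t0 t1 t2) a.val s).toEF e =
      fES k (fun a : Fin 3 => e (X.wz M (.E k t0 t1 t2) a.val)) (X.lz M t0.1) (X.lz M t0.2.1) a s := by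
    intro a s
    simp only [Cert.zf, fES, ofNat_GE]
    split_ifs <;> simp only [ZF.toEF, hM.sub]
  refine ⟨k1, ?_, ?_, ?_⟩
  · intro a s t h0 h1
    have := hE a s
    rw [this]
    exact k2 a s t h0 h1
  · intro (a : Fin 3) s
    have h1 : X.lz M (trv ((CD.E k t0 t1 t2).tr a.val) s) =
      if a = s then X.lz M t0.1 else X.lz M t0.2.1 := hl a s
    rw [h1]
    exact k3 a s
  · intro a s
    have := hE a s
    rw [this]
    exact k4 a s

end Pool.Agent.Helper56.FN
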