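import Pool.Agent.Helper56.FN.St

/-! Project FN, module GP. -/

set_option autoImplicit false

open Set Filter Topology

noncomputable section

namespace Pool.Agent.Helper56.FN

open Pool.Agent.Helper54.TRI
open Pool.Agent.Helper56.FM (Ops Sound Rf Tr trv sh1 eqr ZF eqf sides cyc cancel sgI sgD crossz sT StVL StTL)

theorem m_GP (hk : StKP) : StGP := by
  intro Q M β e Γ hM X t h
  simp only [Cert.okL, Bool.and_eq_true, decide_eq_true_eq] at h
  obtain ⟨h1, h2⟩ := h
  obtain ⟨hok, hrow⟩ := hk Γ (X.ptr M e t) (X.lz M t.1) (hM.g0 _)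
  refine ⟨hok, ?_, ?_, ?_⟩
  · intro a s r _ _
    exact hrow a _
  · intro a s
    have e : X.lz M (trv ((CD.P t).tr a.val) s) = X.lz M t.1 := by
      change X.lz M (trv t s) = X.lz M t.1
      unfold trv
      split_ifs
      · rfl
      · exact h1
      · exact h2
    rw [e]
    exact hrow a _
  · intro a s
    trivial

end Pool.Agent.Helper56.FN
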