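import Pool.Agent.Helper56.FN.St

/-! # Project FN: module GT (tetrahedral clusters of a certificate) -/

set_option autoImplicit false

open Set Filter Topology

noncomputable section

namespace Pool.Agent.Helper56.FN

open Pool.Agent.Helper54.TRI
open Pool.Agent.Helper56.FM (Ops Sound Rf Tr trv sh1 eqr ZF eqf sides cyc cancel sgI sgD crossz sT StVL StTL)

private theorem ofNat_GT (a : Fin 4) : (Fin.ofNat 4 a.val : Fin 4) = a := by
  apply Fin.ext
  simp

private theorem sT_GT (a : Fin 4) : sT a * sT a = 1 := by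
  unfold sT
  split_ifs <;> norm_num

theorem m_GT (hk : StKT) : StGT := by
  intro Q M β e Γ hM X t0 t1 t2 t3 hok
  simp only [Cert.okL, Bool.and_eq_true, decide_eq_true_eq] at hok
  obtain ⟨hl, hd, hg⟩ := hok
  have winj : Function.Injective (fun a : Fin 4 => e (X.wz M (.T t0 t1 t2 t3) a.val)) := by
    intro a b hab
    by_contra hne
    have h1 := hM.nz _ (hd a b hne).2
    rw [hM.sub] at h1
    exact h1 (sub_eq_zero.2 hab)
  have Linj : Function.Injective (X.LT M (.T t0 t1 t2 t3)) := by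
    intro a b hab
    by_contra hne
    exact (hd a b hne).1 hab
  have hΓ : ∀ a b m : Fin 4, a ≠ m → b ≠ m → Γ (X.LT M (.T t0 t1 t2 t3) m)
      (e (X.wz M (.T t0 t1 t2 t3) b.val) - e (X.wz M (.T t0 t1 t2 t3) a.val)) := by
    intro a b m ha hb
    rw [← hM.sub]
    exact hM.inG _ _ (hg a b m ha hb)
  obtain ⟨k1, k2, k3, k4⟩ := hk Γ (X.ptr M e t0)
    (fun a : Fin 4 => e (X.wz M (.T t0 t1 t2 t3) a.val)) (X.LT M (.T t0 t1 t2 t3)) sT
    winj Linj sT_GT hΓ
  have hE : ∀ (a : Fin 4) (s : Fin 3), (X.zf M (.T t0 t1 t2 t3) a.val s).toEF e =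
      fT (fun a : Fin 4 => e (X.wz M (.T t0 t1 t2 t3) a.val)) (X.LT M (.T t0 t1 t2 t3)) sT a s := by
    intro a s
    simp only [Cert.zf, ZF.toEF, fT, ofNat_GT, hM.sub]
  refine ⟨k1, ?_, ?_, ?_⟩
  · intro a s t h0 h1
    have := hE a s
    rw [this]
    exact k2 a s t h0 h1
  · intro a s
    have h1 : X.lz M (trv ((CD.T t0 t1 t2 t3).tr a.val) s) =
      X.LT M (.T t0 t1 t2 t3) (inv4 s a) := hl a s
    rw [h1]
    exact k3 a s
  · intro a s
    have := hE a s
    rw [this]
    exact k4 a s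

end Pool.Agent.Helper56.FN
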