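import Pool.Agent.Helper56.FN.St

/-! Project FN, module GW. -/

set_option autoImplicit false

open Set Filter Topology

noncomputable section

namespace Pool.Agent.Helper56.FN

open Pool.Agent.Helper54.TRI
open Pool.Agent.Helper56.FM (Ops Sound Rf Tr trv sh1 eqr ZF eqf sides cyc cancel sgI sgD crossz sT StVL StTL)

private theorem forms_GW {Q : Type} (M : Ops Q) (ev : Q → ℂ) (X : Cert Q) (e : ℤ) (t0 t1 : Tr)
    (hneg : ∀ u, ev (M.neg u) = - ev u) (a : Fin 2) (s : Fin 3) :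
    (X.zf M (.W e t0 t1) a.val s).toEF ev =
      fW (ev (M.sub (X.vz M t1.1) (X.vz M t0.1))) (X.lz M t0.1) (X.lz M t1.1)
        (fun s => decide (X.lz M (trv t0 s) = X.lz M t0.1)) (e : ℝ) a s := by
  have hc : ((-e : ℤ) : ℝ) = -(e : ℝ) := by push_cast; rfl
  fin_cases a
  · simp only [Cert.zf, fW, Fin.zero_eta, Fin.val_zero, if_true]
    by_cases h0 : X.lz M (trv t0 s) = X.lz M t0.1 <;>
      by_cases h1 : X.lz M (trv t0 (s + 1)) = X.lz M t0.1 <;>
      simp [h0, h1, ZF.toEF, hc]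
  · simp only [Cert.zf, fW, Fin.mk_one, Fin.val_one, one_ne_zero, if_false]
    by_cases h0 : X.lz M (trv t0 s) = X.lz M t0.1 <;>
      by_cases h1 : X.lz M (trv t0 (s + 1)) = X.lz M t0.1 <;>
      simp [h0, h1, ZF.toEF, hc, hneg]

theorem m_GW (hk : StKW) : StGW := by
  intro Q M β ev Γ hM X e t0 t1 hok
  simp only [Cert.okL, Bool.and_eq_true, decide_eq_true_eq] at hok
  obtain ⟨hij, hee, hv, hGi, hGj, h1, h2⟩ := hok
  have hneg := hM.neg
  have hvne : ev (M.sub (X.vz M t1.1) (X.vz M t0.1)) ≠ 0 := hM.nz _ hv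
  have hee' : (e : ℝ) * e = 1 := by exact_mod_cast hee
  obtain ⟨k1, k2, k3, k4⟩ := hk Γ (X.ptr M ev t0) (ev (M.sub (X.vz M t1.1) (X.vz M t0.1)))
    (X.lz M t0.1) (X.lz M t1.1) (fun s => decide (X.lz M (trv t0 s) = X.lz M t0.1)) (e : ℝ)
    hvne hij hee' (hM.g0 _) (hM.g0 _) (hM.inG _ _ hGi) (hM.inG _ _ hGj)
    (hM.gn _ _ (hM.inG _ _ hGi)) (hM.gn _ _ (hM.inG _ _ hGj))
  refine ⟨k1, ?_, ?_, ?_⟩
  · intro a s t ht0 ht1
    rw [forms_GW M ev X e t0 t1 hneg a s]
    exact k2 a s t ht0 ht1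
  · intro a s
    refine (k3 a s).trans ?_
    congr 1
    have hlab : ∀ (a : Fin 2) (s : Fin 3), (if (a = 0) =
        ((decide (X.lz M (trv t0 s) = X.lz M t0.1)) = true) then X.lz M t0.1 else X.lz M t1.1) =
        X.lz M (trv ((CD.W e t0 t1).tr a.val) s) := by
      intro a s
      have hs1 : s = 0 → X.lz M (trv t0 s) = X.lz M t0.1 ∧ X.lz M (trv t1 s) = X.lz M t1.1 := by
        rintro rfl; exact ⟨rfl, rfl⟩
      have hs2 : s = 1 → (X.lz M (trv t0 s) = X.lz M t0.1 ∧ X.lz M (trv t1 s) = X.lz M t1.1) ∨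
          (X.lz M (trv t0 s) = X.lz M t1.1 ∧ X.lz M (trv t1 s) = X.lz M t0.1) := by
        rintro rfl; exact h1
      have hs3 : s = 2 → (X.lz M (trv t0 s) = X.lz M t0.1 ∧ X.lz M (trv t1 s) = X.lz M t1.1) ∨
          (X.lz M (trv t0 s) = X.lz M t1.1 ∧ X.lz M (trv t1 s) = X.lz M t0.1) := by
        rintro rfl; exact h2
      have hs : (X.lz M (trv t0 s) = X.lz M t0.1 ∧ X.lz M (trv t1 s) = X.lz M t1.1) ∨
          (X.lz M (trv t0 s) = X.lz M t1.1 ∧ X.lz M (trv t1 s) = X.lz M t0.1) := by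
        fin_cases s
        · exact Or.inl (hs1 rfl)
        · exact hs2 rfl
        · exact hs3 rfl
      fin_cases a
      · simp only [CD.tr, Fin.zero_eta, Fin.val_zero, if_true, decide_eq_true_eq]
        rcases hs with ⟨p, q⟩ | ⟨p, q⟩
        · rw [p]; simp
        · have : ¬ X.lz M t1.1 = X.lz M t0.1 := fun h => hij h.symm
          rw [p]; simp [this]
      · simp only [CD.tr, Fin.mk_one, Fin.val_one, one_ne_zero, if_false, decide_eq_true_eq]
        rcases hs with ⟨p, q⟩ | ⟨p, q⟩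
        · rw [p, q]; simp
        · have : ¬ X.lz M t1.1 = X.lz M t0.1 := fun h => hij h.symm
          rw [p, q]; simp [this]
    exact hlab a s
  · intro a s
    rw [forms_GW M ev X e t0 t1 hneg a s]
    exact k4 a s

end Pool.Agent.Helper56.FN
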