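import Pool.Agent.Helper56.FN.St

set_option autoImplicit false

open Set Filter Topology Matrix
open scoped ContDiff

noncomputable section

namespace Pool.Agent.Helper56.FN

open Pool.Agent.Helper54.TRI

private theorem sE_sq (k a : ℕ) : (sE k a : ℝ) * (sE k a : ℝ) = 1 := by
  unfold sE
  split_ifs <;> norm_num


private def mE_KES (k : ℕ) (i j l : ℤ) (z : Fin 3 → ℝ) : Matrix (Fin 3) (Fin 3) ℝ :=
  if l = i then Matrix.of (fun a b => (sE k a.val : ℝ) * (sE k b.val : ℝ) * (FF z a * FF z b))
    else if l = j then 1 - Matrix.of (fun a b => (sE k a.val : ℝ) * (sE k b.val : ℝ) * (FF z a * FF z b)) else 0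

private theorem idA_KES (k : ℕ) (f : Fin 3 → ℝ) (hf : ∑ s, f s ^ 2 = 1) :
    IsIdempotentElem (Matrix.of (fun a b : Fin 3 =>
      (sE k a.val : ℝ) * (sE k b.val : ℝ) * (f a * f b))) := by
  show Matrix.of (fun a b : Fin 3 => (sE k a.val : ℝ) * (sE k b.val : ℝ) * (f a * f b)) *
    Matrix.of (fun a b : Fin 3 => (sE k a.val : ℝ) * (sE k b.val : ℝ) * (f a * f b)) =
    Matrix.of (fun a b : Fin 3 => (sE k a.val : ℝ) * (sE k b.val : ℝ) * (f a * f b))
  ext a c
  rw [Matrix.mul_apply]
  simp only [Matrix.of_apply]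
  have h : ∀ b : Fin 3, (sE k a.val : ℝ) * (sE k b.val : ℝ) * (f a * f b) *
      ((sE k b.val : ℝ) * (sE k c.val : ℝ) * (f b * f c)) =
      (sE k a.val : ℝ) * (sE k c.val : ℝ) * (f a * f c) * f b ^ 2 := fun b => by
    have := sE_sq k b.val
    linear_combination ((sE k a.val : ℝ) * (sE k c.val : ℝ) * (f a * f c) * f b ^ 2) * this
  rw [Finset.sum_congr rfl fun b _ => h b, ← Finset.mul_sum, hf, mul_one]

private theorem symA_KES (k : ℕ) (f : Fin 3 → ℝ) :
    (Matrix.of (fun a b : Fin 3 => (sE k a.val : ℝ) * (sE k b.val : ℝ) * (f a * f b)))ᵀ =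
      Matrix.of (fun a b : Fin 3 => (sE k a.val : ℝ) * (sE k b.val : ℝ) * (f a * f b)) := by
  ext a c
  rw [Matrix.transpose_apply, Matrix.of_apply, Matrix.of_apply]
  ring

private theorem zero_KES (k : ℕ) (i j l : ℤ) (z : Fin 3 → ℝ) (h1 : l ≠ i) (h2 : l ≠ j) :
    mE_KES k i j l z = 0 := by
  unfold mE_KES
  rw [if_neg h1, if_neg h2]

private theorem smooth_KES (hf : StFF) (k : ℕ) (i j l : ℤ) (a b : Fin 3) (z : Fin 3 → ℝ) (hz : z ∈ Sx) :
    ContDiffAt ℝ ∞ (fun z => mE_KES k i j l z a b) z := by
  have hF : ∀ s, ContDiffAt ℝ ∞ (fun z => FF z s) z := fun s => contDiffAt_pi.1 (hf.1 z hz) s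
  unfold mE_KES
  by_cases h1 : l = i
  · simp only [if_pos h1, Matrix.of_apply]
    exact contDiffAt_const.mul ((hF a).mul (hF b))
  · by_cases h2 : l = j
    · simp only [if_neg h1, if_pos h2, Matrix.sub_apply, Matrix.of_apply]
      exact contDiffAt_const.sub (contDiffAt_const.mul ((hF a).mul (hF b)))
    · simp only [if_neg h1, if_neg h2]
      exact contDiffAt_const

private theorem ok_KES (hf : StFF) (k : ℕ) (Γ : ℤ → ℂ → Prop) (P : Fin 3 → ℂ) (w : Fin 3 → ℂ) (i j : ℤ)
    (hw : Function.Injective w) (hij : i ≠ j) (hi : ∀ a b, Γ i (w b - w a))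
    (hj : ∀ a b, Γ j (w b - w a)) : ClusOK Γ (clES k P w i j) where
  inj := hw
  symm := by
    intro l z
    show (mE_KES k i j l z)ᵀ = mE_KES k i j l z
    unfold mE_KES
    split_ifs
    · exact symA_KES _ _
    · rw [Matrix.transpose_sub, symA_KES, Matrix.transpose_one]
    · exact Matrix.transpose_zero
  idem := by
    intro l z hz
    show mE_KES k i j l z * mE_KES k i j l z = mE_KES k i j l z
    have h := idA_KES k (FF z) (hf.2.1 z hz)
    unfold mE_KES
    split_ifs
    · exact h
    · exact h.one_sub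
    · exact Matrix.zero_mul _
  zero := by
    intro l hl z
    have h : ¬ (l = i ∨ l = j) := by
      intro h
      apply hl
      show l ∈ ({i, j} : Finset ℤ)
      rw [Finset.mem_insert, Finset.mem_singleton]
      exact h
    rw [not_or] at h
    exact zero_KES k i j l z h.1 h.2
  sum := by
    intro z _
    show ∑ l ∈ ({i, j} : Finset ℤ), mE_KES k i j l z = 1
    rw [Finset.sum_pair hij]
    unfold mE_KES
    rw [if_pos rfl, if_neg hij.symm, if_pos rfl]
    exact add_sub_cancel _ _
  loc := by
    intro l z _ a b hne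
    by_cases h1 : l = i
    · subst h1; exact hi a b
    · by_cases h2 : l = j
      · subst h2; exact hj a b
      · exfalso
        apply hne
        show mE_KES k i j l z a b = 0
        rw [zero_KES k i j l z h1 h2]
        rfl
  smooth := fun l a b z hz => smooth_KES hf k i j l a b z hz

private theorem sum3_KES (f : Fin 3 → ℝ) (s : Fin 3) :
    ∑ b, f b = f s + f (s + 1) + f (s + 2) := by
  fin_cases s
  · simp [Fin.sum_univ_three]
  · simp [Fin.sum_univ_three]; ring
  · simp [Fin.sum_univ_three]; ring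

/-- entries -/
private theorem ent_KES (k : ℕ) (i j l : ℤ) (z : Fin 3 → ℝ) (a b : Fin 3) :
    mE_KES k i j l z a b = if l = i then (sE k a.val : ℝ) * (sE k b.val : ℝ) * (FF z a * FF z b) else
      if l = j then (if a = b then 1 else 0) - (sE k a.val : ℝ) * (sE k b.val : ℝ) * (FF z a * FF z b)
      else 0 := by
  unfold mE_KES
  split_ifs with h1 h2 h3
  · rfl
  · subst h3
    rw [Matrix.sub_apply, Matrix.one_apply_eq, Matrix.of_apply]
  · rw [Matrix.sub_apply, Matrix.one_apply_ne h3, Matrix.of_apply]
  · rfl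

private theorem row_KES (hf : StFF) (k : ℕ) (P : Fin 3 → ℂ) (w : Fin 3 → ℂ) (i j : ℤ)
    (hw : Function.Injective w) (hij : i ≠ j) (a s : Fin 3) (t : ℝ) (h0 : 0 ≤ t) (h1 : t ≤ 1) :
    crow (clES k P w i j) a (ez s t) = (fES k w i j a s).row t := by
  obtain ⟨hc, hs, hz⟩ := hf.2.2.1 s t h0 h1
  have d1 : ∀ s : Fin 3, s ≠ s + 1 ∧ s ≠ s + 2 ∧ s + 1 ≠ s + 2 := by decide
  obtain ⟨q1, q2, q3⟩ := d1 s
  have hall : ∀ s a : Fin 3, a = s ∨ a = s + 1 ∨ a = s + 2 := by decide
  have hcs : Real.cos (Real.pi / 2 * t) ^ 2 + Real.sin (Real.pi / 2 * t) ^ 2 = 1 :=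
    Real.cos_sq_add_sin_sq _
  ext l u
  have hcr : crow (clES k P w i j) a (ez s t) l u =
      (if u = w s - w a then mE_KES k i j l (ez s t) a s else 0) +
      (if u = w (s + 1) - w a then mE_KES k i j l (ez s t) a (s + 1) else 0) +
      (if u = w (s + 2) - w a then mE_KES k i j l (ez s t) a (s + 2) else 0) :=
    sum3_KES (fun b => if u = w b - w a then mE_KES k i j l (ez s t) a b else 0) s
  rw [hcr]
  simp only [ent_KES]
  rcases hall s a with rfl | rfl | rfl
  · have hF : fES k w i j a a = .wall i j (w (a + 1) - w a)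
        ((sE k a.val * sE k (a + 1).val : ℤ) : ℝ) := by
      unfold fES; rw [if_pos rfl]
    rw [hF, hc, hs, hz, if_pos rfl, if_neg q1, if_neg q2, sub_self, sE_sq]
    push_cast
    generalize (sE k a.val : ℝ) * (sE k (a + 1).val : ℝ) = g
    have hv : w (a + 1) - w a ≠ 0 := fun h => q1 (hw (sub_eq_zero.1 h)).symm
    show _ = (if l = i then (if u = 0 then Real.cos (Real.pi / 2 * t) ^ 2 else
        if u = w (a + 1) - w a then g * (Real.cos (Real.pi / 2 * t) * Real.sin (Real.pi / 2 * t)) else 0)
      else if l = j then (if u = 0 then Real.sin (Real.pi / 2 * t) ^ 2 else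
        if u = w (a + 1) - w a then - (g * (Real.cos (Real.pi / 2 * t) * Real.sin (Real.pi / 2 * t))) else 0)
      else 0)
    by_cases hu : u = 0
    · subst hu
      simp only [if_true, if_neg hv.symm, mul_zero, sub_zero, ite_self, add_zero, one_mul]
      split_ifs
      · ring
      · linarith
      · rfl
    · by_cases hu2 : u = w (a + 1) - w a
      · simp only [if_neg hu, if_pos hu2, mul_zero, sub_zero, ite_self, add_zero, zero_add, zero_sub]
      · simp only [if_neg hu, if_neg hu2, mul_zero, sub_zero, ite_self, add_zero]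
  · have hF : fES k w i j (s + 1) s = .wall j i (w s - w (s + 1))
        ((-(sE k s.val * sE k (s + 1).val) : ℤ) : ℝ) := by
      unfold fES; rw [if_neg q1.symm, if_pos rfl]
    rw [hF, hc, hs, hz, if_pos rfl, if_neg q1.symm, if_neg q3, sub_self, sE_sq,
      mul_comm (sE k (s + 1).val : ℝ) (sE k s.val : ℝ)]
    push_cast
    generalize (sE k s.val : ℝ) * (sE k (s + 1).val : ℝ) = g
    have hv : w s - w (s + 1) ≠ 0 := fun h => q1 (hw (sub_eq_zero.1 h))
    show _ = (if l = j then (if u = 0 then Real.cos (Real.pi / 2 * t) ^ 2 else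
        if u = w s - w (s + 1) then (-g) * (Real.cos (Real.pi / 2 * t) * Real.sin (Real.pi / 2 * t)) else 0)
      else if l = i then (if u = 0 then Real.sin (Real.pi / 2 * t) ^ 2 else
        if u = w s - w (s + 1) then - ((-g) * (Real.cos (Real.pi / 2 * t) * Real.sin (Real.pi / 2 * t))) else 0)
      else 0)
    by_cases hli : l = i
    · have hlj : l ≠ j := fun h => hij (hli.symm.trans h)
      by_cases hu : u = 0
      · subst hu
        simp only [if_true, if_neg hv.symm, if_pos hli, if_neg hlj, mul_zero, ite_self, add_zero,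
          zero_add, one_mul]
        ring
      · by_cases hu2 : u = w s - w (s + 1)
        · simp only [if_neg hu, if_pos hu2, if_pos hli, if_neg hlj, mul_zero, ite_self, add_zero]
          ring
        · simp only [if_neg hu, if_neg hu2, if_pos hli, if_neg hlj, mul_zero, ite_self, add_zero]
    · by_cases hlj : l = j
      · by_cases hu : u = 0
        · subst hu
          simp only [if_true, if_neg hv.symm, if_neg hli, if_pos hlj, mul_zero, sub_zero, ite_self,
            add_zero, zero_add, one_mul]
          linarith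
        · by_cases hu2 : u = w s - w (s + 1)
          · simp only [if_neg hu, if_pos hu2, if_neg hli, if_pos hlj, mul_zero, sub_zero, ite_self,
              add_zero]
            ring
          · simp only [if_neg hu, if_neg hu2, if_neg hli, if_pos hlj, mul_zero, sub_zero, ite_self,
              add_zero]
      · simp only [if_neg hli, if_neg hlj, ite_self, add_zero]
  · have hF : fES k w i j (s + 2) s = .pure j := by
      unfold fES; rw [if_neg q2.symm, if_neg q3.symm]
    rw [hF, hz, if_neg q2.symm, if_neg q3.symm, if_pos rfl, sub_self]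
    show _ = (if l = j ∧ u = 0 then 1 else 0)
    by_cases hli : l = i
    · have hlj : l ≠ j := fun h => hij (hli.symm.trans h)
      have hno : ¬ (l = j ∧ u = 0) := fun h => hlj h.1
      simp only [if_neg hno, if_pos hli, zero_mul, mul_zero, ite_self, add_zero]
    · by_cases hlj : l = j
      · simp only [if_neg hli, if_pos hlj, zero_mul, mul_zero, sub_zero, ite_self, zero_add]
        by_cases hu : u = 0
        · rw [if_pos hu, if_pos ⟨hlj, hu⟩]
        · rw [if_neg hu, if_neg (fun h => hu h.2)]
      · have hno : ¬ (l = j ∧ u = 0) := fun h => hlj h.1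
        simp only [if_neg hno, if_neg hli, if_neg hlj, ite_self, add_zero]

theorem m_KES (hf : StFF) : StKES := by
  intro k Γ P w i j hw hij hi hj
  refine ⟨ok_KES hf k Γ P w i j hw hij hi hj,
    fun a s t h0 h1 => row_KES hf k P w i j hw hij a s t h0 h1, ?_, ?_⟩
  · intro (a : Fin 3) s
    have hez : (Pi.single s 1 : Fin 3 → ℝ) = ez s 0 := by
      ext k'
      by_cases h : k' = s
      · subst h
        simp [ez]
      · simp [ez, h]
    rw [hez, row_KES hf k P w i j hw hij a s 0 le_rfl zero_le_one]
    have d1 : ∀ s : Fin 3, s ≠ s + 1 ∧ s ≠ s + 2 ∧ s + 1 ≠ s + 2 := by decide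
    obtain ⟨q1, q2, q3⟩ := d1 s
    have hwall : ∀ (i j : ℤ) (v : ℂ) (e : ℝ), (EF.wall i j v e).row 0 = prow i := by
      intro i j v e
      ext l u
      show (if l = i then _ else if l = j then _ else _) = if _ then _ else _
      simp only [mul_zero, Real.cos_zero, Real.sin_zero, one_pow, neg_zero, ite_self]
      by_cases h1 : l = i
      · rw [if_pos h1]
        by_cases h2 : u = 0
        · rw [if_pos h2, if_pos ⟨h1, h2⟩]
        · rw [if_neg h2, if_neg (fun h => h2 h.2)]
      · rw [if_neg h1]
        simp [h1]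
    unfold fES
    by_cases h1 : a = s
    · rw [if_pos h1, if_pos h1]
      exact hwall _ _ _ _
    · rw [if_neg h1, if_neg h1]
      by_cases h2 : a = s + 1
      · rw [if_pos h2]
        exact hwall _ _ _ _
      · rw [if_neg h2]
        rfl
  · intro a s
    unfold fES
    split_ifs
    · exact hij
    · exact hij.symm
    · trivial

end Pool.Agent.Helper56.FN
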