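import Pool.Agent.Helper56.FN.St

/-! Project FN, module NB: neighbours of a checked certificate. -/

set_option autoImplicit false

open Set Filter Topology

noncomputable section

namespace Pool.Agent.Helper56.FN

open Pool.Agent.Helper54.TRI
open Pool.Agent.Helper56.FM (Ops Sound Rf Tr trv sh1 eqr ZF eqf sides cyc cancel sgI sgD crossz sT StVL StTL)

variable {Q : Type} {M : Ops Q} {β : ℂ} {e : Q → ℂ} {Γ : ℤ → ℂ → Prop}

private theorem ne_zero_NB (hM : Sound M β e Γ) : β ≠ 0 := by
  intro h0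
  have := hM.one_lt
  rw [h0, norm_zero] at this
  linarith

private theorem eqr_NB (hM : Sound M β e Γ) (X : Cert Q) (m : ℤ) (r r' : Rf)
    (h : eqr m r r' = true) : X.pt M e r = β ^ m * X.pt M e r' ∧ X.lz M r = X.lz M r' + m := by
  unfold eqr at h
  simp only [Bool.and_eq_true, decide_eq_true_eq] at h
  obtain ⟨h1, h2⟩ := h
  constructor
  · unfold Cert.pt Cert.vz
    rw [hM.mul, hM.mul, h1, ← mul_assoc, ← zpow_natCast, ← zpow_natCast,
      ← zpow_add₀ (ne_zero_NB hM), h2, add_comm]
  · unfold Cert.lz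
    rw [h1, h2]
    ring

private theorem eqf_NB (hM : Sound M β e Γ) (m : ℤ) (f g : ZF Q) (h : eqf M m f g = true) :
    f.toEF e = ((g.toEF e).rev).act β m := by
  have hβ := ne_zero_NB hM
  cases f with
  | pure l =>
    cases g with
    | pure l' =>
      simp only [eqf, decide_eq_true_eq] at h
      simp only [ZF.toEF, EF.rev, EF.act, h]
    | wall i' j' v' e' => simp [eqf] at h
  | wall i j v s =>
    cases g with
    | pure l' => simp [eqf] at h
    | wall i' j' v' s' =>
      simp only [eqf, Bool.and_eq_true, decide_eq_true_eq] at h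
      obtain ⟨h1, h2, h3, h4⟩ := h
      have hv : e v = β ^ m * e v' := by
        by_cases hm : 0 ≤ m
        · rw [if_pos hm] at h4
          have h5 := hM.isz _ h4
          rw [hM.sub, hM.mul, sub_eq_zero] at h5
          rw [h5]
          congr 1
          rw [← zpow_natCast, Int.toNat_of_nonneg hm]
        · rw [if_neg hm] at h4
          have h5 := hM.isz _ h4
          rw [hM.sub, hM.mul, sub_eq_zero] at h5
          rw [← h5, ← mul_assoc, ← zpow_natCast, Int.toNat_of_nonneg (by omega), ← zpow_add₀ hβ]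
          simp
      simp only [ZF.toEF, EF.rev, EF.act, h1, h2, h3, hv]
      push_cast
      rfl

theorem m_NB : StNB := by
  intro Q M β e Γ hM X hN hG i s
  obtain ⟨c, a⟩ := i
  have hn : (X.C M e c).n = (X.cl c.val).n := (hG c).1
  have ha : a.val < (X.cl c.val).n := by
    rw [← hn]; exact a.isLt
  -- the check
  have hok : X.okN M c.val a.val s = true := by
    have h1 := List.all_eq_true.mp hN c.val (List.mem_range.mpr c.isLt)
    have h2 := List.all_eq_true.mp h1 a.val (List.mem_range.mpr ha)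
    simp only [Bool.and_eq_true] at h2
    fin_cases s
    · exact h2.1
    · exact h2.2.1
    · exact h2.2.2
  unfold Cert.okN at hok
  simp only [Bool.and_eq_true, decide_eq_true_eq] at hok
  obtain ⟨hc', ha', e1, e2, e3⟩ := hok
  generalize X.nb c.val a.val s.val = r at hc' ha' e1 e2 e3
  obtain ⟨c1, a1, s1, m⟩ := r
  dsimp only at hc' ha' e1 e2 e3
  have hn' : (X.C M e ⟨c1, hc'⟩).n = (X.cl c1).n := (hG ⟨c1, hc'⟩).1
  have hT : ∀ (c : Fin X.CS.length) (a : Fin (X.C M e c).n) (s : Fin 3),
      TT (X.C M e) ⟨c, a⟩ s = X.pt M e (trv ((X.cl c.val).tr a.val) s) := by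
    intro c a s
    exact (hG c).2.2.1 a s
  refine ⟨⟨⟨c1, hc'⟩, ⟨a1, by rw [hn']; exact ha'⟩⟩, Fin.ofNat 3 s1, m, ?_, ?_, ?_, ?_, ?_⟩
  · rw [hT, hT]
    exact (eqr_NB hM X m _ _ e1).1
  · rw [hT, hT]
    exact (eqr_NB hM X m _ _ e2).1
  · exact eqf_NB hM m _ _ e3
  · exact (eqr_NB hM X m _ _ e1).2
  · exact (eqr_NB hM X m _ _ e2).2

end Pool.Agent.Helper56.FN
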