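import Pool.Agent.Helper56.FN.St

/-!
# Project FN, module WI: the winding number of the seam
-/

set_option autoImplicit false

open Set Filter Topology

noncomputable section

namespace Pool.Agent.Helper56.FN

open Pool.Agent.Helper54.TRI
open Pool.Agent.Helper56.FM (Ops Sound Rf Tr trv sh1 eqr ZF eqf sides cyc cancel sgI sgD crossz sT StVL StTL)

/-- The four size statements for arguments. -/
private theorem argpos_WI {z : ℂ} (h : 0 < z.im) : 0 < Complex.arg z ∧ Complex.arg z < Real.pi := by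
  have h1 : 0 ≤ Complex.arg z := Complex.arg_nonneg_iff.2 h.le
  have h2 : Complex.arg z ≠ 0 := by
    intro h0
    have := (Complex.arg_eq_zero_iff.1 h0).2
    exact h.ne' this
  have h3 : Complex.arg z ≠ Real.pi := by
    intro h0
    have := (Complex.arg_eq_pi_iff.1 h0).2
    exact h.ne' this
  exact ⟨lt_of_le_of_ne h1 h2.symm, lt_of_le_of_ne (Complex.arg_le_pi z) h3⟩

private theorem argneg_WI {z : ℂ} (h : z.im < 0) : -Real.pi < Complex.arg z ∧ Complex.arg z < 0 :=
  ⟨Complex.neg_pi_lt_arg z, Complex.arg_neg_iff.2 h⟩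

/-- Sizes determine an integer multiple of `2π`. -/
private theorem int_WI {k : ℤ} {x : ℝ} (n : ℤ) (hk : x = 2 * Real.pi * k)
    (h1 : 2 * Real.pi * (n - 1 : ℤ) < x) (h2 : x < 2 * Real.pi * (n + 1 : ℤ)) : k = n := by
  have hpi : (0 : ℝ) < 2 * Real.pi := by positivity
  rw [hk] at h1 h2
  have h3 : ((n - 1 : ℤ) : ℝ) < (k : ℝ) := lt_of_mul_lt_mul_left h1 hpi.le
  have h4 : (k : ℝ) < ((n + 1 : ℤ) : ℝ) := lt_of_mul_lt_mul_left h2 hpi.le
  have h5 : n - 1 < k := by exact_mod_cast h3
  have h6 : k < n + 1 := by exact_mod_cast h4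
  omega

/-- The crossing number of real sign data. -/
private def cr_WI (p q : ℂ) : ℤ :=
  if 0 < p.im ∧ q.im < 0 ∧ 0 < (q / p).im then 1 else
    if p.im < 0 ∧ 0 < q.im ∧ (q / p).im < 0 then -1 else 0

private theorem arg_WI (p q : ℂ) (hp : p.im ≠ 0) (hq : q.im ≠ 0) (hd : (q / p).im ≠ 0) :
    Complex.arg (q / p) = Complex.arg q - Complex.arg p + 2 * Real.pi * (cr_WI p q : ℝ) := by
  have hp0 : p ≠ 0 := by rintro rfl; exact hp rfl
  have hq0 : q ≠ 0 := by rintro rfl; exact hq rfl
  have hang : ((Complex.arg (q / p) : ℝ) : Real.Angle) =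
      ((Complex.arg q - Complex.arg p : ℝ) : Real.Angle) := by
    rw [Complex.arg_div_coe_angle hq0 hp0, Real.Angle.coe_sub]
  obtain ⟨k, hk⟩ := Real.Angle.angle_eq_iff_two_pi_dvd_sub.1 hang
  have hpi := Real.pi_pos
  have hkc : k = cr_WI p q := by
    unfold cr_WI
    rcases lt_or_gt_of_ne hp with hp1 | hp1 <;> rcases lt_or_gt_of_ne hq with hq1 | hq1 <;>
      rcases lt_or_gt_of_ne hd with hd1 | hd1
    · -- p < 0, q < 0, d < 0
      rw [if_neg (by rintro ⟨h, -⟩; linarith), if_neg (by rintro ⟨-, h, -⟩; linarith)]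
      have a := argneg_WI hp1
      have b := argneg_WI hq1
      have c := argneg_WI hd1
      refine int_WI 0 hk ?_ ?_ <;> push_cast <;> linarith [a.1, a.2, b.1, b.2, c.1, c.2]
    · rw [if_neg (by rintro ⟨h, -⟩; linarith), if_neg (by rintro ⟨-, h, -⟩; linarith)]
      have a := argneg_WI hp1
      have b := argneg_WI hq1
      have c := argpos_WI hd1
      refine int_WI 0 hk ?_ ?_ <;> push_cast <;> linarith [a.1, a.2, b.1, b.2, c.1, c.2]
    · rw [if_neg (by rintro ⟨h, -⟩; linarith), if_pos ⟨hp1, hq1, hd1⟩]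
      have a := argneg_WI hp1
      have b := argpos_WI hq1
      have c := argneg_WI hd1
      refine int_WI (-1) hk ?_ ?_ <;> push_cast <;> linarith [a.1, a.2, b.1, b.2, c.1, c.2]
    · rw [if_neg (by rintro ⟨h, -⟩; linarith), if_neg (by rintro ⟨-, -, h⟩; linarith)]
      have a := argneg_WI hp1
      have b := argpos_WI hq1
      have c := argpos_WI hd1
      refine int_WI 0 hk ?_ ?_ <;> push_cast <;> linarith [a.1, a.2, b.1, b.2, c.1, c.2]
    · rw [if_neg (by rintro ⟨-, -, h⟩; linarith), if_neg (by rintro ⟨h, -⟩; linarith)]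
      have a := argpos_WI hp1
      have b := argneg_WI hq1
      have c := argneg_WI hd1
      refine int_WI 0 hk ?_ ?_ <;> push_cast <;> linarith [a.1, a.2, b.1, b.2, c.1, c.2]
    · rw [if_pos ⟨hp1, hq1, hd1⟩]
      have a := argpos_WI hp1
      have b := argneg_WI hq1
      have c := argpos_WI hd1
      refine int_WI 1 hk ?_ ?_ <;> push_cast <;> linarith [a.1, a.2, b.1, b.2, c.1, c.2]
    · rw [if_neg (by rintro ⟨-, h, -⟩; linarith), if_neg (by rintro ⟨h, -⟩; linarith)]
      have a := argpos_WI hp1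
      have b := argpos_WI hq1
      have c := argneg_WI hd1
      refine int_WI 0 hk ?_ ?_ <;> push_cast <;> linarith [a.1, a.2, b.1, b.2, c.1, c.2]
    · rw [if_neg (by rintro ⟨-, h, -⟩; linarith), if_neg (by rintro ⟨h, -⟩; linarith)]
      have a := argpos_WI hp1
      have b := argpos_WI hq1
      have c := argpos_WI hd1
      refine int_WI 0 hk ?_ ?_ <;> push_cast <;> linarith [a.1, a.2, b.1, b.2, c.1, c.2]
  rw [← hkc]
  linarith

/-- Inversion changes the sign of the imaginary part. -/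
private theorem inv_WI (p q : ℂ) (h : 0 < (p / q).im) : (q / p).im < 0 := by
  have h1 : q / p = (p / q)⁻¹ := by rw [inv_div]
  rw [h1, Complex.inv_im]
  have h2 : p / q ≠ 0 := by rintro h0; rw [h0] at h; simp at h
  have h3 : 0 < Complex.normSq (p / q) := Complex.normSq_pos.2 h2
  exact div_neg_of_neg_of_pos (by linarith) h3

private theorem sgI_WI {Q : Type} {M : Ops Q} {β : ℂ} {e : Q → ℂ} {Γ : ℤ → ℂ → Prop}
    (hM : Sound M β e Γ) (v : Q) (h : sgI M v ≠ 0) :
    (sgI M v = 1 ∧ 0 < (e v).im) ∨ (sgI M v = -1 ∧ (e v).im < 0) := by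
  obtain ⟨c, hc, h1c⟩ := hM.one
  have key : (e v / (c : ℂ)).im = (e v).im / c := by
    rw [Complex.div_ofReal_im]
  unfold sgI at h ⊢
  by_cases h1 : M.pos M.zero M.one v = true
  · left
    rw [if_pos h1]
    refine ⟨rfl, ?_⟩
    have h3 := hM.pos _ _ _ h1
    simp only [ht, hM.zero, h1c, sub_zero] at h3
    rw [key] at h3
    by_contra h4
    exact absurd h3 (not_lt.2 (div_nonpos_of_nonpos_of_nonneg (not_lt.1 h4) hc.le))
  · by_cases h2 : M.pos M.zero v M.one = true
    · right
      rw [if_neg h1, if_pos h2]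
      refine ⟨rfl, ?_⟩
      have h3 := hM.pos _ _ _ h2
      simp only [ht, hM.zero, h1c, sub_zero] at h3
      have h4 := inv_WI _ _ h3
      rw [key] at h4
      by_contra h5
      exact absurd h4 (not_lt.2 (div_nonneg (not_lt.1 h5) hc.le))
    · rw [if_neg h1, if_neg h2] at h
      exact absurd rfl h

private theorem sgD_WI {Q : Type} {M : Ops Q} {β : ℂ} {e : Q → ℂ} {Γ : ℤ → ℂ → Prop}
    (hM : Sound M β e Γ) (u v : Q) (h : sgD M u v ≠ 0) :
    (sgD M u v = 1 ∧ 0 < (e v / e u).im) ∨ (sgD M u v = -1 ∧ (e v / e u).im < 0) := by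
  unfold sgD at h ⊢
  by_cases h1 : M.pos M.zero u v = true
  · left
    rw [if_pos h1]
    refine ⟨rfl, ?_⟩
    have h3 := hM.pos _ _ _ h1
    simpa only [ht, hM.zero, sub_zero] using h3
  · by_cases h2 : M.pos M.zero v u = true
    · right
      rw [if_neg h1, if_pos h2]
      refine ⟨rfl, ?_⟩
      have h3 := hM.pos _ _ _ h2
      simp only [ht, hM.zero, sub_zero] at h3
      exact inv_WI _ _ h3
    · rw [if_neg h1, if_neg h2] at h
      exact absurd rfl h

private theorem crossz_WI {Q : Type} {M : Ops Q} {β : ℂ} {e : Q → ℂ} {Γ : ℤ → ℂ → Prop}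
    (hM : Sound M β e Γ) (u v : Q) (hu : sgI M u ≠ 0)
    (hv : sgI M v ≠ 0) (hd : sgD M u v ≠ 0) :
    cr_WI (e u) (e v) = crossz M u v := by
  unfold cr_WI crossz
  rcases sgI_WI hM u hu with ⟨a1, a2⟩ | ⟨a1, a2⟩ <;>
    rcases sgI_WI hM v hv with ⟨b1, b2⟩ | ⟨b1, b2⟩ <;>
    rcases sgD_WI hM u v hd with ⟨c1, c2⟩ | ⟨c1, c2⟩ <;>
    simp [a1, a2, b1, b2, c1, c2, a2.le, b2.le, c2.le, not_lt.2 a2.le, not_lt.2 b2.le,
      not_lt.2 c2.le]

/-- Sum over a zip of two lists of the same length. -/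
private theorem zip_WI {β : Type} (f : β → ℝ) : ∀ (L M : List β), L.length = M.length →
    ((L.zip M).map (fun e => f e.2 - f e.1)).sum = (M.map f).sum - (L.map f).sum
  | [], [], _ => by simp
  | [], b :: M, h => by simp at h
  | a :: L, [], h => by simp at h
  | a :: L, b :: M, h => by
    have ih := zip_WI f L M (by simpa using h)
    simp only [List.zip_cons_cons, List.map_cons, List.sum_cons, ih]
    ring

private theorem cyc_WI {β : Type} (f : β → ℝ) (L : List β) :
    ((cyc L).map (fun e => f e.2 - f e.1)).sum = 0 := by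
  unfold cyc
  cases L with
  | nil => simp
  | cons a L =>
    rw [zip_WI]
    · simp only [List.tail_cons, List.take_succ_cons, List.take_zero, List.map_append,
        List.sum_append, List.map_cons, List.map_nil, List.sum_cons, List.sum_nil]
      ring
    · simp

/-- The second components of the cyclic edge list are first components. -/
private theorem mem_WI {β : Type} (L : List β) (e : β × β) (he : e ∈ cyc L) :
    ∃ e' ∈ cyc L, e'.1 = e.2 := by
  have h2 : e.2 ∈ L := by
    unfold cyc at he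
    have := (List.of_mem_zip (a := e.1) (b := e.2) he).2
    rcases List.mem_append.1 this with h | h
    · exact List.mem_of_mem_tail h
    · exact List.mem_of_mem_take h
  have hf : (cyc L).map Prod.fst = L := by
    unfold cyc
    apply List.map_fst_zip
    cases L with
    | nil => simp
    | cons a L => simp
  rw [← hf] at h2
  obtain ⟨e', h', h''⟩ := List.mem_map.1 h2
  exact ⟨e', h', h''⟩

theorem m_WI : StWI := by
  intro Q M β e Γ hM X hX
  unfold Cert.chkS at hX
  simp only [Bool.and_eq_true, decide_eq_true_eq, List.all_eq_true] at hX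
  obtain ⟨-, hall, hsum⟩ := hX
  have h1 : ∀ a ∈ cyc X.seam, sgI M (X.vz M a.1) ≠ 0 := fun a h => (hall a h).1
  have hd : ∀ a ∈ cyc X.seam, sgD M (X.vz M a.1) (X.vz M a.2) ≠ 0 := fun a h => (hall a h).2
  have h2 : ∀ a ∈ cyc X.seam, sgI M (X.vz M a.2) ≠ 0 := by
    intro a h
    obtain ⟨a', h', h''⟩ := mem_WI X.seam a h
    rw [← h'']
    exact h1 a' h'
  have im1 : ∀ a ∈ cyc X.seam, (X.pt M e a.1).im ≠ 0 := by
    intro a h
    rcases sgI_WI hM _ (h1 a h) with ⟨-, b⟩ | ⟨-, b⟩
    · exact b.ne'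
    · exact b.ne
  have im2 : ∀ a ∈ cyc X.seam, (X.pt M e a.2).im ≠ 0 := by
    intro a h
    rcases sgI_WI hM _ (h2 a h) with ⟨-, b⟩ | ⟨-, b⟩
    · exact b.ne'
    · exact b.ne
  have imd : ∀ a ∈ cyc X.seam, (X.pt M e a.2 / X.pt M e a.1).im ≠ 0 := by
    intro a h
    rcases sgD_WI hM _ _ (hd a h) with ⟨-, b⟩ | ⟨-, b⟩
    · exact b.ne'
    · exact b.ne
  refine ⟨?_, ?_⟩
  · intro a haa
    obtain ⟨a', h', rfl⟩ := List.mem_map.1 haa
    refine ⟨?_, ?_⟩
    · intro h0
      apply im1 a' h'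
      rw [show X.pt M e a'.1 = 0 from h0]
      rfl
    · exact Complex.mem_slitPlane_iff.2 (Or.inr (imd a' h'))
  · rw [List.map_map]
    have hcongr : (cyc X.seam).map ((fun a : ℂ × ℂ => Complex.arg (a.2 / a.1)) ∘
        (fun a : Rf × Rf => (X.pt M e a.1, X.pt M e a.2))) =
        (cyc X.seam).map (fun a => (Complex.arg (X.pt M e a.2) - Complex.arg (X.pt M e a.1)) +
          2 * Real.pi * ((crossz M (X.vz M a.1) (X.vz M a.2) : ℤ) : ℝ)) := by
      apply List.map_congr_left
      intro a h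
      simp only [Function.comp]
      rw [arg_WI _ _ (im1 a h) (im2 a h) (imd a h)]
      unfold Cert.pt
      rw [crossz_WI hM _ _ (h1 a h) (h2 a h) (hd a h)]
    rw [hcongr, List.sum_map_add, cyc_WI (fun r => Complex.arg (X.pt M e r)), zero_add,
      List.sum_map_mul_left]
    have hcast : ((cyc X.seam).map (fun a => ((crossz M (X.vz M a.1) (X.vz M a.2) : ℤ) : ℝ))).sum
        = ((((cyc X.seam).map (fun a => crossz M (X.vz M a.1) (X.vz M a.2))).sum : ℤ) : ℝ) := by
      rw [Int.cast_list_sum, List.map_map]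
      rfl
    rw [hcast, hsum]
    simp

end Pool.Agent.Helper56.FN
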