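import Pool.Agent.Helper56.FN.M_GG
import Pool.Agent.Helper56.FN.M_GP
import Pool.Agent.Helper56.FN.M_GW
import Pool.Agent.Helper56.FN.M_GT
import Pool.Agent.Helper56.FN.M_GE
import Pool.Agent.Helper56.FN.M_KES
import Pool.Agent.Helper56.FN.M_NB
import Pool.Agent.Helper56.FN.M_CH
import Pool.Agent.Helper56.FN.M_WI
import Pool.Agent.Helper56.FN.M_AT
import Pool.Agent.Helper56.FM.All

/-!
# Project FN: from a checked certificate to the kernel
-/

set_option autoImplicit false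

open Set Filter Topology Matrix
open Pool.Agent.Helper54.Wav

noncomputable section

namespace Pool.Agent.Helper56.FN

open Pool.Agent.Helper54.TRI
open Pool.Agent.Helper56.FM (Ops Sound Rf Tr trv sh1 eqr ZF eqf sides cyc cancel sgI sgD crossz sT StVL StTL)

theorem pAT : StAT :=
  m_AT m_GG (m_GP m_KP) (m_GW m_KW) (m_GT (m_KT m_FF)) (m_GE (m_KES m_FF)) m_NB m_CH m_WI
    Pool.Agent.Helper56.FM.pVL Pool.Agent.Helper56.FM.pTL

/-- The kernel of a certificate. -/
theorem kernel_of_cert {Q : Type} {M : Ops Q} {β : ℂ} {e : Q → ℂ}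
    {Γ : ℤ → ℂ → Prop} (hM : Sound M β e Γ) (X : Cert Q) (hX : X.check M = true) :
    ∃ K Λ ε R, PatC β (Γ 0) K Λ ε R := by
  obtain ⟨nb, hA⟩ := pAT Q M β e Γ hM X hX
  have hpos : ∀ c : Fin X.CS.length, Pos (X.C M e c).P := by
    intro c
    have hX' := hX
    unfold Cert.check at hX'
    simp only [Bool.and_eq_true] at hX'
    obtain ⟨hG, -, -, -⟩ := hX'
    unfold Cert.chkG at hG
    rw [List.all_eq_true] at hG
    have := hG _ (cl_mem X c)
    rw [Bool.and_eq_true] at this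
    exact (m_GG Q M β e Γ hM X _ this.1).2.1
  choose η hη using fun c => Pool.Agent.Helper56.FM.pETA _ (hpos c)
  obtain ⟨⟨Λ, ε, R, h⟩, -⟩ := Pool.Agent.Helper56.FM.pATL _ _ _ _ _ _ _ η hA hη
  exact ⟨_, Λ, ε, R, h⟩

end Pool.Agent.Helper56.FN
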