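import Pool.Agent.Helper56.FM.Cert

/-!
# Project FN (MP_d629b1_an, n = 2), part 1: certificates with signed three-clusters

As `Pool/Agent/Helper56/FM/Cert.lean` (operations `Ops`, correctness `Sound`, references `Rf`, edge forms
`ZF`), but a three-cluster `.E k t0 t1 t2` carries the number `k` of a copy with the sign `-1`
(no copy for `k = 3`).
-/

set_option autoImplicit false

noncomputable section

namespace Pool.Agent.Helper56.FN

open Pool.Agent.Helper54.TRI
open Pool.Agent.Helper56.FM (Ops Sound Rf Tr trv sh1 eqr ZF eqf sides cyc cancel sgI sgD crossz sT)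

/-- Cluster data. -/
inductive CD where
  | P (t : Tr) : CD
  | W (e : ℤ) (t0 t1 : Tr) : CD
  | T (t0 t1 t2 t3 : Tr) : CD
  | E (k : ℕ) (t0 t1 t2 : Tr) : CD

/-- Sign of the copy `a` of a three-cluster. -/
def sE (k a : ℕ) : ℤ := if a = k then -1 else 1

/-- Number of copies. -/
def CD.n : CD → ℕ
  | .P _ => 1
  | .W _ _ _ => 2
  | .T _ _ _ _ => 4
  | .E _ _ _ _ => 3

/-- Copy `a`. -/
def CD.tr : CD → ℕ → Tr
  | .P t, _ => t
  | .W _ t0 t1, a => if a = 0 then t0 else t1
  | .T t0 t1 t2 t3, a => if a = 0 then t0 else if a = 1 then t1 else if a = 2 then t2 else t3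
  | .E _ t0 t1 t2, a => if a = 0 then t0 else if a = 1 then t1 else t2

/-- A certificate: vertex table (position, label), clusters, neighbours (for each cluster, copy, side: cluster, copy, side, power), seam. -/
structure Cert (Q : Type) where
  V : List (Q × ℤ)
  CS : List CD
  NB : List (List (List (ℕ × ℕ × ℕ × ℤ)))
  seam : List Rf

namespace Cert

variable {Q : Type} (M : Ops Q) (X : Cert Q)

def vz (r : Rf) : Q := M.mul r.2 (X.V.getD r.1 (M.zero, 0)).1

def lz (r : Rf) : ℤ := (X.V.getD r.1 (M.zero, 0)).2 + (r.2 : ℤ)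

/-- Shift of the copy `a`. -/
def wz (c : CD) (a : ℕ) : Q := M.sub (X.vz M (c.tr a).1) (X.vz M (c.tr 0).1)

/-- Labels of a tetrahedral cluster. -/
def LT (c : CD) (m : Fin 4) : ℤ :=
  if m = 0 then X.lz M (c.tr 1).1 else if m = 1 then X.lz M (c.tr 0).1 else
    if m = 2 then X.lz M (c.tr 3).1 else X.lz M (c.tr 2).1

/-- Edge form of the copy `a`, side `s`. -/
def zf (c : CD) (a : ℕ) (s : Fin 3) : ZF Q :=
  match c with
  | .P t => .pure (X.lz M t.1)
  | .W e t0 t1 =>
      let i := X.lz M t0.1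
      let j := X.lz M t1.1
      let v := M.sub (X.vz M t1.1) (X.vz M t0.1)
      let b0 := decide (X.lz M (trv t0 s) = i)
      let b1 := decide (X.lz M (trv t0 (s + 1)) = i)
      if a = 0 then
        (if b0 then (if b1 then .pure i else .wall i j v e)
          else (if b1 then .wall j i v (-e) else .pure j))
      else
        (if b0 then (if b1 then .pure j else .wall j i (M.neg v) (-e))
          else (if b1 then .wall i j (M.neg v) e else .pure i))
  | .T t0 t1 t2 t3 =>
      let c : CD := .T t0 t1 t2 t3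
      let a' : Fin 4 := Fin.ofNat 4 a
      .wall (X.LT M c (inv4 s a')) (X.LT M c (inv4 (s + 1) a'))
        (M.sub (X.wz M c (inv4 (s + 2) a').val) (X.wz M c a'.val))
        (sT a' * sT (inv4 (s + 2) a') * sU (inv4 s a') a' * sU (inv4 s a') (inv4 (s + 2) a'))
  | .E k t0 t1 t2 =>
      let c : CD := .E k t0 t1 t2
      let i := X.lz M t0.1
      let j := X.lz M t0.2.1
      let a' : Fin 3 := Fin.ofNat 3 a
      if a' = s then .wall i j (M.sub (X.wz M c (s + 1).val) (X.wz M c s.val))
        (sE k s.val * sE k (s + 1).val)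
      else if a' = s + 1 then .wall j i (M.sub (X.wz M c s.val) (X.wz M c (s + 1).val))
        (-(sE k s.val * sE k (s + 1).val))
      else .pure j

/-- All copies are translates of the copy `0`, the copy `0` is positively oriented, no copy contains `0`. -/
def okG (c : CD) : Bool :=
  M.pos (X.vz M (c.tr 0).1) (X.vz M (c.tr 0).2.1) (X.vz M (c.tr 0).2.2) &&
  (List.range c.n).all fun a =>
    M.isz (M.sub (M.sub (X.vz M (c.tr a).2.1) (X.vz M (c.tr 0).2.1)) (X.wz M c a)) &&
    (M.isz (M.sub (M.sub (X.vz M (c.tr a).2.2) (X.vz M (c.tr 0).2.2)) (X.wz M c a)) &&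
    (M.pos M.zero (X.vz M (c.tr a).2.1) (X.vz M (c.tr a).1) ||
      (M.pos M.zero (X.vz M (c.tr a).2.2) (X.vz M (c.tr a).2.1) ||
      M.pos M.zero (X.vz M (c.tr a).1) (X.vz M (c.tr a).2.2))))

/-- The conditions on labels and shifts. -/
def okL (c : CD) : Bool :=
  match c with
  | .P t => decide (X.lz M t.2.1 = X.lz M t.1) && decide (X.lz M t.2.2 = X.lz M t.1)
  | .W e t0 t1 =>
      let i := X.lz M t0.1
      let j := X.lz M t1.1
      let v := M.sub (X.vz M t1.1) (X.vz M t0.1)
      decide (i ≠ j) && (decide (e * e = 1) && (M.nz v &&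
      (M.inG i v && (M.inG j v &&
      (decide ((X.lz M t0.2.1 = i ∧ X.lz M t1.2.1 = j) ∨ (X.lz M t0.2.1 = j ∧ X.lz M t1.2.1 = i)) &&
      decide ((X.lz M t0.2.2 = i ∧ X.lz M t1.2.2 = j) ∨ (X.lz M t0.2.2 = j ∧ X.lz M t1.2.2 = i)))))))
  | .T t0 t1 t2 t3 =>
      let c : CD := .T t0 t1 t2 t3
      decide (∀ a : Fin 4, ∀ s : Fin 3, X.lz M (trv (c.tr a.val) s) = X.LT M c (inv4 s a)) &&
      (decide (∀ a b : Fin 4, a ≠ b → X.LT M c a ≠ X.LT M c b ∧
        M.nz (M.sub (X.wz M c a.val) (X.wz M c b.val)) = true) &&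
      decide (∀ a b m : Fin 4, a ≠ m → b ≠ m →
        M.inG (X.LT M c m) (M.sub (X.wz M c b.val) (X.wz M c a.val)) = true))
  | .E k t0 t1 t2 =>
      let c : CD := .E k t0 t1 t2
      let i := X.lz M t0.1
      let j := X.lz M t0.2.1
      decide (i ≠ j) &&
      (decide (∀ a s : Fin 3, X.lz M (trv (c.tr a.val) s) = if a = s then i else j) &&
      (decide (∀ a b : Fin 3, a ≠ b → M.nz (M.sub (X.wz M c a.val) (X.wz M c b.val)) = true) &&
      decide (∀ a b : Fin 3, M.inG i (M.sub (X.wz M c b.val) (X.wz M c a.val)) = true ∧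
        M.inG j (M.sub (X.wz M c b.val) (X.wz M c a.val)) = true)))

/-- Neighbour record. -/
def nb (c a s : ℕ) : ℕ × ℕ × ℕ × ℤ := ((X.NB.getD c []).getD a []).getD s (0, 0, 0, 0)

def cl (c : ℕ) : CD := X.CS.getD c (.P ((0, 0), (0, 0), (0, 0)))

/-- Neighbour condition for one side. -/
def okN (c a : ℕ) (s : Fin 3) : Bool :=
  let r := X.nb c a s.val
  let c' := X.cl r.1
  let a' := r.2.1
  let s' : Fin 3 := Fin.ofNat 3 r.2.2.1
  let m := r.2.2.2
  decide (r.1 < X.CS.length) && (decide (a' < c'.n) &&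
  (eqr m (trv ((X.cl c).tr a) s) (trv (c'.tr a') (s' + 1)) &&
  (eqr m (trv ((X.cl c).tr a) (s + 1)) (trv (c'.tr a') s') &&
  eqf M m (X.zf M (X.cl c) a s) (X.zf M c' a' s'))))

def chkG : Bool := X.CS.all fun c => X.okG M c && X.okL M c

def chkN : Bool := (List.range X.CS.length).all fun c => (List.range (X.cl c).n).all fun a =>
  X.okN M c a 0 && (X.okN M c a 1 && X.okN M c a 2)

/-- All directed sides. -/
def darts : List (Rf × Rf) :=
  X.CS.flatMap fun c => (List.range c.n).flatMap fun a => sides (c.tr a)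

def chkC : Bool :=
  cancel 4000 (X.darts ++ cyc X.seam ++ (cyc X.seam).map fun e => (sh1 e.2, sh1 e.1))

def chkS : Bool :=
  decide (X.seam ≠ []) && ((cyc X.seam).all (fun e => decide (sgI M (X.vz M e.1) ≠ 0 ∧
      sgD M (X.vz M e.1) (X.vz M e.2) ≠ 0)) &&
    decide (((cyc X.seam).map (fun e => crossz M (X.vz M e.1) (X.vz M e.2))).sum = 1))

/-- The complete check. -/
def check : Bool := X.chkG M && (X.chkN M && (X.chkC && X.chkS M))

end Cert

end Pool.Agent.Helper56.FN
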