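import Pool.Agent.Helper56.FN.Data

/-!
# Project FN: the certificate is correct at the base point `v = 21/20`, `w = 109/100`, `t = 33/50`
-/

set_option autoImplicit false
set_option maxRecDepth 100000

namespace Pool.Agent.Helper56.FN

theorem xC_G : xC.chkG (ops (21 / 20) (109 / 100) (33 / 50)) = true := by decide +kernel

theorem xC_N : xC.chkN (ops (21 / 20) (109 / 100) (33 / 50)) = true := by decide +kernel

theorem xC_C : xC.chkC = true := by decide +kernel

theorem xC_S : xC.chkS (ops (21 / 20) (109 / 100) (33 / 50)) = true := by decide +kernel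

theorem xC_check : xC.check (ops (21 / 20) (109 / 100) (33 / 50)) = true := by
  unfold Cert.check
  rw [xC_G, xC_N, xC_C, xC_S]
  rfl

end Pool.Agent.Helper56.FN
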