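import Pool.Agent.Helper56.FN.Fml

/-!
# Project FN: the certificate (data)
-/

set_option autoImplicit false

namespace Pool.Agent.Helper56.FN

/-- Clusters. -/
def xCS : List CD := [
  .T ((130, 0), (144, 0), (136, 0)) ((129, 0), (142, 0), (61, 1)) ((1, 3), (143, 0), (135, 0)) ((131, 0), (145, 0), (137, 0)),
  .T ((127, 0), (140, 0), (133, 0)) ((126, 0), (138, 0), (60, 1)) ((0, 3), (139, 0), (132, 0)) ((128, 0), (141, 0), (134, 0)),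
  .E 3 ((111, 0), (123, 0), (117, 0)) ((113, 0), (125, 0), (119, 0)) ((112, 0), (124, 0), (118, 0)),
  .E 3 ((108, 0), (120, 0), (114, 0)) ((110, 0), (122, 0), (116, 0)) ((109, 0), (121, 0), (115, 0)),
  .E 3 ((35, 0), (53, 0), (5, 1)) ((34, 0), (52, 0), (23, 0)) ((33, 0), (51, 0), (4, 1)),
  .E 3 ((32, 0), (50, 0), (3, 1)) ((31, 0), (49, 0), (22, 0)) ((30, 0), (48, 0), (2, 1)),
  .E 2 ((105, 0), (99, 0), (93, 0)) ((106, 0), (100, 0), (94, 0)) ((107, 0), (101, 0), (95, 0)),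
  .E 2 ((102, 0), (96, 0), (90, 0)) ((103, 0), (97, 0), (91, 0)) ((104, 0), (98, 0), (92, 0)),
  .E 3 ((40, 0), (58, 0), (28, 0)) ((41, 0), (59, 0), (29, 0)) ((39, 0), (57, 0), (27, 0)),
  .E 3 ((37, 0), (55, 0), (25, 0)) ((38, 0), (56, 0), (26, 0)) ((36, 0), (54, 0), (24, 0)),
  .E 0 ((19, 0), (45, 0), (13, 0)) ((20, 0), (46, 0), (14, 0)) ((21, 0), (47, 0), (15, 0)),
  .E 0 ((16, 0), (42, 0), (10, 0)) ((17, 0), (43, 0), (11, 0)) ((18, 0), (44, 0), (12, 0)),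
  .W (-1) ((144, 0), (130, 0), (75, 1)) ((143, 0), (1, 3), (7, 2)),
  .W (-1) ((144, 0), (75, 1), (73, 1)) ((143, 0), (7, 2), (72, 1)),
  .W (-1) ((140, 0), (127, 0), (74, 1)) ((139, 0), (0, 3), (6, 2)),
  .W (-1) ((140, 0), (74, 1), (71, 1)) ((139, 0), (6, 2), (70, 1)),
  .W (-1) ((73, 0), (75, 0), (59, 0)) ((72, 0), (7, 1), (58, 0)),
  .W (-1) ((73, 0), (59, 0), (41, 0)) ((72, 0), (58, 0), (40, 0)),
  .W (-1) ((71, 0), (74, 0), (56, 0)) ((70, 0), (6, 1), (55, 0)),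
  .W (-1) ((71, 0), (56, 0), (38, 0)) ((70, 0), (55, 0), (37, 0)),
  .W (-1) ((29, 0), (59, 0), (145, 0)) ((27, 0), (57, 0), (142, 0)),
  .W (-1) ((29, 0), (145, 0), (131, 0)) ((27, 0), (142, 0), (129, 0)),
  .W (-1) ((26, 0), (56, 0), (141, 0)) ((24, 0), (54, 0), (138, 0)),
  .W (-1) ((26, 0), (141, 0), (128, 0)) ((24, 0), (138, 0), (126, 0)),
  .W (1) ((40, 0), (28, 0), (69, 0)) ((39, 0), (27, 0), (68, 0)),
  .W (1) ((40, 0), (69, 0), (65, 0)) ((39, 0), (68, 0), (64, 0)),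
  .W (1) ((37, 0), (25, 0), (67, 0)) ((36, 0), (24, 0), (66, 0)),
  .W (1) ((37, 0), (67, 0), (63, 0)) ((36, 0), (66, 0), (62, 0)),
  .W (1) ((65, 0), (69, 0), (46, 0)) ((64, 0), (68, 0), (45, 0)),
  .W (1) ((65, 0), (46, 0), (20, 0)) ((64, 0), (45, 0), (19, 0)),
  .W (1) ((63, 0), (67, 0), (43, 0)) ((62, 0), (66, 0), (42, 0)),
  .W (1) ((63, 0), (43, 0), (17, 0)) ((62, 0), (42, 0), (16, 0)),
  .W (-1) ((14, 0), (46, 0), (12, 0)) ((15, 0), (47, 0), (11, 0)),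
  .W (-1) ((14, 0), (12, 0), (44, 0)) ((15, 0), (11, 0), (43, 0)),
  .W (-1) ((19, 0), (13, 0), (12, 0)) ((21, 0), (15, 0), (10, 0)),
  .W (1) ((13, 0), (18, 0), (12, 0)) ((15, 0), (16, 0), (10, 0)),
  .W (1) ((136, 0), (144, 0), (35, 1)) ((61, 1), (142, 0), (34, 1)),
  .W (-1) ((144, 0), (53, 1), (35, 1)) ((142, 0), (52, 1), (34, 1)),
  .W (1) ((133, 0), (140, 0), (32, 1)) ((60, 1), (138, 0), (31, 1)),
  .W (-1) ((140, 0), (50, 1), (32, 1)) ((138, 0), (49, 1), (31, 1)),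
  .W (1) ((4, 1), (51, 0), (9, 1)) ((23, 0), (52, 0), (77, 0)),
  .W (-1) ((51, 0), (85, 0), (9, 1)) ((52, 0), (84, 0), (77, 0)),
  .W (1) ((2, 1), (48, 0), (8, 1)) ((22, 0), (49, 0), (76, 0)),
  .W (-1) ((48, 0), (83, 0), (8, 1)) ((49, 0), (82, 0), (76, 0)),
  .W (1) ((9, 1), (85, 0), (89, 0)) ((77, 0), (84, 0), (88, 0)),
  .W (1) ((9, 1), (89, 0), (81, 0)) ((77, 0), (88, 0), (80, 0)),
  .W (1) ((8, 1), (83, 0), (87, 0)) ((76, 0), (82, 0), (86, 0)),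
  .W (1) ((8, 1), (87, 0), (79, 0)) ((76, 0), (86, 0), (78, 0)),
  .W (1) ((81, 0), (89, 0), (131, 0)) ((80, 0), (88, 0), (130, 0)),
  .W (1) ((81, 0), (131, 0), (137, 0)) ((80, 0), (130, 0), (136, 0)),
  .W (1) ((79, 0), (87, 0), (128, 0)) ((78, 0), (86, 0), (127, 0)),
  .W (1) ((79, 0), (128, 0), (134, 0)) ((78, 0), (127, 0), (133, 0)),
  .W (1) ((35, 0), (5, 1), (102, 1)) ((33, 0), (4, 1), (103, 1)),
  .W (-1) ((5, 0), (96, 0), (102, 0)) ((4, 0), (97, 0), (103, 0)),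
  .W (1) ((32, 0), (3, 1), (105, 1)) ((30, 0), (2, 1), (106, 1)),
  .W (-1) ((3, 0), (99, 0), (105, 0)) ((2, 0), (100, 0), (106, 0)),
  .W (-1) ((129, 0), (61, 1), (132, 0)) ((1, 3), (135, 0), (60, 1)),
  .W (1) ((61, 1), (0, 3), (132, 0)) ((135, 0), (126, 0), (60, 1)),
  .W (-1) ((135, 0), (143, 0), (111, 0)) ((137, 0), (145, 0), (112, 0)),
  .W (-1) ((135, 0), (111, 0), (117, 0)) ((137, 0), (112, 0), (118, 0)),
  .W (-1) ((132, 0), (139, 0), (108, 0)) ((134, 0), (141, 0), (109, 0)),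
  .W (-1) ((132, 0), (108, 0), (114, 0)) ((134, 0), (109, 0), (115, 0)),
  .W (-1) ((123, 0), (111, 0), (122, 0)) ((125, 0), (113, 0), (120, 0)),
  .W (-1) ((123, 0), (122, 0), (110, 0)) ((125, 0), (120, 0), (108, 0)),
  .W (1) ((118, 0), (124, 0), (93, 0)) ((119, 0), (125, 0), (95, 0)),
  .W (-1) ((124, 0), (105, 0), (93, 0)) ((125, 0), (107, 0), (95, 0)),
  .W (1) ((115, 0), (121, 0), (90, 0)) ((116, 0), (122, 0), (92, 0)),
  .W (-1) ((121, 0), (102, 0), (90, 0)) ((122, 0), (104, 0), (92, 0)),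
  .W (1) ((94, 0), (100, 0), (92, 0)) ((95, 0), (101, 0), (91, 0)),
  .W (1) ((94, 0), (92, 0), (98, 0)) ((95, 0), (91, 0), (97, 0)),
  .P ((117, 0), (123, 0), (135, 0)),
  .P ((123, 0), (110, 0), (135, 0)),
  .P ((110, 0), (21, 0), (135, 0)),
  .P ((110, 0), (47, 0), (21, 0)),
  .P ((110, 0), (92, 0), (47, 0)),
  .P ((110, 0), (116, 0), (92, 0)),
  .P ((92, 0), (100, 0), (47, 0)),
  .P ((100, 0), (2, 0), (47, 0)),
  .P ((2, 0), (11, 0), (47, 0)),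
  .P ((2, 0), (8, 0), (11, 0)),
  .P ((8, 0), (17, 0), (11, 0)),
  .P ((8, 1), (101, 0), (17, 1)),
  .P ((8, 1), (91, 0), (101, 0)),
  .P ((8, 1), (79, 0), (91, 0)),
  .P ((79, 0), (90, 0), (91, 0)),
  .P ((79, 0), (134, 0), (90, 0)),
  .P ((134, 0), (115, 0), (90, 0)),
  .P ((90, 0), (96, 0), (91, 0)),
  .P ((96, 0), (103, 0), (91, 0)),
  .P ((96, 0), (5, 0), (103, 0)),
  .P ((5, 1), (33, 0), (103, 1)),
  .P ((5, 1), (51, 0), (33, 0)),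
  .P ((5, 1), (53, 0), (51, 0)),
  .P ((53, 0), (85, 0), (51, 0)),
  .P ((53, 0), (73, 0), (85, 0)),
  .P ((53, 1), (144, 0), (73, 1)),
  .P ((73, 0), (41, 0), (85, 0)),
  .P ((41, 0), (89, 0), (85, 0)),
  .P ((41, 0), (29, 0), (89, 0)),
  .P ((29, 0), (131, 0), (89, 0)),
  .P ((101, 0), (107, 0), (17, 1)),
  .P ((107, 0), (63, 1), (17, 1)),
  .P ((107, 0), (125, 0), (63, 1)),
  .P ((125, 0), (70, 1), (63, 1)),
  .P ((125, 0), (108, 0), (70, 1)),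
  .P ((108, 0), (139, 0), (70, 1)),
  .P ((70, 0), (37, 0), (63, 0)),
  .P ((21, 0), (126, 0), (135, 0)),
  .P ((21, 0), (10, 0), (126, 0)),
  .P ((10, 0), (42, 0), (126, 0)),
  .P ((42, 0), (66, 0), (126, 0)),
  .P ((66, 0), (24, 0), (126, 0)),
  .P ((114, 0), (120, 0), (132, 0)),
  .P ((120, 0), (113, 0), (132, 0)),
  .P ((113, 0), (18, 0), (132, 0)),
  .P ((113, 0), (44, 0), (18, 0)),
  .P ((113, 0), (95, 0), (44, 0)),
  .P ((113, 0), (119, 0), (95, 0)),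
  .P ((95, 0), (97, 0), (44, 0)),
  .P ((97, 0), (4, 0), (44, 0)),
  .P ((4, 0), (14, 0), (44, 0)),
  .P ((4, 0), (9, 0), (14, 0)),
  .P ((9, 0), (20, 0), (14, 0)),
  .P ((9, 1), (98, 0), (20, 1)),
  .P ((9, 1), (94, 0), (98, 0)),
  .P ((9, 1), (81, 0), (94, 0)),
  .P ((81, 0), (93, 0), (94, 0)),
  .P ((81, 0), (137, 0), (93, 0)),
  .P ((137, 0), (118, 0), (93, 0)),
  .P ((93, 0), (99, 0), (94, 0)),
  .P ((99, 0), (106, 0), (94, 0)),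
  .P ((99, 0), (3, 0), (106, 0)),
  .P ((3, 1), (30, 0), (106, 1)),
  .P ((3, 1), (48, 0), (30, 0)),
  .P ((3, 1), (50, 0), (48, 0)),
  .P ((50, 0), (83, 0), (48, 0)),
  .P ((50, 0), (71, 0), (83, 0)),
  .P ((50, 1), (140, 0), (71, 1)),
  .P ((71, 0), (38, 0), (83, 0)),
  .P ((38, 0), (87, 0), (83, 0)),
  .P ((38, 0), (26, 0), (87, 0)),
  .P ((26, 0), (128, 0), (87, 0)),
  .P ((98, 0), (104, 0), (20, 1)),
  .P ((104, 0), (65, 1), (20, 1)),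
  .P ((104, 0), (122, 0), (65, 1)),
  .P ((122, 0), (72, 1), (65, 1)),
  .P ((122, 0), (111, 0), (72, 1)),
  .P ((111, 0), (143, 0), (72, 1)),
  .P ((72, 0), (40, 0), (65, 0)),
  .P ((18, 0), (129, 0), (132, 0)),
  .P ((18, 0), (13, 0), (129, 0)),
  .P ((13, 0), (45, 0), (129, 0)),
  .P ((45, 0), (68, 0), (129, 0)),
  .P ((68, 0), (27, 0), (129, 0)),
  .P ((124, 2), (76, 0), (105, 2)),
  .P ((124, 2), (22, 0), (76, 0)),
  .P ((124, 2), (60, 0), (22, 0)),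
  .P ((124, 2), (1, 2), (60, 0)),
  .P ((124, 0), (112, 0), (1, 0)),
  .P ((112, 0), (145, 0), (1, 0)),
  .P ((145, 0), (59, 0), (1, 0)),
  .P ((59, 0), (75, 0), (1, 0)),
  .P ((75, 1), (7, 0), (1, 1)),
  .P ((75, 1), (84, 0), (7, 0)),
  .P ((75, 1), (88, 0), (84, 0)),
  .P ((75, 1), (130, 0), (88, 0)),
  .P ((84, 0), (52, 0), (7, 0)),
  .P ((52, 1), (57, 0), (7, 1)),
  .P ((52, 1), (142, 0), (57, 0)),
  .P ((57, 0), (39, 0), (7, 1)),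
  .P ((39, 0), (58, 0), (7, 1)),
  .P ((39, 0), (28, 0), (58, 0)),
  .P ((39, 0), (64, 0), (28, 0)),
  .P ((64, 0), (69, 0), (28, 0)),
  .P ((64, 0), (19, 0), (69, 0)),
  .P ((19, 0), (46, 0), (69, 0)),
  .P ((19, 0), (12, 0), (46, 0)),
  .P ((60, 0), (31, 0), (22, 0)),
  .P ((76, 0), (78, 0), (105, 2)),
  .P ((78, 0), (32, 1), (105, 2)),
  .P ((78, 0), (133, 0), (32, 1)),
  .P ((121, 2), (77, 0), (102, 2)),
  .P ((121, 2), (23, 0), (77, 0)),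
  .P ((121, 2), (61, 0), (23, 0)),
  .P ((121, 2), (0, 2), (61, 0)),
  .P ((121, 0), (109, 0), (0, 0)),
  .P ((109, 0), (141, 0), (0, 0)),
  .P ((141, 0), (56, 0), (0, 0)),
  .P ((56, 0), (74, 0), (0, 0)),
  .P ((74, 1), (6, 0), (0, 1)),
  .P ((74, 1), (82, 0), (6, 0)),
  .P ((74, 1), (86, 0), (82, 0)),
  .P ((74, 1), (127, 0), (86, 0)),
  .P ((82, 0), (49, 0), (6, 0)),
  .P ((49, 1), (54, 0), (6, 1)),
  .P ((49, 1), (138, 0), (54, 0)),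
  .P ((54, 0), (36, 0), (6, 1)),
  .P ((36, 0), (55, 0), (6, 1)),
  .P ((36, 0), (25, 0), (55, 0)),
  .P ((36, 0), (62, 0), (25, 0)),
  .P ((62, 0), (67, 0), (25, 0)),
  .P ((62, 0), (16, 0), (67, 0)),
  .P ((16, 0), (43, 0), (67, 0)),
  .P ((16, 0), (15, 0), (43, 0)),
  .P ((61, 0), (34, 0), (23, 0)),
  .P ((77, 0), (80, 0), (102, 2)),
  .P ((80, 0), (35, 1), (102, 2)),
  .P ((80, 0), (136, 0), (35, 1))]

/-- Seam. -/
def xS : List Pool.Agent.Helper56.FM.Rf := [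
  (53, 0), (35, 0), (102, 1), (121, 1), (0, 1), (6, 0), (49, 0), (31, 0),
  (60, 0), (1, 2), (7, 1), (72, 0), (65, 0), (20, 0), (9, 0), (4, 0),
  (103, 0), (5, 0), (102, 0), (121, 0), (0, 0), (74, 0), (71, 0), (50, 0),
  (32, 0), (105, 1), (124, 1), (1, 1), (7, 0), (52, 0), (34, 0), (61, 0),
  (0, 2), (6, 1), (70, 0), (63, 0), (17, 0), (8, 0), (2, 0), (106, 0),
  (3, 0), (105, 0), (124, 0), (1, 0), (75, 0), (73, 0)]

end Pool.Agent.Helper56.FN
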