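import Pool.Agent.Helper56.FN.Fml

/-!
# Project FN: the certificate (data)
-/

set_option autoImplicit false

namespace Pool.Agent.Helper56.FN

/-- Neighbours. -/
def xNB : List (List (List (ℕ × ℕ × ℕ × ℤ))) := [
  [[(12, 0, 0, 0), (36, 0, 0, 0), (49, 1, 1, 0)], [(21, 1, 1, 0), (36, 1, 0, 0), (56, 0, 0, 0)], [(12, 1, 0, 0), (58, 0, 0, 0), (56, 1, 0, 0)], [(21, 0, 1, 0), (58, 1, 0, 0), (49, 0, 1, 0)]],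
  [[(14, 0, 0, 0), (38, 0, 0, 0), (51, 1, 1, 0)], [(23, 1, 1, 0), (38, 1, 0, 0), (57, 1, 1, 0)], [(14, 1, 0, 0), (60, 0, 0, 0), (57, 0, 1, 0)], [(23, 0, 1, 0), (60, 1, 0, 0), (51, 0, 1, 0)]],
  [[(62, 0, 0, 0), (70, 0, 0, 0), (59, 0, 1, 0)], [(62, 1, 0, 0), (64, 1, 0, 0), (117, 0, 0, 0)], [(158, 0, 0, 0), (64, 0, 0, 0), (59, 1, 1, 0)]],
  [[(63, 1, 1, 0), (112, 0, 0, 0), (61, 0, 1, 0)], [(63, 0, 1, 0), (66, 1, 0, 0), (75, 0, 0, 0)], [(185, 0, 0, 0), (66, 0, 0, 0), (61, 1, 1, 0)]],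
  [[(37, 0, 1, -1), (92, 0, 0, 0), (52, 0, 0, 0)], [(37, 1, 1, -1), (40, 1, 0, 0), (204, 0, 1, 0)], [(91, 0, 1, 0), (40, 0, 0, 0), (52, 1, 0, 0)]],
  [[(39, 0, 1, -1), (134, 0, 0, 0), (54, 0, 0, 0)], [(39, 1, 1, -1), (42, 1, 0, 0), (177, 0, 1, 0)], [(133, 0, 1, 0), (42, 0, 0, 0), (54, 1, 0, 0)]],
  [[(55, 0, 1, 0), (129, 0, 0, 0), (65, 0, 1, 0)], [(55, 1, 1, 0), (68, 0, 0, 0), (130, 0, 1, 0)], [(100, 0, 0, 0), (68, 1, 0, 0), (65, 1, 1, 0)]],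
  [[(53, 0, 1, 0), (87, 0, 0, 0), (67, 0, 1, 0)], [(53, 1, 1, 0), (69, 1, 1, 0), (88, 0, 1, 0)], [(142, 0, 0, 0), (69, 0, 1, 0), (67, 1, 1, 0)]],
  [[(17, 1, 1, 0), (171, 0, 1, 0), (24, 0, 0, 0)], [(17, 0, 1, 0), (20, 0, 0, 0), (98, 0, 0, 0)], [(169, 0, 0, 0), (20, 1, 0, 0), (24, 1, 0, 0)]],
  [[(19, 1, 1, 0), (198, 0, 1, 0), (26, 0, 0, 0)], [(19, 0, 1, 0), (22, 0, 0, 0), (140, 0, 0, 0)], [(196, 0, 0, 0), (22, 1, 0, 0), (26, 1, 0, 0)]],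
  [[(29, 1, 1, 0), (151, 0, 0, 0), (34, 0, 0, 0)], [(29, 0, 1, 0), (32, 0, 0, 0), (122, 0, 1, 0)], [(73, 0, 1, 0), (32, 1, 0, 0), (34, 1, 0, 0)]],
  [[(31, 1, 1, 0), (109, 0, 0, 0), (35, 1, 1, 0)], [(31, 0, 1, 0), (33, 1, 1, 0), (80, 0, 1, 0)], [(115, 0, 1, 0), (33, 0, 1, 0), (35, 0, 1, 0)]],
  [[(0, 0, 0, 0), (165, 0, 0, 0), (13, 0, 0, 0)], [(0, 2, 0, 0), (162, 0, 1, 2), (13, 1, 0, 0)]],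
  [[(12, 0, 2, 0), (16, 0, 0, 1), (95, 0, 1, 0)], [(12, 1, 2, 0), (16, 1, 0, 1), (147, 0, 1, 0)]],
  [[(1, 0, 0, 0), (192, 0, 0, 0), (15, 0, 0, 0)], [(1, 2, 0, 0), (189, 0, 1, 2), (15, 1, 0, 0)]],
  [[(14, 0, 2, 0), (18, 0, 0, 1), (137, 0, 1, 0)], [(14, 1, 2, 0), (18, 1, 0, 1), (105, 0, 1, 0)]],
  [[(13, 0, 1, -1), (161, 0, 0, 0), (17, 0, 0, 0)], [(13, 1, 1, -1), (170, 0, 1, 0), (17, 1, 0, 0)]],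
  [[(16, 0, 2, 0), (8, 1, 0, 0), (96, 0, 0, 0)], [(16, 1, 2, 0), (8, 0, 0, 0), (148, 0, 0, 0)]],
  [[(15, 0, 1, -1), (188, 0, 0, 0), (19, 0, 0, 0)], [(15, 1, 1, -1), (197, 0, 1, 0), (19, 1, 0, 0)]],
  [[(18, 0, 2, 0), (9, 1, 0, 0), (138, 0, 0, 0)], [(18, 1, 2, 0), (9, 0, 0, 0), (106, 0, 0, 0)]],
  [[(8, 1, 1, 0), (160, 0, 0, 0), (21, 0, 0, 0)], [(8, 2, 1, 0), (168, 0, 1, 0), (21, 1, 0, 0)]],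
  [[(20, 0, 2, 0), (0, 3, 0, 0), (99, 0, 0, 0)], [(20, 1, 2, 0), (0, 1, 0, 0), (153, 0, 1, 0)]],
  [[(9, 1, 1, 0), (187, 0, 0, 0), (23, 0, 0, 0)], [(9, 2, 1, 0), (195, 0, 1, 0), (23, 1, 0, 0)]],
  [[(22, 0, 2, 0), (1, 3, 0, 0), (141, 0, 0, 0)], [(22, 1, 2, 0), (1, 1, 0, 0), (111, 0, 1, 0)]],
  [[(8, 0, 2, 0), (173, 0, 1, 0), (25, 0, 0, 0)], [(8, 2, 2, 0), (153, 0, 0, 0), (25, 1, 0, 0)]],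
  [[(24, 0, 2, 0), (28, 0, 0, 0), (148, 0, 1, 0)], [(24, 1, 2, 0), (28, 1, 0, 0), (172, 0, 0, 0)]],
  [[(9, 0, 2, 0), (200, 0, 1, 0), (27, 0, 0, 0)], [(9, 2, 2, 0), (111, 0, 0, 0), (27, 1, 0, 0)]],
  [[(26, 0, 2, 0), (30, 0, 0, 0), (106, 0, 1, 0)], [(26, 1, 2, 0), (30, 1, 0, 0), (199, 0, 0, 0)]],
  [[(25, 0, 1, 0), (175, 0, 1, 0), (29, 0, 0, 0)], [(25, 1, 1, 0), (152, 0, 0, 0), (29, 1, 0, 0)]],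
  [[(28, 0, 2, 0), (10, 1, 0, 0), (143, 0, 1, -1)], [(28, 1, 2, 0), (10, 0, 0, 0), (174, 0, 0, 0)]],
  [[(27, 0, 1, 0), (202, 0, 1, 0), (31, 0, 0, 0)], [(27, 1, 1, 0), (110, 0, 0, 0), (31, 1, 0, 0)]],
  [[(30, 0, 2, 0), (11, 1, 0, 0), (101, 0, 1, -1)], [(30, 1, 2, 0), (11, 0, 0, 0), (201, 0, 0, 0)]],
  [[(10, 1, 1, 0), (176, 0, 1, 0), (33, 0, 0, 0)], [(10, 2, 1, 0), (78, 0, 1, 0), (33, 1, 0, 0)]],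
  [[(32, 0, 2, 0), (11, 2, 1, 0), (120, 0, 1, 0)], [(32, 1, 2, 0), (11, 1, 1, 0), (203, 0, 1, 0)]],
  [[(10, 0, 2, 0), (35, 0, 2, 0), (176, 0, 0, 0)], [(10, 2, 2, 0), (35, 1, 2, 0), (108, 0, 0, 0)]],
  [[(150, 0, 0, 0), (11, 2, 2, 0), (34, 0, 1, 0)], [(203, 0, 0, 0), (11, 0, 2, 0), (34, 1, 1, 0)]],
  [[(0, 0, 1, 0), (37, 0, 2, 0), (207, 0, 1, 0)], [(0, 1, 1, 0), (37, 1, 2, 0), (204, 0, 0, 1)]],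
  [[(95, 0, 0, 0), (4, 0, 0, 1), (36, 0, 1, 0)], [(168, 0, 0, 0), (4, 1, 0, 1), (36, 1, 1, 0)]],
  [[(1, 0, 1, 0), (39, 0, 2, 0), (180, 0, 1, 0)], [(1, 1, 1, 0), (39, 1, 2, 0), (177, 0, 0, 1)]],
  [[(137, 0, 0, 0), (5, 0, 0, 1), (38, 0, 1, 0)], [(195, 0, 0, 0), (5, 1, 0, 1), (38, 1, 1, 0)]],
  [[(4, 2, 1, 0), (41, 0, 2, 0), (121, 0, 0, 1)], [(4, 1, 1, 0), (41, 1, 2, 0), (182, 0, 1, 0)]],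
  [[(93, 0, 1, 0), (44, 0, 0, 0), (40, 0, 1, 0)], [(166, 0, 0, 0), (44, 1, 0, 0), (40, 1, 1, 0)]],
  [[(5, 2, 1, 0), (43, 0, 2, 0), (79, 0, 0, 1)], [(5, 1, 1, 0), (43, 1, 2, 0), (155, 0, 1, 0)]],
  [[(135, 0, 1, 0), (46, 0, 0, 0), (42, 0, 1, 0)], [(193, 0, 0, 0), (46, 1, 0, 0), (42, 1, 1, 0)]],
  [[(41, 0, 1, 0), (97, 0, 1, 0), (45, 0, 0, 0)], [(41, 1, 1, 0), (164, 0, 1, 0), (45, 1, 0, 0)]],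
  [[(44, 0, 2, 0), (48, 0, 0, 0), (125, 0, 0, 0)], [(44, 1, 2, 0), (48, 1, 0, 0), (205, 0, 0, 0)]],
  [[(43, 0, 1, 0), (139, 0, 1, 0), (47, 0, 0, 0)], [(43, 1, 1, 0), (191, 0, 1, 0), (47, 1, 0, 0)]],
  [[(46, 0, 2, 0), (50, 0, 0, 0), (83, 0, 0, 0)], [(46, 1, 2, 0), (50, 1, 0, 0), (178, 0, 0, 0)]],
  [[(45, 0, 1, 0), (99, 0, 1, 0), (49, 0, 0, 0)], [(45, 1, 1, 0), (165, 0, 1, 0), (49, 1, 0, 0)]],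
  [[(48, 0, 2, 0), (0, 3, 2, 0), (127, 0, 0, 0)], [(48, 1, 2, 0), (0, 0, 2, 0), (207, 0, 0, 0)]],
  [[(47, 0, 1, 0), (141, 0, 1, 0), (51, 0, 0, 0)], [(47, 1, 1, 0), (192, 0, 1, 0), (51, 1, 0, 0)]],
  [[(50, 0, 2, 0), (1, 3, 2, 0), (85, 0, 0, 0)], [(50, 1, 2, 0), (1, 0, 2, 0), (180, 0, 0, 0)]],
  [[(4, 0, 2, 0), (53, 0, 2, 1), (206, 0, 1, -1)], [(4, 2, 2, 0), (53, 1, 2, 1), (90, 0, 1, 0)]],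
  [[(89, 0, 0, 0), (7, 0, 0, 0), (52, 0, 1, -1)], [(119, 0, 0, 0), (7, 1, 0, 0), (52, 1, 1, -1)]],
  [[(5, 0, 2, 0), (55, 0, 2, 1), (179, 0, 1, -1)], [(5, 2, 2, 0), (55, 1, 2, 1), (132, 0, 1, 0)]],
  [[(131, 0, 0, 0), (6, 0, 0, 0), (54, 0, 1, -1)], [(77, 0, 0, 0), (6, 1, 0, 0), (54, 1, 1, -1)]],
  [[(0, 1, 2, 0), (57, 0, 2, 0), (149, 0, 1, 0)], [(0, 2, 2, 0), (57, 1, 2, 0), (157, 0, 1, 1)]],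
  [[(184, 0, 1, 1), (1, 2, 2, 0), (56, 0, 1, 0)], [(107, 0, 1, 0), (1, 1, 2, 0), (56, 1, 1, 0)]],
  [[(0, 2, 1, 0), (147, 0, 0, 0), (59, 0, 0, 0)], [(0, 3, 1, 0), (159, 0, 0, 0), (59, 1, 0, 0)]],
  [[(58, 0, 2, 0), (2, 0, 2, 0), (70, 0, 2, 0)], [(58, 1, 2, 0), (2, 2, 2, 0), (128, 0, 0, 0)]],
  [[(1, 2, 1, 0), (105, 0, 0, 0), (61, 0, 0, 0)], [(1, 3, 1, 0), (186, 0, 0, 0), (61, 1, 0, 0)]],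
  [[(60, 0, 2, 0), (3, 0, 2, 0), (112, 0, 2, 0)], [(60, 1, 2, 0), (3, 2, 2, 0), (86, 0, 0, 0)]],
  [[(2, 0, 0, 0), (146, 0, 0, 0), (63, 0, 0, 0)], [(2, 1, 0, 0), (113, 0, 0, 0), (63, 1, 0, 0)]],
  [[(62, 0, 2, 0), (3, 1, 0, 0), (71, 0, 0, 0)], [(62, 1, 2, 0), (3, 0, 0, 0), (104, 0, 0, 0)]],
  [[(2, 2, 1, 0), (65, 0, 2, 0), (128, 0, 1, 0)], [(2, 1, 1, 0), (65, 1, 2, 0), (117, 0, 1, 0)]],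
  [[(154, 0, 2, -2), (6, 0, 2, 0), (64, 0, 1, 0)], [(102, 0, 0, 0), (6, 2, 2, 0), (64, 1, 1, 0)]],
  [[(3, 2, 1, 0), (67, 0, 2, 0), (86, 0, 1, 0)], [(3, 1, 1, 0), (67, 1, 2, 0), (75, 0, 1, 0)]],
  [[(181, 0, 2, -2), (7, 0, 2, 0), (66, 0, 1, 0)], [(144, 0, 0, 0), (7, 2, 2, 0), (66, 1, 1, 0)]],
  [[(6, 1, 1, 0), (76, 0, 0, 0), (69, 0, 0, 0)], [(6, 2, 1, 0), (82, 0, 1, 0), (69, 1, 0, 0)]],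
  [[(68, 0, 2, 0), (7, 2, 1, 0), (124, 0, 1, 0)], [(68, 1, 2, 0), (7, 1, 1, 0), (118, 0, 0, 0)]],
  [[(2, 0, 1, 0), (71, 0, 2, 0), (59, 0, 2, 0)]],
  [[(63, 0, 2, 0), (72, 0, 2, 0), (70, 0, 1, 0)]],
  [[(73, 0, 2, 0), (107, 0, 2, 0), (71, 0, 1, 0)]],
  [[(74, 0, 2, 0), (10, 2, 0, 0), (72, 0, 0, 0)]],
  [[(75, 0, 2, 0), (76, 0, 2, 0), (73, 0, 0, 0)]],
  [[(3, 1, 2, 0), (66, 1, 2, 0), (74, 0, 0, 0)]],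
  [[(68, 0, 1, 0), (77, 0, 2, 0), (74, 0, 1, 0)]],
  [[(55, 1, 0, 0), (78, 0, 2, 0), (76, 0, 1, 0)]],
  [[(79, 0, 2, 0), (32, 1, 1, 0), (77, 0, 1, 0)]],
  [[(42, 0, 2, -1), (80, 0, 2, 0), (78, 0, 0, 0)]],
  [[(81, 0, 2, -1), (11, 1, 2, 0), (79, 0, 1, 0)]],
  [[(82, 0, 2, 0), (100, 0, 2, 0), (80, 0, 0, 1)]],
  [[(83, 0, 2, 0), (68, 1, 1, 0), (81, 0, 0, 0)]],
  [[(47, 0, 2, 0), (84, 0, 2, 0), (82, 0, 0, 0)]],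
  [[(85, 0, 2, 0), (87, 0, 2, 0), (83, 0, 1, 0)]],
  [[(51, 0, 2, 0), (86, 0, 2, 0), (84, 0, 0, 0)]],
  [[(61, 1, 2, 0), (66, 0, 2, 0), (85, 0, 1, 0)]],
  [[(7, 0, 1, 0), (88, 0, 2, 0), (84, 0, 1, 0)]],
  [[(89, 0, 2, 0), (7, 1, 2, 0), (87, 0, 1, 0)]],
  [[(53, 0, 0, 0), (90, 0, 2, -1), (88, 0, 0, 0)]],
  [[(91, 0, 2, 0), (52, 1, 2, 0), (89, 0, 1, 1)]],
  [[(92, 0, 2, 0), (4, 2, 0, 0), (90, 0, 0, 0)]],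
  [[(4, 0, 1, 0), (93, 0, 2, 0), (91, 0, 0, 0)]],
  [[(94, 0, 2, 0), (41, 0, 0, 0), (92, 0, 1, 0)]],
  [[(95, 0, 2, -1), (96, 0, 2, 0), (93, 0, 0, 0)]],
  [[(37, 0, 0, 0), (13, 0, 2, 0), (94, 0, 0, 1)]],
  [[(17, 0, 2, 0), (97, 0, 2, 0), (94, 0, 1, 0)]],
  [[(98, 0, 2, 0), (44, 0, 1, 0), (96, 0, 1, 0)]],
  [[(8, 1, 2, 0), (99, 0, 2, 0), (97, 0, 0, 0)]],
  [[(21, 0, 2, 0), (48, 0, 1, 0), (98, 0, 1, 0)]],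
  [[(6, 2, 0, 0), (101, 0, 2, 0), (81, 0, 1, 0)]],
  [[(102, 0, 2, 0), (31, 0, 2, 1), (100, 0, 1, 0)]],
  [[(65, 1, 0, 0), (103, 0, 2, 0), (101, 0, 0, 0)]],
  [[(104, 0, 2, 0), (106, 0, 2, 1), (102, 0, 1, 0)]],
  [[(63, 1, 2, 0), (105, 0, 2, 0), (103, 0, 0, 0)]],
  [[(60, 0, 1, 0), (15, 1, 2, 0), (104, 0, 1, 0)]],
  [[(19, 1, 2, 0), (27, 0, 2, 0), (103, 0, 1, -1)]],
  [[(108, 0, 2, 0), (57, 1, 0, 0), (72, 0, 1, 0)]],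
  [[(34, 1, 2, 0), (109, 0, 2, 0), (107, 0, 0, 0)]],
  [[(11, 0, 1, 0), (110, 0, 2, 0), (108, 0, 1, 0)]],
  [[(30, 1, 1, 0), (111, 0, 2, 0), (109, 0, 1, 0)]],
  [[(26, 1, 1, 0), (23, 1, 2, 0), (110, 0, 1, 0)]],
  [[(3, 0, 1, 0), (113, 0, 2, 0), (61, 0, 2, 0)]],
  [[(62, 1, 1, 0), (114, 0, 2, 0), (112, 0, 1, 0)]],
  [[(115, 0, 2, 0), (149, 0, 2, 0), (113, 0, 1, 0)]],
  [[(116, 0, 2, 0), (11, 2, 0, 0), (114, 0, 0, 0)]],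
  [[(117, 0, 2, 0), (118, 0, 2, 0), (115, 0, 0, 0)]],
  [[(2, 1, 2, 0), (64, 1, 2, 0), (116, 0, 0, 0)]],
  [[(69, 1, 2, 0), (119, 0, 2, 0), (116, 0, 1, 0)]],
  [[(53, 1, 0, 0), (120, 0, 2, 0), (118, 0, 1, 0)]],
  [[(121, 0, 2, 0), (33, 0, 2, 0), (119, 0, 1, 0)]],
  [[(40, 0, 2, -1), (122, 0, 2, 0), (120, 0, 0, 0)]],
  [[(123, 0, 2, -1), (10, 1, 2, 0), (121, 0, 1, 0)]],
  [[(124, 0, 2, 0), (142, 0, 2, 0), (122, 0, 0, 1)]],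
  [[(125, 0, 2, 0), (69, 0, 2, 0), (123, 0, 0, 0)]],
  [[(45, 0, 2, 0), (126, 0, 2, 0), (124, 0, 0, 0)]],
  [[(127, 0, 2, 0), (129, 0, 2, 0), (125, 0, 1, 0)]],
  [[(49, 0, 2, 0), (128, 0, 2, 0), (126, 0, 0, 0)]],
  [[(59, 1, 2, 0), (64, 0, 2, 0), (127, 0, 1, 0)]],
  [[(6, 0, 1, 0), (130, 0, 2, 0), (126, 0, 1, 0)]],
  [[(131, 0, 2, 0), (6, 1, 2, 0), (129, 0, 1, 0)]],
  [[(55, 0, 0, 0), (132, 0, 2, -1), (130, 0, 0, 0)]],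
  [[(133, 0, 2, 0), (54, 1, 2, 0), (131, 0, 1, 1)]],
  [[(134, 0, 2, 0), (5, 2, 0, 0), (132, 0, 0, 0)]],
  [[(5, 0, 1, 0), (135, 0, 2, 0), (133, 0, 0, 0)]],
  [[(136, 0, 2, 0), (43, 0, 0, 0), (134, 0, 1, 0)]],
  [[(137, 0, 2, -1), (138, 0, 2, 0), (135, 0, 0, 0)]],
  [[(39, 0, 0, 0), (15, 0, 2, 0), (136, 0, 0, 1)]],
  [[(19, 0, 2, 0), (139, 0, 2, 0), (136, 0, 1, 0)]],
  [[(140, 0, 2, 0), (46, 0, 1, 0), (138, 0, 1, 0)]],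
  [[(9, 1, 2, 0), (141, 0, 2, 0), (139, 0, 0, 0)]],
  [[(23, 0, 2, 0), (50, 0, 1, 0), (140, 0, 1, 0)]],
  [[(7, 2, 0, 0), (143, 0, 2, 0), (123, 0, 1, 0)]],
  [[(144, 0, 2, 0), (29, 0, 2, 1), (142, 0, 1, 0)]],
  [[(67, 1, 0, 0), (145, 0, 2, 0), (143, 0, 0, 0)]],
  [[(146, 0, 2, 0), (148, 0, 2, 1), (144, 0, 1, 0)]],
  [[(62, 0, 1, 0), (147, 0, 2, 0), (145, 0, 0, 0)]],
  [[(58, 0, 1, 0), (13, 1, 2, 0), (146, 0, 1, 0)]],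
  [[(17, 1, 2, 0), (25, 0, 2, 0), (145, 0, 1, -1)]],
  [[(150, 0, 2, 0), (56, 0, 2, 0), (114, 0, 1, 0)]],
  [[(35, 0, 0, 0), (151, 0, 2, 0), (149, 0, 0, 0)]],
  [[(10, 0, 1, 0), (152, 0, 2, 0), (150, 0, 1, 0)]],
  [[(28, 1, 1, 0), (153, 0, 2, 0), (151, 0, 1, 0)]],
  [[(24, 1, 1, 0), (21, 1, 2, 0), (152, 0, 1, 0)]],
  [[(155, 0, 2, 0), (178, 0, 2, 0), (65, 0, 0, 2)]],
  [[(156, 0, 2, 0), (42, 1, 2, 0), (154, 0, 0, 0)]],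
  [[(157, 0, 2, 0), (177, 0, 2, 0), (155, 0, 0, 0)]],
  [[(158, 0, 2, 2), (56, 1, 2, -1), (156, 0, 0, 0)]],
  [[(2, 2, 0, 0), (159, 0, 2, 0), (157, 0, 0, -2)]],
  [[(58, 1, 1, 0), (160, 0, 2, 0), (158, 0, 1, 0)]],
  [[(20, 0, 1, 0), (161, 0, 2, 0), (159, 0, 1, 0)]],
  [[(16, 0, 1, 0), (162, 0, 2, -1), (160, 0, 1, 0)]],
  [[(163, 0, 2, 0), (12, 1, 1, -2), (161, 0, 1, 1)]],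
  [[(164, 0, 2, 0), (166, 0, 2, 0), (162, 0, 0, 0)]],
  [[(165, 0, 2, 0), (44, 1, 1, 0), (163, 0, 0, 0)]],
  [[(12, 0, 1, 0), (48, 1, 1, 0), (164, 0, 0, 0)]],
  [[(41, 1, 0, 0), (167, 0, 2, -1), (163, 0, 1, 0)]],
  [[(168, 0, 2, 0), (169, 0, 2, 0), (166, 0, 1, 1)]],
  [[(37, 1, 0, 0), (20, 1, 1, 0), (167, 0, 0, 0)]],
  [[(8, 2, 0, 0), (170, 0, 2, 0), (167, 0, 1, 0)]],
  [[(171, 0, 2, 0), (16, 1, 1, 0), (169, 0, 1, 0)]],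
  [[(172, 0, 2, 0), (8, 0, 1, 0), (170, 0, 0, 0)]],
  [[(25, 1, 2, 0), (173, 0, 2, 0), (171, 0, 0, 0)]],
  [[(174, 0, 2, 0), (24, 0, 1, 0), (172, 0, 1, 0)]],
  [[(29, 1, 2, 0), (175, 0, 2, 0), (173, 0, 0, 0)]],
  [[(176, 0, 2, 0), (28, 0, 1, 0), (174, 0, 1, 0)]],
  [[(34, 0, 2, 0), (32, 0, 1, 0), (175, 0, 0, 0)]],
  [[(38, 1, 2, -1), (5, 1, 2, 0), (156, 0, 1, 0)]],
  [[(47, 1, 2, 0), (179, 0, 2, 0), (154, 0, 1, 0)]],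
  [[(180, 0, 2, 0), (54, 0, 2, 1), (178, 0, 1, 0)]],
  [[(51, 1, 2, 0), (38, 0, 2, 0), (179, 0, 0, 0)]],
  [[(182, 0, 2, 0), (205, 0, 2, 0), (67, 0, 0, 2)]],
  [[(183, 0, 2, 0), (40, 1, 2, 0), (181, 0, 0, 0)]],
  [[(184, 0, 2, 0), (204, 0, 2, 0), (182, 0, 0, 0)]],
  [[(185, 0, 2, 2), (57, 0, 0, -1), (183, 0, 0, 0)]],
  [[(3, 2, 0, 0), (186, 0, 2, 0), (184, 0, 0, -2)]],
  [[(60, 1, 1, 0), (187, 0, 2, 0), (185, 0, 1, 0)]],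
  [[(22, 0, 1, 0), (188, 0, 2, 0), (186, 0, 1, 0)]],
  [[(18, 0, 1, 0), (189, 0, 2, -1), (187, 0, 1, 0)]],
  [[(190, 0, 2, 0), (14, 1, 1, -2), (188, 0, 1, 1)]],
  [[(191, 0, 2, 0), (193, 0, 2, 0), (189, 0, 0, 0)]],
  [[(192, 0, 2, 0), (46, 1, 1, 0), (190, 0, 0, 0)]],
  [[(14, 0, 1, 0), (50, 1, 1, 0), (191, 0, 0, 0)]],
  [[(43, 1, 0, 0), (194, 0, 2, -1), (190, 0, 1, 0)]],
  [[(195, 0, 2, 0), (196, 0, 2, 0), (193, 0, 1, 1)]],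
  [[(39, 1, 0, 0), (22, 1, 1, 0), (194, 0, 0, 0)]],
  [[(9, 2, 0, 0), (197, 0, 2, 0), (194, 0, 1, 0)]],
  [[(198, 0, 2, 0), (18, 1, 1, 0), (196, 0, 1, 0)]],
  [[(199, 0, 2, 0), (9, 0, 1, 0), (197, 0, 0, 0)]],
  [[(27, 1, 2, 0), (200, 0, 2, 0), (198, 0, 0, 0)]],
  [[(201, 0, 2, 0), (26, 0, 1, 0), (199, 0, 1, 0)]],
  [[(31, 1, 2, 0), (202, 0, 2, 0), (200, 0, 0, 0)]],
  [[(203, 0, 2, 0), (30, 0, 1, 0), (201, 0, 1, 0)]],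
  [[(35, 1, 0, 0), (33, 1, 2, 0), (202, 0, 0, 0)]],
  [[(36, 1, 2, -1), (4, 1, 2, 0), (183, 0, 1, 0)]],
  [[(45, 1, 2, 0), (206, 0, 2, 0), (181, 0, 1, 0)]],
  [[(207, 0, 2, 0), (52, 0, 2, 1), (205, 0, 1, 0)]],
  [[(49, 1, 2, 0), (36, 0, 2, 0), (206, 0, 0, 0)]]]

end Pool.Agent.Helper56.FN
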