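import Pool.Agent.Helper56.FN.Data1
import Pool.Agent.Helper56.FN.Data2
import Pool.Agent.Helper56.FN.Data3

/-!
# Project FN: the certificate
-/

set_option autoImplicit false

namespace Pool.Agent.Helper56.FN

/-- The certificate. -/
def xC : Cert F3 where
  V := xV
  CS := xCS
  NB := xNB
  seam := xS

end Pool.Agent.Helper56.FN
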