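import Pool.Agent.Helper56.FN.Fml

/-!
# Project FN: the certificate (data)
-/

set_option autoImplicit false

namespace Pool.Agent.Helper56.FN

/-- Vertex table: position (times 100) and label. -/
def xV : List (F3 × ℤ) := [
  (([[[-293]]], [[[-143]], [[0, 100]]], [[], [[], [-100]]]), 4),
  (([[[293]]], [[[143]], [[0, -100]]], [[], [[], [100]]]), 4),
  (([[], [[], [0, -100]], [[], [0, 100]]], [[[-277], [0, 100]], [[], [0, -100], [100]], [[], [], [-100]]], [[[-158], [], [-100]], [[], [], [100]], [[], [100]], [[], [-100]]]), 4),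
  (([], [[[-277]]], [[[-158]]]), 5),
  (([[], [[], [0, 100]], [[], [0, -100]]], [[[277], [0, -100]], [[], [0, 100], [-100]], [[], [], [100]]], [[[158], [], [100]], [[], [], [-100]], [[], [-100]], [[], [100]]]), 4),
  (([], [[[277]]], [[[158]]]), 5),
  (([[], [[], [0, -100]]], [[[-239]], [[], [], [100]]], [[[-115]], [[0, 100]], [[], [100]]]), 5),
  (([[], [[], [0, 100]]], [[[239]], [[], [], [-100]]], [[[115]], [[0, -100]], [[], [-100]]]), 5),
  (([], [[[-256]]], [[[-164]]]), 4),
  (([], [[[256]]], [[[164]]]), 4),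
  (([[[0, 199], [0, 0, 100]], [[0, 0, -100], [], [0, 100]], [[], [0, -100]]], [[[], [-199], [0, -200]], [[], [0, 200], [], [-100]], [[], [], [100]]], [[[147], [], [], [100]], [[-199], [0, -100], [-100]], [[0, 100], [], [-100]], [[], [100]]]), 4),
  (([[[0, 199]]], [[[], [-199]]], [[[147]], [[-199]]]), 4),
  (([[[0, 199, -120]], [[], [0, -120]]], [[[], [-199, 240]], [[], [], [120]]], [[[147], [], [-120]], [[-199, 120]], [[], [120]]]), 6),
  (([[[0, -199], [0, 0, -100]], [[0, 0, 100], [], [0, -100]], [[], [0, 100]]], [[[], [199], [0, 200]], [[], [0, -200], [], [100]], [[], [], [-100]]], [[[-147], [], [], [-100]], [[199], [0, 100], [100]], [[0, -100], [], [100]], [[], [-100]]]), 4),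
  (([[[0, -199]]], [[[], [199]]], [[[-147]], [[199]]]), 4),
  (([[[0, -199, 120]], [[], [0, 120]]], [[[], [199, -240]], [[], [], [-120]]], [[[-147], [], [120]], [[199, -120]], [[], [-120]]]), 6),
  (([[[0, 159], [0, 0, 100]], [[0, 0, -100], [], [0, 100]], [[], [0, -100]]], [[[], [-159], [0, -200]], [[], [0, 200], [], [-100]], [[], [], [100]]], [[[74], [], [], [100]], [[-159], [0, -100], [-100]], [[0, 100], [], [-100]], [[], [100]]]), 6),
  (([[[0, 159]]], [[[], [-159]]], [[[74]], [[-159]]]), 4),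
  (([[[0, 159, -120]], [[], [0, -120]]], [[[], [-159, 240]], [[], [], [120]]], [[[74], [], [-120]], [[-159, 120]], [[], [120]]]), 4),
  (([[[0, -159], [0, 0, -100]], [[0, 0, 100], [], [0, -100]], [[], [0, 100]]], [[[], [159], [0, 200]], [[], [0, -200], [], [100]], [[], [], [-100]]], [[[-74], [], [], [-100]], [[159], [0, 100], [100]], [[0, -100], [], [100]], [[], [-100]]]), 6),
  (([[[0, -159]]], [[[], [159]]], [[[-74]], [[159]]]), 4),
  (([[[0, -159, 120]], [[], [0, 120]]], [[[], [159, -240]], [[], [], [-120]]], [[[-74], [], [120]], [[159, -120]], [[], [-120]]]), 4),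
  (([[[0, -158], [], [0, -100]], [], [[], [0, 100]]], [[[], [158], [], [100]], [[], [0, -100]], [[], [], [-100]]], [[[-277], [0, 100]], [[158], [], [200]], [], [[], [-100]]]), 6),
  (([[[0, 158], [], [0, 100]], [], [[], [0, -100]]], [[[], [-158], [], [-100]], [[], [0, 100]], [[], [], [100]]], [[[277], [0, -100]], [[-158], [], [-200]], [], [[], [100]]]), 6),
  (([[[0, -124], [0, 0, 100]], [[], [], [0, 100]]], [[[], [124], [0, -200]], [[], [], [], [-100]]], [[[-185], [], [], [100]], [[124], [0, -100]], [[], [], [-100]]]), 4),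
  (([[[0, -124]], [[0, 0, 100]], [[], [0, 100]]], [[[], [124]], [[], [0, -200]], [[], [], [-100]]], [[[-185]], [[124], [], [100]], [[0, -100]], [[], [-100]]]), 6),
  (([[[0, -124]]], [[[], [124]]], [[[-185]], [[124]]]), 6),
  (([[[0, 124], [0, 0, -100]], [[], [], [0, -100]]], [[[], [-124], [0, 200]], [[], [], [], [100]]], [[[185], [], [], [-100]], [[-124], [0, 100]], [[], [], [100]]]), 4),
  (([[[0, 124]], [[0, 0, -100]], [[], [0, -100]]], [[[], [-124]], [[], [0, 200]], [[], [], [100]]], [[[185]], [[-124], [], [-100]], [[0, 100]], [[], [100]]]), 6),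
  (([[[0, 124]]], [[[], [-124]]], [[[185]], [[-124]]]), 6),
  (([[[0, -155], [], [0, -100]], [[], [], [0, 100]], [[], [0, 100]], [[], [0, -100]]], [[[], [155], [], [100]], [[], [0, -100], [], [-100]], [[], [0, 100], [-100]], [[], [], [100]]], [[[-273], [0, 100]], [[155], [0, -100], [200]], [[], [], [-200]], [[], [-100]], [[], [100]]]), 6),
  (([[[0, -155], [], [0, -100]], [], [[], [0, 100]]], [[[], [155], [], [100]], [[], [0, -100]], [[], [], [-100]]], [[[-273], [0, 100]], [[155], [], [200]], [], [[], [-100]]]), 6),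
  (([[[0, -155]]], [[[], [155]]], [[[-273]], [[155]]]), 5),
  (([[[0, 155], [], [0, 100]], [[], [], [0, -100]], [[], [0, -100]], [[], [0, 100]]], [[[], [-155], [], [-100]], [[], [0, 100], [], [100]], [[], [0, -100], [100]], [[], [], [-100]]], [[[273], [0, -100]], [[-155], [0, 100], [-200]], [[], [], [200]], [[], [100]], [[], [-100]]]), 6),
  (([[[0, 155], [], [0, 100]], [], [[], [0, -100]]], [[[], [-155], [], [-100]], [[], [0, 100]], [[], [], [100]]], [[[273], [0, -100]], [[-155], [], [-200]], [], [[], [100]]]), 6),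
  (([[[0, 155]]], [[[], [-155]]], [[[273]], [[-155]]]), 5),
  (([[[0, -134], [0, 0, 100]], [[], [], [0, 100]]], [[[], [134], [0, -200]], [[], [], [], [-100]]], [[[-189], [], [], [100]], [[134], [0, -100]], [[], [], [-100]]]), 6),
  (([[[0, -134]], [[0, 0, 100]], [[], [0, 100]]], [[[], [134]], [[], [0, -200]], [[], [], [-100]]], [[[-189]], [[134], [], [100]], [[0, -100]], [[], [-100]]]), 4),
  (([[[0, -134]]], [[[], [134]]], [[[-189]], [[134]]]), 6),
  (([[[0, 134], [0, 0, -100]], [[], [], [0, -100]]], [[[], [-134], [0, 200]], [[], [], [], [100]]], [[[189], [], [], [-100]], [[-134], [0, 100]], [[], [], [100]]]), 6),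
  (([[[0, 134]], [[0, 0, -100]], [[], [0, -100]]], [[[], [-134]], [[], [0, 200]], [[], [], [100]]], [[[189]], [[-134], [], [-100]], [[0, 100]], [[], [100]]]), 4),
  (([[[0, 134]]], [[[], [-134]]], [[[189]], [[-134]]]), 6),
  (([[[0, 166], [0, 0, 100]], [[0, 0, -100], [], [0, 100]], [[], [0, -100]]], [[[], [-166], [0, -200]], [[], [0, 200], [], [-100]], [[], [], [100]]], [[[79], [], [], [100]], [[-166], [0, -100], [-100]], [[0, 100], [], [-100]], [[], [100]]]), 4),
  (([[[0, 166]]], [[[], [-166]]], [[[79]], [[-166]]]), 6),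
  (([[[0, 166, -120]], [[], [0, -120]]], [[[], [-166, 240]], [[], [], [120]]], [[[79], [], [-120]], [[-166, 120]], [[], [120]]]), 4),
  (([[[0, -166], [0, 0, -100]], [[0, 0, 100], [], [0, -100]], [[], [0, 100]]], [[[], [166], [0, 200]], [[], [0, -200], [], [100]], [[], [], [-100]]], [[[-79], [], [], [-100]], [[166], [0, 100], [100]], [[0, -100], [], [100]], [[], [-100]]]), 4),
  (([[[0, -166]]], [[[], [166]]], [[[-79]], [[166]]]), 6),
  (([[[0, -166, 120]], [[], [0, 120]]], [[[], [166, -240]], [[], [], [-120]]], [[[-79], [], [120]], [[166, -120]], [[], [-120]]]), 4),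
  (([[[0, -155], [], [0, -100]], [[], [], [0, 100]], [[], [0, 100]], [[], [0, -100]]], [[[], [155], [], [100]], [[], [0, -100], [], [-100]], [[], [0, 100], [-100]], [[], [], [100]]], [[[-257], [0, 100]], [[155], [0, -100], [200]], [[], [], [-200]], [[], [-100]], [[], [100]]]), 6),
  (([[[0, -155], [], [0, -100]], [], [[], [0, 100]]], [[[], [155], [], [100]], [[], [0, -100]], [[], [], [-100]]], [[[-257], [0, 100]], [[155], [], [200]], [], [[], [-100]]]), 5),
  (([[[0, -155]]], [[[], [155]]], [[[-257]], [[155]]]), 6),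
  (([[[0, 155], [], [0, 100]], [[], [], [0, -100]], [[], [0, -100]], [[], [0, 100]]], [[[], [-155], [], [-100]], [[], [0, 100], [], [100]], [[], [0, -100], [100]], [[], [], [-100]]], [[[257], [0, -100]], [[-155], [0, 100], [-200]], [[], [], [200]], [[], [100]], [[], [-100]]]), 6),
  (([[[0, 155], [], [0, 100]], [], [[], [0, -100]]], [[[], [-155], [], [-100]], [[], [0, 100]], [[], [], [100]]], [[[257], [0, -100]], [[-155], [], [-200]], [], [[], [100]]]), 5),
  (([[[0, 155]]], [[[], [-155]]], [[[257]], [[-155]]]), 6),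
  (([[[0, -124], [0, 0, 100]], [[], [], [0, 100]]], [[[], [124], [0, -200]], [[], [], [], [-100]]], [[[-211], [], [], [100]], [[124], [0, -100]], [[], [], [-100]]]), 6),
  (([[[0, -124]], [[0, 0, 100]], [[], [0, 100]]], [[[], [124]], [[], [0, -200]], [[], [], [-100]]], [[[-211]], [[124], [], [100]], [[0, -100]], [[], [-100]]]), 6),
  (([[[0, -124]]], [[[], [124]]], [[[-211]], [[124]]]), 4),
  (([[[0, 124], [0, 0, -100]], [[], [], [0, -100]]], [[[], [-124], [0, 200]], [[], [], [], [100]]], [[[211], [], [], [-100]], [[-124], [0, 100]], [[], [], [100]]]), 6),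
  (([[[0, 124]], [[0, 0, -100]], [[], [0, -100]]], [[[], [-124]], [[], [0, 200]], [[], [], [100]]], [[[211]], [[-124], [], [-100]], [[0, 100]], [[], [100]]]), 6),
  (([[[0, 124]]], [[[], [-124]]], [[[211]], [[-124]]]), 4),
  (([[[0, -145], [], [0, -100]], [], [[], [0, 100]]], [[[], [145], [], [100]], [[], [0, -100]], [[], [], [-100]]], [[[-279], [0, 100]], [[145], [], [200]], [], [[], [-100]]]), 6),
  (([[[0, 145], [], [0, 100]], [], [[], [0, -100]]], [[[], [-145], [], [-100]], [[], [0, 100]], [[], [], [100]]], [[[279], [0, -100]], [[-145], [], [-200]], [], [[], [100]]]), 6),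
  (([[[0, 188], [0, 0, 100]], [[0, 0, -100], [], [0, 100]], [[], [0, -100]]], [[[], [-188], [0, -200]], [[], [0, 200], [], [-100]], [[], [], [100]]], [[[73], [], [], [100]], [[-188], [0, -100], [-100]], [[0, 100], [], [-100]], [[], [100]]]), 6),
  (([[[0, 188]]], [[[], [-188]]], [[[73]], [[-188]]]), 4),
  (([[[0, -188], [0, 0, -100]], [[0, 0, 100], [], [0, -100]], [[], [0, 100]]], [[[], [188], [0, 200]], [[], [0, -200], [], [100]], [[], [], [-100]]], [[[-73], [], [], [-100]], [[188], [0, 100], [100]], [[0, -100], [], [100]], [[], [-100]]]), 6),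
  (([[[0, -188]]], [[[], [188]]], [[[-73]], [[188]]]), 4),
  (([[[0, 194], [0, 0, 100]], [[0, 0, -100], [], [0, 100]], [[], [0, -100]]], [[[], [-194], [0, -200]], [[], [0, 200], [], [-100]], [[], [], [100]]], [[[77], [], [], [100]], [[-194], [0, -100], [-100]], [[0, 100], [], [-100]], [[], [100]]]), 4),
  (([[[0, 194]]], [[[], [-194]]], [[[77]], [[-194]]]), 6),
  (([[[0, -194], [0, 0, -100]], [[0, 0, 100], [], [0, -100]], [[], [0, 100]]], [[[], [194], [0, 200]], [[], [0, -200], [], [100]], [[], [], [-100]]], [[[-77], [], [], [-100]], [[194], [0, 100], [100]], [[0, -100], [], [100]], [[], [-100]]]), 4),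
  (([[[0, -194]]], [[[], [194]]], [[[-77]], [[194]]]), 6),
  (([[[0, -138]], [[0, 0, 100]], [[], [0, 100]]], [[[], [138]], [[], [0, -200]], [[], [], [-100]]], [[[-237]], [[138], [], [100]], [[0, -100]], [[], [-100]]]), 4),
  (([[[0, -138]]], [[[], [138]]], [[[-237]], [[138]]]), 6),
  (([[[0, 138]], [[0, 0, -100]], [[], [0, -100]]], [[[], [-138]], [[], [0, 200]], [[], [], [100]]], [[[237]], [[-138], [], [-100]], [[0, 100]], [[], [100]]]), 4),
  (([[[0, 138]]], [[[], [-138]]], [[[237]], [[-138]]]), 6),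
  (([[[0, -115]]], [[[], [115]]], [[[-239]], [[115]]]), 4),
  (([[[0, 115]]], [[[], [-115]]], [[[239]], [[-115]]]), 4),
  (([[[0, -164]], [[], [], [0, -100]], [], [[], [0, 100]]], [[[], [164]], [[], [], [], [100]], [[], [0, -100]], [[], [], [-100]]], [[[-256]], [[164], [0, 100]], [[], [], [200]], [], [[], [-100]]]), 6),
  (([[[0, 164]], [[], [], [0, 100]], [], [[], [0, -100]]], [[[], [-164]], [[], [], [], [-100]], [[], [0, 100]], [[], [], [100]]], [[[256]], [[-164], [0, -100]], [[], [], [-200]], [], [[], [100]]]), 6),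
  (([[[0, -133]], [[], [], [0, -100]], [], [[], [0, 100]]], [[[], [133]], [[], [], [], [100]], [[], [0, -100]], [[], [], [-100]]], [[[-115]], [[133], [0, 100]], [[], [], [200]], [], [[], [-100]]]), 6),
  (([[[0, -133]]], [[[], [133]]], [[[-115]], [[133]]]), 5),
  (([[[0, 133]], [[], [], [0, 100]], [], [[], [0, -100]]], [[[], [-133]], [[], [], [], [-100]], [[], [0, 100]], [[], [], [100]]], [[[115]], [[-133], [0, -100]], [[], [], [-200]], [], [[], [100]]]), 6),
  (([[[0, 133]]], [[[], [-133]]], [[[115]], [[-133]]]), 5),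
  (([[[0, -157]], [[], [], [0, -100]], [], [[], [0, 100]]], [[[], [157]], [[], [], [], [100]], [[], [0, -100]], [[], [], [-100]]], [[[-253]], [[157], [0, 100]], [[], [], [200]], [], [[], [-100]]]), 5),
  (([[[0, -157]]], [[[], [157]]], [[[-253]], [[157]]]), 6),
  (([[[0, 157]], [[], [], [0, 100]], [], [[], [0, -100]]], [[[], [-157]], [[], [], [], [-100]], [[], [0, 100]], [[], [], [100]]], [[[253]], [[-157], [0, -100]], [[], [], [-200]], [], [[], [100]]]), 5),
  (([[[0, 157]]], [[[], [-157]]], [[[253]], [[-157]]]), 6),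
  (([[[0, -133]], [[], [], [0, -100]], [], [[], [0, 100]]], [[[], [133]], [[], [], [], [100]], [[], [0, -100]], [[], [], [-100]]], [[[-153]], [[133], [0, 100]], [[], [], [200]], [], [[], [-100]]]), 5),
  (([[[0, -133]]], [[[], [133]]], [[[-153]], [[133]]]), 6),
  (([[[0, 133]], [[], [], [0, 100]], [], [[], [0, -100]]], [[[], [-133]], [[], [], [], [-100]], [[], [0, 100]], [[], [], [100]]], [[[153]], [[-133], [0, -100]], [[], [], [-200]], [], [[], [100]]]), 5),
  (([[[0, 133]]], [[[], [-133]]], [[[153]], [[-133]]]), 6),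
  (([[[0, -51]], [[0, -47]]], [[[0, 47], [51]], [[], [47]]], [[[], [-47]], [[51]], [[47]]]), 5),
  (([[[0, -51]], [[0, -47], [0, 100]], [[], [0, -100]]], [[[0, 47], [51, -100]], [[], [47, 100], [-100]], [[], [], [100]]], [[[], [-47], [100]], [[51], [], [-100]], [[47], [-100]], [[], [100]]]), 5),
  (([[[0, -51]], [[0, 153]]], [[[0, -153], [51]], [[], [-153]]], [[[], [153]], [[51]], [[-153]]]), 4),
  (([[[0, 51]], [[0, 47]]], [[[0, -47], [-51]], [[], [-47]]], [[[], [47]], [[-51]], [[-47]]]), 5),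
  (([[[0, 51]], [[0, 47], [0, -100]], [[], [0, 100]]], [[[0, -47], [-51, 100]], [[], [-47, -100], [100]], [[], [], [-100]]], [[[], [47], [-100]], [[-51], [], [100]], [[-47], [100]], [[], [-100]]]), 5),
  (([[[0, 51]], [[0, -153]]], [[[0, 153], [-51]], [[], [153]]], [[[], [-153]], [[-51]], [[153]]]), 4),
  (([[[0, -69]], [[0, -43]]], [[[0, 43], [69]], [[], [43]]], [[[], [-43]], [[69]], [[43]]]), 5),
  (([[[0, -69]], [[0, -43], [0, 100]], [[], [0, -100]]], [[[0, 43], [69, -100]], [[], [43, 100], [-100]], [[], [], [100]]], [[[], [-43], [100]], [[69], [], [-100]], [[43], [-100]], [[], [100]]]), 4),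
  (([[[0, -69]], [[0, 157]]], [[[0, -157], [69]], [[], [-157]]], [[[], [157]], [[69]], [[-157]]]), 5),
  (([[[0, 69]], [[0, 43]]], [[[0, -43], [-69]], [[], [-43]]], [[[], [43]], [[-69]], [[-43]]]), 5),
  (([[[0, 69]], [[0, 43], [0, -100]], [[], [0, 100]]], [[[0, -43], [-69, 100]], [[], [-43, -100], [100]], [[], [], [-100]]], [[[], [43], [-100]], [[-69], [], [100]], [[-43], [100]], [[], [-100]]]), 4),
  (([[[0, 69]], [[0, -157]]], [[[0, 157], [-69]], [[], [157]]], [[[], [-157]], [[-69]], [[157]]]), 5),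
  (([[[0, -68]], [[0, -42]]], [[[0, 42], [68]], [[], [42]]], [[[], [-42]], [[68]], [[42]]]), 4),
  (([[[0, -68]], [[0, -42], [0, 100]], [[], [0, -100]]], [[[0, 42], [68, -100]], [[], [42, 100], [-100]], [[], [], [100]]], [[[], [-42], [100]], [[68], [], [-100]], [[42], [-100]], [[], [100]]]), 5),
  (([[[0, -68]], [[0, 158]]], [[[0, -158], [68]], [[], [-158]]], [[[], [158]], [[68]], [[-158]]]), 5),
  (([[[0, 68]], [[0, 42]]], [[[0, -42], [-68]], [[], [-42]]], [[[], [42]], [[-68]], [[-42]]]), 4),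
  (([[[0, 68]], [[0, 42], [0, -100]], [[], [0, 100]]], [[[0, -42], [-68, 100]], [[], [-42, -100], [100]], [[], [], [-100]]], [[[], [42], [-100]], [[-68], [], [100]], [[-42], [100]], [[], [-100]]]), 5),
  (([[[0, 68]], [[0, -158]]], [[[0, 158], [-68]], [[], [158]]], [[[], [-158]], [[-68]], [[158]]]), 5),
  (([[[0, 3]], [[0, -218]]], [[[0, 218], [-3]], [[], [218]]], [[[], [-218]], [[-3]], [[218]]]), 5),
  (([[[0, 3]], [[0, -218]], [[0, 0, 100]]], [[[0, 218], [-3]], [[0, 0, -100], [218]], [[], [0, -100]]], [[[], [-218]], [[-3], [0, 100]], [[218]], [[0, -100]]]), 4),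
  (([[[0, 3]], [[0, -18]], [[0, 0, 100]]], [[[0, 18], [-3]], [[0, 0, -100], [18]], [[], [0, -100]]], [[[], [-18]], [[-3], [0, 100]], [[18]], [[0, -100]]]), 4),
  (([[[0, -3]], [[0, 218]]], [[[0, -218], [3]], [[], [-218]]], [[[], [218]], [[3]], [[-218]]]), 5),
  (([[[0, -3]], [[0, 218]], [[0, 0, -100]]], [[[0, -218], [3]], [[0, 0, 100], [-218]], [[], [0, 100]]], [[[], [218]], [[3], [0, -100]], [[-218]], [[0, 100]]]), 4),
  (([[[0, -3]], [[0, 18]], [[0, 0, -100]]], [[[0, -18], [3]], [[0, 0, 100], [-18]], [[], [0, 100]]], [[[], [18]], [[3], [0, -100]], [[-18]], [[0, 100]]]), 4),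
  (([[[0, -15]], [[0, -202]]], [[[0, 202], [15]], [[], [202]]], [[[], [-202]], [[15]], [[202]]]), 4),
  (([[[0, -15]], [[0, -202]], [[0, 0, 100]]], [[[0, 202], [15]], [[0, 0, -100], [202]], [[], [0, -100]]], [[[], [-202]], [[15], [0, 100]], [[202]], [[0, -100]]]), 5),
  (([[[0, -15]], [[0, -2]], [[0, 0, 100]]], [[[0, 2], [15]], [[0, 0, -100], [2]], [[], [0, -100]]], [[[], [-2]], [[15], [0, 100]], [[2]], [[0, -100]]]), 4),
  (([[[0, 15]], [[0, 202]]], [[[0, -202], [-15]], [[], [-202]]], [[[], [202]], [[-15]], [[-202]]]), 4),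
  (([[[0, 15]], [[0, 202]], [[0, 0, -100]]], [[[0, -202], [-15]], [[0, 0, 100], [-202]], [[], [0, 100]]], [[[], [202]], [[-15], [0, -100]], [[-202]], [[0, 100]]]), 5),
  (([[[0, 15]], [[0, 2]], [[0, 0, -100]]], [[[0, -2], [-15]], [[0, 0, 100], [-2]], [[], [0, 100]]], [[[], [2]], [[-15], [0, -100]], [[-2]], [[0, 100]]]), 4),
  (([[[0, -14]], [[0, -199]]], [[[0, 199], [14]], [[], [199]]], [[[], [-199]], [[14]], [[199]]]), 4),
  (([[[0, -14]], [[0, -199]], [[0, 0, 100]]], [[[0, 199], [14]], [[0, 0, -100], [199]], [[], [0, -100]]], [[[], [-199]], [[14], [0, 100]], [[199]], [[0, -100]]]), 4),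
  (([[[0, -14]], [[0, 1]], [[0, 0, 100]]], [[[0, -1], [14]], [[0, 0, -100], [-1]], [[], [0, -100]]], [[[], [1]], [[14], [0, 100]], [[-1]], [[0, -100]]]), 5),
  (([[[0, 14]], [[0, 199]]], [[[0, -199], [-14]], [[], [-199]]], [[[], [199]], [[-14]], [[-199]]]), 4),
  (([[[0, 14]], [[0, 199]], [[0, 0, -100]]], [[[0, -199], [-14]], [[0, 0, 100], [-199]], [[], [0, 100]]], [[[], [199]], [[-14], [0, -100]], [[-199]], [[0, 100]]]), 4),
  (([[[0, 14]], [[0, -1]], [[0, 0, -100]]], [[[0, 1], [-14]], [[0, 0, 100], [1]], [[], [0, 100]]], [[[], [-1]], [[-14], [0, -100]], [[1]], [[0, 100]]]), 5),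
  (([[[0, -293], [0, 0, 100]], [[0, 143], [], [0, 200]], [], [[], [0, -100]]], [[[0, -143], [293], [0, -200]], [[], [-143], [], [-200]], [[], [0, 100]], [[], [], [100]]], [[[], [143], [], [100]], [[293], [0, -200]], [[-143], [], [-300]], [], [[], [100]]]), 4),
  (([[[0, -293]], [[0, 143]]], [[[0, -143], [293]], [[], [-143]]], [[[], [143]], [[293]], [[-143]]]), 5),
  (([[[0, -293]], [[0, 143], [], [0, 100]], [], [[], [0, -100]]], [[[0, -143], [293]], [[], [-143], [], [-100]], [[], [0, 100]], [[], [], [100]]], [[[], [143]], [[293], [0, -100]], [[-143], [], [-200]], [], [[], [100]]]), 6),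
  (([[[0, 293], [0, 0, -100]], [[0, -143], [], [0, -200]], [], [[], [0, 100]]], [[[0, 143], [-293], [0, 200]], [[], [143], [], [200]], [[], [0, -100]], [[], [], [-100]]], [[[], [-143], [], [-100]], [[-293], [0, 200]], [[143], [], [300]], [], [[], [-100]]]), 4),
  (([[[0, 293]], [[0, -143]]], [[[0, 143], [-293]], [[], [143]]], [[[], [-143]], [[-293]], [[143]]]), 5),
  (([[[0, 293]], [[0, -143], [], [0, -100]], [], [[], [0, 100]]], [[[0, 143], [-293]], [[], [143], [], [100]], [[], [0, -100]], [[], [], [-100]]], [[[], [-143]], [[-293], [0, 100]], [[143], [], [200]], [], [[], [-100]]]), 6),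
  (([[[0, -279]], [[0, 145], [], [0, 100]], [[0, 0, -100]], [[], [0, -100]]], [[[0, -145], [279]], [[0, 0, 100], [-145], [], [-100]], [[], [0, 200]], [[], [], [100]]], [[[], [145]], [[279], [0, -200]], [[-145], [], [-200]], [[0, 100]], [[], [100]]]), 4),
  (([[[0, -279]], [[0, 145]]], [[[0, -145], [279]], [[], [-145]]], [[[], [145]], [[279]], [[-145]]]), 6),
  (([[[0, -279]], [[0, 145], [], [0, 100]], [], [[], [0, -100]]], [[[0, -145], [279]], [[], [-145], [], [-100]], [[], [0, 100]], [[], [], [100]]], [[[], [145]], [[279], [0, -100]], [[-145], [], [-200]], [], [[], [100]]]), 5),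
  (([[[0, 279]], [[0, -145], [], [0, -100]], [[0, 0, 100]], [[], [0, 100]]], [[[0, 145], [-279]], [[0, 0, -100], [145], [], [100]], [[], [0, -200]], [[], [], [-100]]], [[[], [-145]], [[-279], [0, 200]], [[145], [], [200]], [[0, -100]], [[], [-100]]]), 4),
  (([[[0, 279]], [[0, -145]]], [[[0, 145], [-279]], [[], [145]]], [[[], [-145]], [[-279]], [[145]]]), 6),
  (([[[0, 279]], [[0, -145], [], [0, -100]], [], [[], [0, 100]]], [[[0, 145], [-279]], [[], [145], [], [100]], [[], [0, -100]], [[], [], [-100]]], [[[], [-145]], [[-279], [0, 100]], [[145], [], [200]], [], [[], [-100]]]), 5),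
  (([[[0, -246], [0, 0, 100]], [[0, 123], [], [0, 200]], [], [[], [0, -100]]], [[[0, -123], [246], [0, -200]], [[], [-123], [], [-200]], [[], [0, 100]], [[], [], [100]]], [[[], [123], [], [100]], [[246], [0, -200]], [[-123], [], [-300]], [], [[], [100]]]), 6),
  (([[[0, -246]], [[0, 123], [], [0, 100]], [[0, 0, -100]], [[], [0, -100]]], [[[0, -123], [246]], [[0, 0, 100], [-123], [], [-100]], [[], [0, 200]], [[], [], [100]]], [[[], [123]], [[246], [0, -200]], [[-123], [], [-200]], [[0, 100]], [[], [100]]]), 5),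
  (([[[0, -246]], [[0, 123]]], [[[0, -123], [246]], [[], [-123]]], [[[], [123]], [[246]], [[-123]]]), 7),
  (([[[0, -246]], [[0, 123], [], [0, 100]], [], [[], [0, -100]]], [[[0, -123], [246]], [[], [-123], [], [-100]], [[], [0, 100]], [[], [], [100]]], [[[], [123]], [[246], [0, -100]], [[-123], [], [-200]], [], [[], [100]]]), 4),
  (([[[0, 246], [0, 0, -100]], [[0, -123], [], [0, -200]], [], [[], [0, 100]]], [[[0, 123], [-246], [0, 200]], [[], [123], [], [200]], [[], [0, -100]], [[], [], [-100]]], [[[], [-123], [], [-100]], [[-246], [0, 200]], [[123], [], [300]], [], [[], [-100]]]), 6),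
  (([[[0, 246]], [[0, -123], [], [0, -100]], [[0, 0, 100]], [[], [0, 100]]], [[[0, 123], [-246]], [[0, 0, -100], [123], [], [100]], [[], [0, -200]], [[], [], [-100]]], [[[], [-123]], [[-246], [0, 200]], [[123], [], [200]], [[0, -100]], [[], [-100]]]), 5),
  (([[[0, 246]], [[0, -123]]], [[[0, 123], [-246]], [[], [123]]], [[[], [-123]], [[-246]], [[123]]]), 7),
  (([[[0, 246]], [[0, -123], [], [0, -100]], [], [[], [0, 100]]], [[[0, 123], [-246]], [[], [123], [], [100]], [[], [0, -100]], [[], [], [-100]]], [[[], [-123]], [[-246], [0, 100]], [[123], [], [200]], [], [[], [-100]]]), 4)]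

end Pool.Agent.Helper56.FN
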