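import Pool.Agent.Helper56.FN.Fml
import Pool.Agent.Helper56.FN.Asm

/-!
# Project FN: the theorem for one cubic, and the open set
-/

set_option autoImplicit false

open Set Filter Topology Matrix
open Pool.Agent.Helper54.Wav

noncomputable section

namespace Pool.Agent.Helper56.FN

open Pool.Agent.Helper54.TRI
open Pool.Agent.Helper56.FM (Ops Sound Rf Tr trv sh1 eqr ZF eqf sides cyc cancel sgI sgD crossz sT Gq)

/-- The conclusion for the matrices with `A³ + v A² + w A = u`. -/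
def Concl (v w u : ℚ) : Prop :=
  (∀ A : Matrix (Fin 2) (Fin 2) ℝ, _root_.Wav.Expansive A →
    A ^ 3 + (v : ℝ) • A ^ 2 + (w : ℝ) • A = (u : ℝ) • (1 : Matrix (Fin 2) (Fin 2) ℝ) →
    ¬ Pool.Agent.Helper54.WavS.HasRationalPower A ∧
    ((∃ N : ℝ, 2 < N ∧ WavN.HasWavelet N A) ↔ ∃ j : ℤ, j ≠ 0 ∧ j ∈ WavN.Exps A) ∧
    ((∃ j : ℤ, j ≠ 0 ∧ j ∈ WavN.Exps A) →
      (1 : ℤ) ∈ WavN.Exps A ∧ Pool.Agent.Helper54.WavS.HasSchwartzWavelet A)) ∧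
  ∃ A : Matrix (Fin 2) (Fin 2) ℝ, _root_.Wav.Expansive A ∧
    A ^ 3 + (v : ℝ) • A ^ 2 + (w : ℝ) • A = (u : ℝ) • (1 : Matrix (Fin 2) (Fin 2) ℝ) ∧
    (1 : ℤ) ∈ WavN.Exps A ∧ Pool.Agent.Helper54.WavS.HasSchwartzWavelet A

/-- The wavelet from a kernel. -/
theorem wavelet_of_pat {β : ℂ} (him : 0 < β.im) (hβ : 1 < ‖β‖)
    (hK : ∃ K Λ ε R, PatC (starRingEnd ℂ β) (Gq (starRingEnd ℂ β) 0) K Λ ε R)
    {A : Matrix (Fin 2) (Fin 2) ℝ} (htr : A.trace = 2 * β.re) (hdet : A.det = Complex.normSq β)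
    (hex : ∃ p q : Fin 2 → ℤ, q ≠ 0 ∧ zv p = Aᵀ *ᵥ zv q) :
    Pool.Agent.Helper54.WavS.HasSchwartzWavelet A := by
  obtain ⟨K, Λ, ε, R, hP⟩ := hK
  refine Pool.Agent.Helper56.FM.wavelet_of_kernel (Pool.Agent.Helper56.FM.m_LQ m_LAT)
    Pool.Agent.Helper56.TW.g_Red (β := starRingEnd ℂ β) ?_ ?_ hP ?_ ?_ hex
  · rw [RCLike.norm_conj]
    exact hβ
  · rw [Complex.conj_im]
    exact neg_ne_zero.2 him.ne'
  · rw [Complex.conj_re]
    exact htr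
  · rw [Complex.normSq_conj]
    exact hdet

/-- The theorem for one cubic. -/
theorem fin3 (hRF : StRF) (hTD : StTD) (hNR : StNR) (hNP : StNP) (hSC : StSC) (hEX : StEX)
    {v w u : ℚ} {t : ℝ} {β : ℂ} (hC : Cub v w u t β) (h1 : v ^ 2 < 3 * w)
    (h2 : 1 < t ^ 2 + v * t + w) (h3 : 0 < v * t + w)
    (hirr : ∀ x : ℚ, x ^ 3 + v * x ^ 2 + w * x ≠ u)
    (hK : ∃ K Λ ε R, PatC (starRingEnd ℂ β) (Gq (starRingEnd ℂ β) 0) K Λ ε R) : Concl v w u := by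
  have hβ : 1 < ‖β‖ := by
    have e1 := (hRF v w u t β hC).2.1
    rw [Complex.normSq_eq_norm_sq] at e1
    by_contra hcon
    push Not at hcon
    have h0 := norm_nonneg β
    nlinarith
  have hJ : ∀ A : Matrix (Fin 2) (Fin 2) ℝ, _root_.Wav.Expansive A →
      A ^ 3 + (v : ℝ) • A ^ 2 + (w : ℝ) • A = (u : ℝ) • (1 : Matrix (Fin 2) (Fin 2) ℝ) →
      (∃ j : ℤ, j ≠ 0 ∧ j ∈ WavN.Exps A) →
        (1 : ℤ) ∈ WavN.Exps A ∧ Pool.Agent.Helper54.WavS.HasSchwartzWavelet A := by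
    intro A hE h4 hj
    rcases hTD v w u t β hC h1 A h4 with ⟨htr, hdet⟩ | hsc
    · have hcub : ∃ a b c : ℚ, β ^ 3 = (a : ℂ) * β ^ 2 + (b : ℂ) * β + (c : ℂ) := by
        refine ⟨-v, -w, u, ?_⟩
        push_cast
        linear_combination hC.cub
      obtain ⟨p, q, hq, hpq⟩ := Pool.Agent.Helper56.FM.m_JJ β hC.im.ne' hcub
        (fun n hn q => (hNR v w u t β hC hirr h3 n hn q).1) A htr hdet hj
      exact ⟨Pool.Agent.Helper56.FM.one_mem_exps (_root_.Wav.expansive_det hE) hq hpq,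
        wavelet_of_pat hC.im hβ hK htr hdet ⟨p, q, hq, hpq⟩⟩
    · obtain ⟨j, hj0, hj1⟩ := hj
      rw [hsc] at hj1
      exact absurd hj1 ((hSC v w u t β hC hirr h3).2 j hj0)
  refine ⟨?_, ?_⟩
  · intro A hE h4
    have hnr : ¬ Pool.Agent.Helper54.WavS.HasRationalPower A := by
      rcases hTD v w u t β hC h1 A h4 with ⟨htr, hdet⟩ | hsc
      · exact hNP v w u t β hC hirr h3 A hdet
      · rw [hsc]
        exact (hSC v w u t β hC hirr h3).1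
    refine ⟨hnr, ⟨?_, ?_⟩, hJ A hE h4⟩
    · rintro ⟨N, hN, hW⟩
      by_contra hcon
      have hcl := WavN.exps_closure (le_refl 2) hE hN hW
      have h0 : AddSubgroup.closure (WavN.Exps A) ≤ ⊥ := by
        rw [AddSubgroup.closure_le]
        intro j hj
        by_contra hj0
        exact hcon ⟨j, fun h => hj0 (by simp [h]), hj⟩
      rw [hcl] at h0
      have h5 : (1 : ℤ) ∈ (⊥ : AddSubgroup ℤ) := h0 (AddSubgroup.mem_top 1)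
      rw [AddSubgroup.mem_bot] at h5
      exact one_ne_zero h5
    · intro hj
      exact ⟨3, by norm_num, (hJ A hE h4 hj).2.hasWavelet _⟩
  · obtain ⟨hE, h4, p, q, hq, hpq⟩ := hEX v w u t β hC h1 h2
    have hE' := hE
    have h5 := Pool.Agent.Helper56.FM.one_mem_exps (_root_.Wav.expansive_det hE') hq hpq
    exact ⟨_, hE', h4, h5, (hJ _ hE' h4 ⟨1, one_ne_zero, h5⟩).2⟩

/-- The open set around a checked base point. -/
theorem open_of_check (hNH : StNH) (hBP : StBP) (hSO : StSO) (hRC : StRC) (hBT : StBT) (hRF : StRF)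
    (V W T : ℚ) (h1 : V ^ 2 < 3 * W) (h2 : (1 : ℝ) < T ^ 2 + V * T + W) (h3 : (0 : ℝ) < V * T + W)
    (h4 : 0 < uu V W T) (X : Cert F3) (hX : X.check (ops V W T) = true) :
    ∃ O : Set (ℝ × ℝ × ℝ), IsOpen O ∧ ((V : ℝ), (W : ℝ), uu V W T) ∈ O ∧
      ∀ v w u : ℚ, ((v : ℝ), (w : ℝ), (u : ℝ)) ∈ O → ∃ t β, Cub v w u t β ∧ v ^ 2 < 3 * w ∧
        1 < t ^ 2 + v * t + w ∧ 0 < v * t + w ∧
        ∃ K Λ ε R, PatC (starRingEnd ℂ β) (Gq (starRingEnd ℂ β) 0) K Λ ε R := by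
  obtain ⟨b1, b2⟩ := hBP V W T h1
  have hn := hNH F3 (ℂ × ℂ × ℂ × ℂ) (ops V W T)
    (𝓝 ((V : ℂ), (W : ℂ), ((uu V W T : ℝ) : ℂ), bt V W T))
    (fun θ => evp θ.1 θ.2.1 θ.2.2.1 θ.2.2.2) b1 b2 X hX
  -- pull back to `(v, w, t)`
  have hG : Tendsto (fun x : ℝ × ℝ × ℝ => ((x.1 : ℂ), (x.2.1 : ℂ), ((uu x.1 x.2.1 x.2.2 : ℝ) : ℂ),
      bt x.1 x.2.1 x.2.2)) (𝓝 ((V : ℝ), (W : ℝ), (T : ℝ)))
      (𝓝 ((V : ℂ), (W : ℂ), ((uu V W T : ℝ) : ℂ), bt V W T)) := by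
    have hc : Continuous (fun x : ℝ × ℝ × ℝ => ((x.1 : ℂ), (x.2.1 : ℂ),
        ((uu x.1 x.2.1 x.2.2 : ℝ) : ℂ), bt x.1 x.2.1 x.2.2)) := by
      refine Continuous.prodMk (by fun_prop) (Continuous.prodMk (by fun_prop)
        (Continuous.prodMk ?_ hBT.1))
      unfold uu
      fun_prop
    have := hc.tendsto ((V : ℝ), (W : ℝ), (T : ℝ))
    simpa using this
  have e1 := hG.eventually hn
  have e2 : ∀ᶠ x : ℝ × ℝ × ℝ in 𝓝 ((V : ℝ), (W : ℝ), (T : ℝ)), x.1 ^ 2 < 3 * x.2.1 := by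
    refine (isOpen_lt (by fun_prop) (by fun_prop)).mem_nhds ?_
    show ((V : ℝ)) ^ 2 < 3 * (W : ℝ)
    exact_mod_cast h1
  have e3 : ∀ᶠ x : ℝ × ℝ × ℝ in 𝓝 ((V : ℝ), (W : ℝ), (T : ℝ)),
      1 < x.2.2 ^ 2 + x.1 * x.2.2 + x.2.1 := by
    refine (isOpen_lt (by fun_prop) (by fun_prop)).mem_nhds ?_
    exact h2
  have e4 : ∀ᶠ x : ℝ × ℝ × ℝ in 𝓝 ((V : ℝ), (W : ℝ), (T : ℝ)), 0 < x.1 * x.2.2 + x.2.1 := by
    refine (isOpen_lt (by fun_prop) (by fun_prop)).mem_nhds ?_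
    exact h3
  have e5 : ∀ᶠ x : ℝ × ℝ × ℝ in 𝓝 ((V : ℝ), (W : ℝ), (T : ℝ)), 0 < uu x.1 x.2.1 x.2.2 := by
    refine (isOpen_lt (by fun_prop) (by unfold uu; fun_prop)).mem_nhds ?_
    exact h4
  obtain ⟨O, hO, hVO, hOS⟩ := hRC V W T (by exact_mod_cast h1) _
    (e1.and (e2.and (e3.and (e4.and e5))))
  refine ⟨O, hO, hVO, ?_⟩
  intro v w u hx
  obtain ⟨t, ⟨f1, f2, f3, f4, f5⟩, ht⟩ := hOS _ hx
  have f2r : (v : ℝ) ^ 2 < 3 * (w : ℝ) := f2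
  have f2' : v ^ 2 < 3 * w := by exact_mod_cast f2r
  have hC := hBT.2 v w u t f2' ht
  have hu : u ≠ 0 := by
    rintro rfl
    have f6 : 0 < uu (v : ℝ) (w : ℝ) t := f5
    have ht' : uu (v : ℝ) (w : ℝ) t = ((0 : ℚ) : ℝ) := ht
    rw [ht'] at f6
    simp at f6
  have hβ : 1 < ‖(starRingEnd ℂ) (bt v w t)‖ := by
    have g1 := (hRF v w u t _ hC).2.1
    rw [Complex.normSq_eq_norm_sq] at g1
    have f3' : (1 : ℝ) < t ^ 2 + v * t + w := f3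
    by_contra hcon
    push Not at hcon
    have h0 := norm_nonneg ((starRingEnd ℂ) (bt v w t))
    nlinarith
  have hS := hSO V W T v w u t _ hC hu hβ
  rw [Complex.conj_conj] at hS
  refine ⟨t, _, hC, f2', f3, f4, ?_⟩
  rw [Complex.conj_conj]
  refine kernel_of_cert hS X ?_
  have f1' : X.check (exOps (ops V W T) (evp ((v : ℝ) : ℂ) ((w : ℝ) : ℂ)
    ((uu (v : ℝ) (w : ℝ) t : ℝ) : ℂ) (bt v w t))) = true := f1
  have ht' : uu (v : ℝ) (w : ℝ) t = (u : ℝ) := ht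
  rw [ht'] at f1'
  simpa using f1'

end Pool.Agent.Helper56.FN
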