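import Pool.Agent.Helper56.FN.St
import Pool.Agent.Helper56.FM.Fam

/-!
# Project FN, part 3: formal points for `β³ + v β² + w β = u`, exact tests at a rational base point

Points are `x₀ + x₁ β + x₂ β²` with integer polynomials in `v`, `w`, `u` (nested coefficient lists:
outermost `v`, then `w`, then `u`).
-/

set_option autoImplicit false

open Set Filter Topology Matrix
open Pool.Agent.Helper54.Wav

noncomputable section

namespace Pool.Agent.Helper56.FN

open Pool.Agent.Helper54.TRI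
open Pool.Agent.Helper56.FM (Ops Sound Rf Tr trv sh1 eqr ZF eqf sides cyc cancel sgI sgD crossz sT StVL StTL Gq)

/-- Polynomials in `u`. -/
abbrev P1 : Type := List ℤ

/-- Polynomials in `w`, `u`. -/
abbrev P2 : Type := List P1

/-- Polynomials in `v`, `w`, `u`. -/
abbrev P3 : Type := List P2

/-- Sum of coefficient lists. -/
def ladd {α : Type} (f : α → α → α) : List α → List α → List α
  | [], q => q
  | a :: p, [] => a :: p
  | a :: p, b :: q => f a b :: ladd f p q

def a1 (p q : P1) : P1 := ladd (fun x y : ℤ => x + y) p q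
def a2 (p q : P2) : P2 := ladd a1 p q
def a3 (p q : P3) : P3 := ladd a2 p q

def n1 (p : P1) : P1 := p.map fun x : ℤ => -x
def n2 (p : P2) : P2 := p.map n1
def n3 (p : P3) : P3 := p.map n2

def z1 (p : P1) : Bool := p.all fun x : ℤ => decide (x = 0)
def z2 (p : P2) : Bool := p.all z1
def z3 (p : P3) : Bool := p.all z2

/-- Multiplication by `v`, `w`, `u`. -/
def mv (p : P3) : P3 := [] :: p
def mw (p : P3) : P3 := p.map fun q => ([] : P1) :: q
def mu (p : P3) : P3 := p.map fun q => q.map fun r => (0 : ℤ) :: r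

/-- Evaluation (Horner). -/
def lev {α K : Type} [CommRing K] (e : α → K) (x : K) : List α → K
  | [] => 0
  | a :: p => e a + x * lev e x p

def e1 {K : Type} [CommRing K] (u : K) (p : P1) : K := lev (fun c : ℤ => (c : K)) u p
def e2 {K : Type} [CommRing K] (w u : K) (p : P2) : K := lev (e1 u) w p
def e3 {K : Type} [CommRing K] (v w u : K) (p : P3) : K := lev (e2 w u) v p

/-- Points. -/
abbrev F3 : Type := P3 × P3 × P3

def fsub (x y : F3) : F3 := (a3 x.1 (n3 y.1), a3 x.2.1 (n3 y.2.1), a3 x.2.2 (n3 y.2.2))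

def fneg (x : F3) : F3 := (n3 x.1, n3 x.2.1, n3 x.2.2)

/-- Multiplication by `β`. -/
def fB (x : F3) : F3 := (mu x.2.2, a3 x.1 (n3 (mw x.2.2)), a3 x.2.1 (n3 (mv x.2.2)))

/-- Multiplication by `u β⁻¹`. -/
def fA (x : F3) : F3 := (a3 (mu x.2.1) (mw x.1), a3 (mu x.2.2) (mv x.1), x.1)

def fBn : ℕ → F3 → F3
  | 0, x => x
  | n + 1, x => fB (fBn n x)

def fAn : ℕ → F3 → F3
  | 0, x => x
  | n + 1, x => fA (fAn n x)

/-- Evaluation of points. -/
def evp (v w u β : ℂ) (x : F3) : ℂ := e3 v w u x.1 + e3 v w u x.2.1 * β + e3 v w u x.2.2 * β ^ 2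

/-- Rational Horner evaluation. -/
def r1 (u : ℚ) : P1 → ℚ
  | [] => 0
  | c :: p => (c : ℚ) + u * r1 u p

def r2 (w u : ℚ) : P2 → ℚ
  | [] => 0
  | c :: p => r1 u c + w * r2 w u p

def r3 (v w u : ℚ) : P3 → ℚ
  | [] => 0
  | c :: p => r2 w u c + v * r3 v w u p

/-- Coordinates `(a, b)` of the value `a + b β` at the base point `(V, W, T)`, where `β² = - (V + T) β - (T² + V T + W)`. -/
def bc (V W T : ℚ) (x : F3) : ℚ × ℚ :=
  let U := T ^ 3 + V * T ^ 2 + W * T
  let x2 := r3 V W U x.2.2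
  (r3 V W U x.1 - (T ^ 2 + V * T + W) * x2, r3 V W U x.2.1 - (V + T) * x2)

/-- Orientation test at the base point (root in the lower half plane). -/
def pos0 (V W T : ℚ) (p q r : F3) : Bool :=
  let x := bc V W T (fsub r p)
  let y := bc V W T (fsub q p)
  decide (0 < x.1 * y.2 - x.2 * y.1)

/-- The operations. -/
def ops (V W T : ℚ) : Ops F3 where
  zero := ([], [], [])
  one := ([[[1]]], [], [])
  sub := fsub
  neg := fneg
  mul := fBn
  isz x := z3 x.1 && (z3 x.2.1 && z3 x.2.2)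
  nz x := decide (bc V W T x ≠ (0, 0))
  pos := pos0 V W T
  inG l x := if 1 ≤ l then z3 (fAn (l - 1).toNat x).2.2 else z3 (fBn (1 - l).toNat x).2.2

open Classical in
/-- The same algebra with the exact tests for an evaluation `e`. -/
def exOps {Q : Type} (M : Ops Q) (e : Q → ℂ) : Ops Q where
  zero := M.zero
  one := M.one
  sub := M.sub
  neg := M.neg
  mul := M.mul
  isz := M.isz
  nz v := decide (e v ≠ 0)
  pos p q r := decide (0 < ht (e p) (e q) (e r))
  inG := M.inG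

/-- `u` as a function of `v`, `w` and the real root. -/
def uu (v w t : ℝ) : ℝ := t ^ 3 + v * t ^ 2 + w * t

/-- The root in the lower half plane. -/
def bt (v w t : ℝ) : ℂ := ⟨-(v + t) / 2, - Real.sqrt (t ^ 2 + v * t + w - (v + t) ^ 2 / 4)⟩

/-- Rational `v`, `w`, `u`; `t` the real root of `x³ + v x² + w x = u`, `β` the root in the upper half plane. -/
structure Cub (v w u : ℚ) (t : ℝ) (β : ℂ) : Prop where
  real : t ^ 3 + (v : ℝ) * t ^ 2 + (w : ℝ) * t = (u : ℝ)
  cub : β ^ 3 + (v : ℂ) * β ^ 2 + (w : ℂ) * β = (u : ℂ)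
  im : 0 < β.im

/-- **NH** (a certificate checked at the base point is valid near the base point).  PROOF.  `check` is a finite conjunction.  `chkN` and `chkC` do not use `pos` and `nz` (unfold; the fields of `exOps` are those of `M`).  `okG`, `okL`: `List.all` and `&&`, `||`, `decide` of finitely many tests; each
positive test of `M` is eventually a positive test of `exOps M (e θ)` (`Filter.eventually_all`, `Filter.Eventually.and`; the `decide (∀ a b : Fin 4, ..)` parts by `simp` and `Filter.eventually_all`).  `chkS`: if `0 < ht p x q` then `ht p q x < 0` (`(z⁻¹).im = - z.im / normSq z`), so eventually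
`sgI (exOps M (e θ)) v = sgI M v` whenever `sgI M v ≠ 0`, the same for `sgD`, so `crossz` is the same for all edges of the seam and the sum of the list is the same. -/
def StNH : Prop := ∀ (Q Θ : Type) (M : Ops Q) (l : Filter Θ) (e : Θ → Q → ℂ),
  (∀ p q r, M.pos p q r = true → ∀ᶠ θ in l, 0 < ht (e θ p) (e θ q) (e θ r)) →
  (∀ v, M.nz v = true → ∀ᶠ θ in l, e θ v ≠ 0) →
  ∀ X : Cert Q, X.check M = true → ∀ᶠ θ in l, X.check (exOps M (e θ)) = true

/-- **BP** (tests at the base point are correct near the base point).  PROOF.  `θ = (v, w, u, β)`; for every `x : F3` the function `θ ↦ evp θ.1 θ.2.1 θ.2.2.1 θ.2.2.2 x` is continuous (inductions on the lists).  At the base point `θ₀ = (V, W, U, bt V W T)`, `U = T³ + V T² + W T`: with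
`(a, b) = bc V W T x` (rational) the value is `a + b β` because `β² = - (V+T) β - (T²+VT+W)` (`bt`: real part `-(V+T)/2`, square of the imaginary part `T²+VT+W - (V+T)²/4`, which is positive because `V² < 3 W`: it is `W - V²/3 + (3/4) (T + V/3)²`).  `Im β < 0`, so `a + b β = 0` only for `a = b = 0`, and
`im (conj y * x) = (a_y b_x - b_y a_x) Im β` for `x = r - p`, `y = q - p`; `ht p q r = im (conj y * x) / normSq y` (as in `qpos_spec` of `Pool/Agent/Helper56/FM/M_SND.lean`).  `ht` is continuous at `θ₀` because `q ≠ p` there, so positivity holds near `θ₀`. -/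
def StBP : Prop := ∀ V W T : ℚ, V ^ 2 < 3 * W →
  (∀ p q r : F3, (ops V W T).pos p q r = true →
    ∀ᶠ θ in 𝓝 ((V : ℂ), (W : ℂ), ((uu V W T : ℝ) : ℂ), bt V W T),
      0 < ht (evp θ.1 θ.2.1 θ.2.2.1 θ.2.2.2 p) (evp θ.1 θ.2.1 θ.2.2.1 θ.2.2.2 q) (evp θ.1 θ.2.1 θ.2.2.1 θ.2.2.2 r)) ∧
  ∀ x : F3, (ops V W T).nz x = true →
    ∀ᶠ θ in 𝓝 ((V : ℂ), (W : ℂ), ((uu V W T : ℝ) : ℂ), bt V W T), evp θ.1 θ.2.1 θ.2.2.1 θ.2.2.2 x ≠ 0

/-- **SO** (the operations are correct for the root in the lower half plane).  As `m_SND` (file `Pool/Agent/Helper56/FM/M_SND.lean`), `uu β⁻¹` instead of `s β⁻¹`; points of `Gq`: `fAn` (`fBn`) has the third coordinate zero, the others are rational numbers.  `pos` and `nz` are exact by definition. -/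
def StSO : Prop := ∀ (V W T v w u : ℚ) (t : ℝ) (β : ℂ), Cub v w u t β → u ≠ 0 → 1 < ‖β‖ →
  Sound (exOps (ops V W T) (evp v w u (starRingEnd ℂ β))) (starRingEnd ℂ β)
    (evp v w u (starRingEnd ℂ β)) (Gq (starRingEnd ℂ β))

/-- **RC** (continuity of the real root).  PROOF.  `S` contains all points `(v, w, t)` with `|v - V| < δ`, `|w - W| < δ`, `|t - T| < δ`.  `x³ + V x² + W x` is strictly increasing (`V² < 3 W`: the difference quotient is `x² + x y + y² + V (x + y) + W > 0`), so with `h = δ / 2`: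
`uu V W (T - h) < uu V W T < uu V W (T + h)`; `O` = set of `(v, w, u)` with `|v - V| < δ`, `|w - W| < δ`, `uu v w (T - h) < u < uu v w (T + h)` (open); intermediate value theorem on `[T - h, T + h]`. -/
def StRC : Prop := ∀ V W T : ℝ, V ^ 2 < 3 * W → ∀ S ∈ 𝓝 (V, W, T), ∃ O : Set (ℝ × ℝ × ℝ), IsOpen O ∧
  (V, W, uu V W T) ∈ O ∧ ∀ x ∈ O, ∃ t, (x.1, x.2.1, t) ∈ S ∧ uu x.1 x.2.1 t = x.2.2

/-- **BT** (the complex roots).  PROOF.  `bt` is continuous (`Complex.equivRealProd` or `continuous` of `⟨x, y⟩ = x + y I`).  `x³ + v x² + w x - u = (x - t) (x² + (v + t) x + (t² + v t + w))`, and `β = conj (bt v w t)` is the root of the quadratic factor with positive imaginary part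
(`t² + v t + w - (v + t)²/4 = w - v²/3 + (3/4) (t + v/3)² > 0`). -/
def StBT : Prop := (Continuous fun x : ℝ × ℝ × ℝ => bt x.1 x.2.1 x.2.2) ∧
  ∀ (v w u : ℚ) (t : ℝ), v ^ 2 < 3 * w → uu v w t = u → Cub v w u t (starRingEnd ℂ (bt v w t))

/-- **RF** (roots and coefficients).  As the first part of `m_RF` (file `Pool/Agent/Helper56/FM/M_RF.lean`): `0 = (β - t) (β² + (v + t) β + (t² + v t + w))`, `β ≠ t`. -/
def StRF : Prop := ∀ v w u t β, Cub v w u t β → 2 * β.re = -((v : ℝ) + t) ∧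
  Complex.normSq β = t ^ 2 + v * t + w ∧ β ^ 2 = -((v : ℂ) + (t : ℂ)) * β - ((t : ℂ) ^ 2 + v * t + w)

/-- **TD** (trace and determinant, or scalar; hypothesis `hr : StRF`).  As `trdet_or` (file `Pool/Agent/Helper56/FM/Fin.lean`): with `X = A.trace`, `D = A.det`, `K = X² - D + v X + w` the off-diagonal entries give `K b = K c = 0`, the diagonal ones `K a = K d = X D + v D + u`.
`K = 0`: `y = -(v + X)` is a root of `x³ + v x² + w x = u` and `y = t` because `x³ + v x² + w x` is injective on `ℝ` for `v² < 3 w`. -/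
def StTD : Prop := ∀ v w u t β, Cub v w u t β → v ^ 2 < 3 * w → ∀ A : Matrix (Fin 2) (Fin 2) ℝ,
  A ^ 3 + (v : ℝ) • A ^ 2 + (w : ℝ) • A = (u : ℝ) • (1 : Matrix (Fin 2) (Fin 2) ℝ) →
  (A.trace = 2 * β.re ∧ A.det = Complex.normSq β) ∨ A = t • (1 : Matrix (Fin 2) (Fin 2) ℝ)

/-- **NR** (no rational powers; hypothesis `hr : StRF`).  As `m_NR` (file `Pool/Agent/Helper56/FM/M_NR.lean`): `X³ + C v X² + C w X - C u` is irreducible over `ℚ`; `β^n = q` gives `t^n = q` and conversely, so `|β| = |t|`, `|β|² = t² + v t + w > t²`. -/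
def StNR : Prop := ∀ v w u t β, Cub v w u t β → (∀ x : ℚ, x ^ 3 + v * x ^ 2 + w * x ≠ u) →
  0 < v * t + w → ∀ n : ℕ, n ≠ 0 → ∀ q : ℚ, β ^ n ≠ (q : ℂ) ∧ t ^ n ≠ (q : ℝ)

/-- **NP** (no rational power of the matrix; hypotheses `hr : StRF`, `hn : StNR`).  As `m_NP` (file `Pool/Agent/Helper56/FM/M_NP.lean`): `t |β|² = u`. -/
def StNP : Prop := ∀ v w u t β, Cub v w u t β → (∀ x : ℚ, x ^ 3 + v * x ^ 2 + w * x ≠ u) →
  0 < v * t + w → ∀ A : Matrix (Fin 2) (Fin 2) ℝ, A.det = Complex.normSq β →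
  ¬ Pool.Agent.Helper54.WavS.HasRationalPower A

/-- **SC** (scalar matrices; hypothesis `hn : StNR`).  As `scalar_nrp` and `scalar_exps` (file `Pool/Agent/Helper56/FM/Fin.lean`); `t ≠ 0` because `u ≠ 0` (`x = 0` is not a root). -/
def StSC : Prop := ∀ v w u t β, Cub v w u t β → (∀ x : ℚ, x ^ 3 + v * x ^ 2 + w * x ≠ u) →
  0 < v * t + w → ¬ Pool.Agent.Helper54.WavS.HasRationalPower (t • (1 : Matrix (Fin 2) (Fin 2) ℝ)) ∧
  ∀ j : ℤ, j ≠ 0 → j ∉ WavN.Exps (t • (1 : Matrix (Fin 2) (Fin 2) ℝ))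

/-- **EX** (explicit matrices; hypothesis `hr : StRF`).  As `m_EX` (file `Pool/Agent/Helper56/FM/M_EX.lean`). -/
def StEX : Prop := ∀ v w u t β, Cub v w u t β → v ^ 2 < 3 * w → 1 < t ^ 2 + v * t + w →
  Wav.Expansive (!![-(v + t), -(t ^ 2 + v * t + w); 1, 0] : Matrix (Fin 2) (Fin 2) ℝ) ∧
  (!![-(v + t), -(t ^ 2 + v * t + w); 1, 0] : Matrix (Fin 2) (Fin 2) ℝ) ^ 3 +
    (v : ℝ) • !![-(v + t), -(t ^ 2 + v * t + w); 1, 0] ^ 2 +
    (w : ℝ) • !![-(v + t), -(t ^ 2 + v * t + w); 1, 0] =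
      (u : ℝ) • (1 : Matrix (Fin 2) (Fin 2) ℝ) ∧
  ∃ p q : Fin 2 → ℤ, q ≠ 0 ∧
    zv p = (!![-(v + t), -(t ^ 2 + v * t + w); 1, 0] : Matrix (Fin 2) (Fin 2) ℝ)ᵀ *ᵥ zv q

end Pool.Agent.Helper56.FN
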