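import Pool.Agent.Helper56.FN.Fml

/-!
# Project FN, module BP: tests at the base point are correct near the base point
-/

set_option autoImplicit false

open Set Filter Topology Matrix
open Pool.Agent.Helper54.Wav

noncomputable section

namespace Pool.Agent.Helper56.FN

open Pool.Agent.Helper54.TRI
open Pool.Agent.Helper56.FM (Ops Sound Rf Tr trv sh1 eqr ZF eqf sides cyc cancel sgI sgD crossz sT Gq)

/-! ### Continuity of the evaluation -/

theorem BP_lev_cont {Θ α : Type} [TopologicalSpace Θ] (e : Θ → α → ℂ) (x : Θ → ℂ)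
    (he : ∀ a, Continuous fun θ => e θ a) (hx : Continuous x) (p : List α) :
    Continuous fun θ => lev (e θ) (x θ) p := by
  induction p with
  | nil => exact continuous_const
  | cons a p ih => exact (he a).add (hx.mul ih)

theorem BP_e1_cont {Θ : Type} [TopologicalSpace Θ] (u : Θ → ℂ) (hu : Continuous u) (p : P1) :
    Continuous fun θ => e1 (u θ) p :=
  BP_lev_cont (fun _ (c : ℤ) => (c : ℂ)) u (fun _ => continuous_const) hu p

theorem BP_e2_cont {Θ : Type} [TopologicalSpace Θ] (w u : Θ → ℂ) (hw : Continuous w)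
    (hu : Continuous u) (p : P2) : Continuous fun θ => e2 (w θ) (u θ) p :=
  BP_lev_cont (fun θ (c : P1) => e1 (u θ) c) w (fun a => BP_e1_cont u hu a) hw p

theorem BP_e3_cont {Θ : Type} [TopologicalSpace Θ] (v w u : Θ → ℂ) (hv : Continuous v)
    (hw : Continuous w) (hu : Continuous u) (p : P3) :
    Continuous fun θ => e3 (v θ) (w θ) (u θ) p :=
  BP_lev_cont (fun θ (c : P2) => e2 (w θ) (u θ) c) v (fun a => BP_e2_cont w u hw hu a) hv p

theorem BP_evp_cont (x : F3) :
    Continuous fun θ : ℂ × ℂ × ℂ × ℂ => evp θ.1 θ.2.1 θ.2.2.1 θ.2.2.2 x := by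
  have h1 : Continuous fun θ : ℂ × ℂ × ℂ × ℂ => θ.1 := continuous_fst
  have h2 : Continuous fun θ : ℂ × ℂ × ℂ × ℂ => θ.2.1 := continuous_fst.comp continuous_snd
  have h3 : Continuous fun θ : ℂ × ℂ × ℂ × ℂ => θ.2.2.1 :=
    continuous_fst.comp (continuous_snd.comp continuous_snd)
  have h4 : Continuous fun θ : ℂ × ℂ × ℂ × ℂ => θ.2.2.2 :=
    continuous_snd.comp (continuous_snd.comp continuous_snd)
  exact ((BP_e3_cont _ _ _ h1 h2 h3 x.1).add ((BP_e3_cont _ _ _ h1 h2 h3 x.2.1).mul h4)).add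
    ((BP_e3_cont _ _ _ h1 h2 h3 x.2.2).mul (h4.pow 2))

/-! ### Values at rational points -/

theorem BP_r1 (u : ℚ) (p : P1) : e1 (u : ℂ) p = ((r1 u p : ℚ) : ℂ) := by
  induction p with
  | nil => simp [e1, lev, r1]
  | cons c p ih =>
    have h : e1 (u : ℂ) (c :: p) = (c : ℂ) + (u : ℂ) * e1 (u : ℂ) p := rfl
    rw [h, ih, r1]
    push_cast
    rfl

theorem BP_r2 (w u : ℚ) (p : P2) : e2 (w : ℂ) (u : ℂ) p = ((r2 w u p : ℚ) : ℂ) := by
  induction p with
  | nil => simp [e2, lev, r2]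
  | cons c p ih =>
    have h : e2 (w : ℂ) (u : ℂ) (c :: p) = e1 (u : ℂ) c + (w : ℂ) * e2 (w : ℂ) (u : ℂ) p := rfl
    rw [h, ih, BP_r1, r2]
    push_cast
    rfl

theorem BP_r3 (v w u : ℚ) (p : P3) : e3 (v : ℂ) (w : ℂ) (u : ℂ) p = ((r3 v w u p : ℚ) : ℂ) := by
  induction p with
  | nil => simp [e3, lev, r3]
  | cons c p ih =>
    have h : e3 (v : ℂ) (w : ℂ) (u : ℂ) (c :: p) =
      e2 (w : ℂ) (u : ℂ) c + (v : ℂ) * e3 (v : ℂ) (w : ℂ) (u : ℂ) p := rfl
    rw [h, ih, BP_r2, r3]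
    push_cast
    rfl

/-! ### Differences -/

theorem BP_lev_add {α K : Type} [CommRing K] (e : α → K) (x : K) (f : α → α → α)
    (hf : ∀ a b, e (f a b) = e a + e b) (p q : List α) :
    lev e x (ladd f p q) = lev e x p + lev e x q := by
  induction p generalizing q with
  | nil => rw [ladd]; simp [lev]
  | cons a p ih =>
    cases q with
    | nil => rw [ladd]; simp [lev]
    | cons b q =>
      rw [ladd]
      simp only [lev]
      rw [hf, ih]
      ring

theorem BP_lev_map {α K : Type} [CommRing K] (e : α → K) (x : K) (g : α → α)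
    (hg : ∀ a, e (g a) = - e a) (p : List α) : lev e x (p.map g) = - lev e x p := by
  induction p with
  | nil => simp [lev]
  | cons a p ih =>
    rw [List.map_cons]
    simp only [lev]
    rw [hg, ih]
    ring

theorem BP_a3 {K : Type} [CommRing K] (v w u : K) (p q : P3) :
    e3 v w u (a3 p q) = e3 v w u p + e3 v w u q :=
  BP_lev_add _ v _ (BP_lev_add _ w _ (BP_lev_add _ u _ (fun a b => by push_cast; rfl))) p q

theorem BP_n3 {K : Type} [CommRing K] (v w u : K) (p : P3) :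
    e3 v w u (n3 p) = - e3 v w u p :=
  BP_lev_map _ v _ (BP_lev_map _ w _ (BP_lev_map _ u _ (fun a => by push_cast; rfl))) p

theorem BP_fsub (v w u β : ℂ) (x y : F3) : evp v w u β (fsub x y) = evp v w u β x - evp v w u β y := by
  simp only [evp, fsub, BP_a3, BP_n3]
  ring

/-! ### The root at the base point -/

theorem BP_disc {V W T : ℝ} (h : V ^ 2 < 3 * W) : 0 < T ^ 2 + V * T + W - (V + T) ^ 2 / 4 := by
  nlinarith [sq_nonneg (3 * T + V)]

theorem BP_im {V W T : ℝ} (h : V ^ 2 < 3 * W) : (bt V W T).im < 0 := by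
  have h1 : (bt V W T).im = - Real.sqrt (T ^ 2 + V * T + W - (V + T) ^ 2 / 4) := rfl
  rw [h1, neg_lt_zero]
  exact Real.sqrt_pos.2 (BP_disc h)

theorem BP_sq {V W T : ℝ} (h : V ^ 2 < 3 * W) :
    bt V W T ^ 2 = -((V : ℂ) + (T : ℂ)) * bt V W T - ((T : ℂ) ^ 2 + (V : ℂ) * (T : ℂ) + (W : ℂ)) := by
  have hre : (bt V W T).re = -(V + T) / 2 := rfl
  have him : (bt V W T).im = - Real.sqrt (T ^ 2 + V * T + W - (V + T) ^ 2 / 4) := rfl
  have hs := Real.mul_self_sqrt (BP_disc (T := T) h).le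
  have hR : ((V : ℂ) + (T : ℂ)) = ((V + T : ℝ) : ℂ) := by push_cast; rfl
  have hR2 : ((T : ℂ) ^ 2 + (V : ℂ) * (T : ℂ) + (W : ℂ)) = ((T ^ 2 + V * T + W : ℝ) : ℂ) := by
    push_cast; rfl
  rw [hR, hR2]
  apply Complex.ext
  · rw [pow_two, Complex.mul_re, Complex.sub_re, ← Complex.ofReal_neg, Complex.re_ofReal_mul,
      Complex.ofReal_re, hre, him]
    nlinarith [hs]
  · rw [pow_two, Complex.mul_im, Complex.sub_im, ← Complex.ofReal_neg, Complex.im_ofReal_mul,
      Complex.ofReal_im, hre, him]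
    ring

/-- Value at the base point. -/
theorem BP_val {V W T : ℚ} (h : V ^ 2 < 3 * W) (x : F3) :
    evp (V : ℂ) (W : ℂ) ((uu V W T : ℝ) : ℂ) (bt V W T) x =
      (((bc V W T x).1 : ℝ) : ℂ) + (((bc V W T x).2 : ℝ) : ℂ) * bt V W T := by
  have hR : (V : ℝ) ^ 2 < 3 * (W : ℝ) := by exact_mod_cast h
  have hu : ((uu V W T : ℝ) : ℂ) = ((T ^ 3 + V * T ^ 2 + W * T : ℚ) : ℂ) := by
    unfold uu
    push_cast
    rfl
  have hsq := BP_sq (T := (T : ℝ)) hR
  simp only [Complex.ofReal_ratCast] at hsq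
  rw [evp, hu, BP_r3, BP_r3, BP_r3, hsq]
  simp only [bc]
  push_cast
  ring

/-- Orientation of two combinations. -/
theorem BP_or (β : ℂ) (a b c d : ℝ) :
    ((starRingEnd ℂ) ((c : ℂ) + (d : ℂ) * β) * ((a : ℂ) + (b : ℂ) * β)).im =
      (c * b - d * a) * β.im := by
  simp only [Complex.mul_im, Complex.conj_re, Complex.conj_im, Complex.add_re, Complex.add_im,
    Complex.mul_re, Complex.ofReal_re, Complex.ofReal_im]
  ring

theorem BP_ht {x y : ℂ} (h : 0 < ((starRingEnd ℂ) y * x).im) : y ≠ 0 ∧ 0 < (x / y).im := by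
  have hne : y ≠ 0 := by
    intro h0
    rw [h0] at h
    simp at h
  refine ⟨hne, ?_⟩
  have h6 : x / y = ((starRingEnd ℂ) y * x) / ((Complex.normSq y : ℝ) : ℂ) := by
    rw [Complex.normSq_eq_conj_mul_self]
    have hne' : (starRingEnd ℂ) y ≠ 0 := by
      rwa [Ne, map_eq_zero]
    field_simp
  rw [h6, Complex.div_ofReal_im]
  exact div_pos h (Complex.normSq_pos.2 hne)

theorem m_BP : StBP := by
  intro V W T h
  have hR : (V : ℝ) ^ 2 < 3 * (W : ℝ) := by exact_mod_cast h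
  have him := BP_im (T := (T : ℝ)) hR
  constructor
  · intro p q r hp
    have hp' : 0 < (bc V W T (fsub r p)).1 * (bc V W T (fsub q p)).2 -
        (bc V W T (fsub r p)).2 * (bc V W T (fsub q p)).1 := of_decide_eq_true hp
    have hp2 : (0 : ℝ) < ((bc V W T (fsub r p)).1 : ℝ) * ((bc V W T (fsub q p)).2 : ℝ) -
        ((bc V W T (fsub r p)).2 : ℝ) * ((bc V W T (fsub q p)).1 : ℝ) := by exact_mod_cast hp'
    have h1 := BP_val (T := T) h (fsub r p)
    have h2 := BP_val (T := T) h (fsub q p)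
    rw [BP_fsub] at h1 h2
    have h3 := BP_or (bt V W T) ((bc V W T (fsub r p)).1 : ℝ) ((bc V W T (fsub r p)).2 : ℝ)
      ((bc V W T (fsub q p)).1 : ℝ) ((bc V W T (fsub q p)).2 : ℝ)
    rw [← h1, ← h2] at h3
    have h4 := BP_ht (h3 ▸ (by nlinarith :
      0 < (((bc V W T (fsub q p)).1 : ℝ) * ((bc V W T (fsub r p)).2 : ℝ) -
        ((bc V W T (fsub q p)).2 : ℝ) * ((bc V W T (fsub r p)).1 : ℝ)) * (bt V W T).im))
    have hc : ContinuousAt (fun θ : ℂ × ℂ × ℂ × ℂ =>
        ht (evp θ.1 θ.2.1 θ.2.2.1 θ.2.2.2 p) (evp θ.1 θ.2.1 θ.2.2.1 θ.2.2.2 q)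
          (evp θ.1 θ.2.1 θ.2.2.1 θ.2.2.2 r))
        ((V : ℂ), (W : ℂ), ((uu V W T : ℝ) : ℂ), bt V W T) := by
      unfold ht
      exact Complex.continuous_im.continuousAt.comp
        (((BP_evp_cont r).sub (BP_evp_cont p)).continuousAt.div
          ((BP_evp_cont q).sub (BP_evp_cont p)).continuousAt h4.1)
    exact hc.eventually (lt_mem_nhds h4.2)
  · intro x hx
    have hx' : bc V W T x ≠ (0, 0) := of_decide_eq_true hx
    refine (BP_evp_cont x).continuousAt.eventually_ne ?_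
    show evp (V : ℂ) (W : ℂ) ((uu V W T : ℝ) : ℂ) (bt V W T) x ≠ 0
    rw [BP_val h]
    intro h0
    have hi := congrArg Complex.im h0
    have hr := congrArg Complex.re h0
    rw [Complex.add_im, Complex.ofReal_im, Complex.im_ofReal_mul, zero_add, Complex.zero_im,
      mul_eq_zero] at hi
    have hb : ((bc V W T x).2 : ℝ) = 0 := hi.resolve_right him.ne
    rw [Complex.add_re, Complex.ofReal_re, Complex.re_ofReal_mul, hb, zero_mul, add_zero,
      Complex.zero_re] at hr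
    apply hx'
    ext
    · exact_mod_cast hr
    · exact_mod_cast hb

end Pool.Agent.Helper56.FN
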