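import Pool.Agent.Helper56.FN.Fml

set_option autoImplicit false

open Set Filter Topology Matrix
open Pool.Agent.Helper54.Wav

noncomputable section

namespace Pool.Agent.Helper56.FN

open Pool.Agent.Helper54.TRI
open Pool.Agent.Helper56.FM (Ops Sound Rf Tr trv sh1 eqr ZF eqf sides cyc cancel sgI sgD crossz sT Gq)

theorem m_BT : StBT := by
  refine ⟨?_, ?_⟩
  · have e : (fun x : ℝ × ℝ × ℝ => bt x.1 x.2.1 x.2.2) = fun x : ℝ × ℝ × ℝ =>
        Complex.equivRealProdCLM.symm (-(x.1 + x.2.2) / 2,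
          - Real.sqrt (x.2.2 ^ 2 + x.1 * x.2.2 + x.2.1 - (x.1 + x.2.2) ^ 2 / 4)) := by
      funext x
      apply Complex.ext <;> simp [bt]
    rw [e]
    refine Complex.equivRealProdCLM.symm.continuous.comp ?_
    refine Continuous.prodMk (by fun_prop) ?_
    refine (Real.continuous_sqrt.comp ?_).neg
    fun_prop
  · intro v w u t h hu
    have hR : (v : ℝ) ^ 2 < 3 * (w : ℝ) := by exact_mod_cast h
    set R : ℝ := t ^ 2 + (v : ℝ) * t + w - ((v : ℝ) + t) ^ 2 / 4 with hRdef
    have hpos : 0 < R := by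
      rw [hRdef]
      nlinarith [sq_nonneg (3 * t + (v : ℝ))]
    set s : ℝ := Real.sqrt R with hs
    have hs2 : s ^ 2 = R := Real.sq_sqrt hpos.le
    have hs0 : 0 < s := Real.sqrt_pos.2 hpos
    have hβ : (starRingEnd ℂ) (bt v w t) = (((-((v : ℝ) + t) / 2 : ℝ)) : ℂ) + (s : ℂ) * Complex.I := by
      apply Complex.ext
      · simp [bt]
      · simp [bt, hs, hRdef]
    refine ⟨hu, ?_, ?_⟩
    · rw [hβ]
      have hsC : (s : ℂ) ^ 2 = (t : ℂ) ^ 2 + (v : ℂ) * t + w - ((v : ℂ) + t) ^ 2 / 4 := by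
        have := congrArg (fun x : ℝ => (x : ℂ)) hs2
        simp only [hRdef] at this
        push_cast at this
        exact this
      have huC : (t : ℂ) ^ 3 + (v : ℂ) * (t : ℂ) ^ 2 + (w : ℂ) * t = (u : ℂ) := by
        have := congrArg (fun x : ℝ => (x : ℂ)) hu
        simp only [uu] at this
        push_cast at this
        exact this
      rw [← huC]
      set b : ℂ := (((-((v : ℝ) + t) / 2 : ℝ)) : ℂ) + (s : ℂ) * Complex.I with hb
      have hq : b ^ 2 + ((v : ℂ) + t) * b + ((t : ℂ) ^ 2 + v * t + w) = 0 := by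
        have hb' : b = -((v : ℂ) + t) / 2 + (s : ℂ) * Complex.I := by
          rw [hb]; push_cast; ring
        have h2 : ((s : ℂ) * Complex.I) ^ 2 = -(s : ℂ) ^ 2 := by
          rw [mul_pow, Complex.I_sq]; ring
        have : b ^ 2 + ((v : ℂ) + t) * b + ((t : ℂ) ^ 2 + v * t + w) =
            ((s : ℂ) * Complex.I) ^ 2 + ((t : ℂ) ^ 2 + (v : ℂ) * t + w - ((v : ℂ) + t) ^ 2 / 4) := by
          rw [hb']; ring
        rw [this, h2, hsC]; ring
      linear_combination (b - (t : ℂ)) * hq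
    · rw [hβ]
      simp [hs0]

end Pool.Agent.Helper56.FN
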