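import Pool.Agent.Helper56.FN.Fml

/-!
# Project FN, module EX: explicit matrices
-/

set_option autoImplicit false

open Set Filter Topology Matrix
open Pool.Agent.Helper54.Wav

noncomputable section

namespace Pool.Agent.Helper56.FN

open Pool.Agent.Helper54.TRI
open Pool.Agent.Helper56.FM (Ops Sound Rf Tr trv sh1 eqr ZF eqf sides cyc cancel sgI sgD crossz sT Gq)

private theorem exp_EX (v w t : ℝ) (h : v ^ 2 < 3 * w) (h1 : 1 < t ^ 2 + v * t + w) :
    Wav.Expansive (!![-(v + t), -(t ^ 2 + v * t + w); 1, 0] : Matrix (Fin 2) (Fin 2) ℝ) := by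
  intro z hz
  rw [Matrix.mem_spectrum_iff_isRoot_charpoly, Matrix.charpoly_fin_two] at hz
  simp only [Polynomial.IsRoot.def, Polynomial.eval_add, Polynomial.eval_sub, Polynomial.eval_pow,
    Polynomial.eval_X, Polynomial.eval_mul, Polynomial.eval_C, Matrix.trace_fin_two,
    Matrix.det_fin_two, Matrix.map_apply, Complex.coe_algebraMap] at hz
  simp at hz
  have hre := congrArg Complex.re hz
  have him := congrArg Complex.im hz
  simp [pow_two] at hre him
  have hy : z.im ≠ 0 := by
    intro hy
    rw [hy] at hre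
    have h5 : 0 ≤ (z.re + (v + t) / 2) ^ 2 := sq_nonneg _
    have h6 : 0 ≤ (t + v / 3) ^ 2 := sq_nonneg _
    nlinarith
  have hx : 2 * z.re = -(v + t) := by
    have : z.im * (2 * z.re + (v + t)) = 0 := by linarith
    rcases mul_eq_zero.1 this with h | h
    · exact absurd h hy
    · linarith
  have hn : z.re * z.re + z.im * z.im = t ^ 2 + v * t + w := by
    linear_combination (-1) * hre + z.re * hx
  have h8 : 1 < ‖z‖ ^ 2 := by
    rw [← Complex.normSq_eq_norm_sq, Complex.normSq_apply, hn]
    exact h1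
  by_contra h9
  have h10 : ‖z‖ ≤ 1 := not_lt.1 h9
  nlinarith [norm_nonneg z]

theorem m_EX (_hr : StRF) : StEX := by
  intro v w u t β h hvw h1
  have hvw' : (v : ℝ) ^ 2 < 3 * (w : ℝ) := by exact_mod_cast hvw
  refine ⟨exp_EX v w t hvw' h1, ?_, ![1, 0], ![0, 1], ?_, ?_⟩
  · have h2 := h.real
    ext i j
    fin_cases i <;> fin_cases j <;>
      simp [pow_succ]
    · linear_combination h2
    · ring
    · ring
    · linear_combination h2
  · intro h0
    have := congrFun h0 1
    simp at this
  · ext i
    fin_cases i <;> simp [Pool.Agent.Helper54.Wav.zv, Matrix.mulVec, dotProduct, Fin.sum_univ_two]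

end Pool.Agent.Helper56.FN
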