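import Pool.Agent.Helper56.FN.St

/-!
# Project FN, module GG: the geometric part of a good cluster
-/

set_option autoImplicit false

open Set Filter Topology

noncomputable section

namespace Pool.Agent.Helper56.FN

open Pool.Agent.Helper54.TRI
open Pool.Agent.Helper56.FM (Ops Sound Rf Tr trv sh1 eqr ZF eqf sides cyc cancel sgI sgD crossz sT StVL StTL)

private theorem neg_GG {p q : ℂ} (h : 0 < ht 0 q p) : ht p q 0 < 0 := by
  unfold ht at h ⊢
  rw [sub_zero, sub_zero] at h
  have hq : q ≠ 0 := by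
    rintro rfl
    simp at h
  set z := p / q with hz
  have h1 : (1 : ℂ) - z ≠ 0 := by
    intro h2
    have h3 := congrArg Complex.im h2
    simp only [Complex.sub_im, Complex.one_im, Complex.zero_im, zero_sub, neg_eq_zero] at h3
    rw [h3] at h
    exact lt_irrefl _ h
  have h2 : (0 - p) / (q - p) = 1 - (1 - z)⁻¹ := by
    have h4 : p = z * q := by rw [hz, div_mul_cancel₀ _ hq]
    have h5 : q - z * q ≠ 0 := by
      have : q - z * q = (1 - z) * q := by ring
      rw [this]
      exact mul_ne_zero h1 hq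
    rw [h4]
    field_simp
    ring
  have h6 : 0 < Complex.normSq (1 - z) := Complex.normSq_pos.2 h1
  rw [h2, Complex.sub_im, Complex.one_im, Complex.inv_im, Complex.sub_im, Complex.one_im, zero_sub,
    zero_sub, neg_neg, neg_lt_zero]
  exact div_pos h h6

private theorem data_GG {Q : Type} (M : Ops Q) (e : Q → ℂ) (hz : ∀ u v, e (M.sub u v) = e u - e v)
    (X : Cert Q) (c : CD) : (X.clus M e c).n = c.n ∧ (X.clus M e c).P = X.ptr M e (c.tr 0) ∧
      ∀ a : Fin (X.clus M e c).n, (X.clus M e c).w a = e (X.wz M c a.val) := by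
  have h0 : ∀ c : CD, e (X.wz M c 0) = 0 := by
    intro c
    unfold Cert.wz
    rw [hz, sub_self]
  cases c with
  | P t =>
    refine ⟨rfl, rfl, fun a => ?_⟩
    have ha : a.val = 0 := by
      have : a.val < 1 := a.2
      omega
    rw [ha, h0]
    rfl
  | W s t0 t1 =>
    refine ⟨rfl, rfl, fun a => ?_⟩
    have ha : a.val < 2 := a.2
    obtain ⟨a, ha'⟩ := a
    interval_cases a
    · rw [h0]
      rfl
    · rfl
  | T t0 t1 t2 t3 => exact ⟨rfl, rfl, fun a => rfl⟩
  | E t0 t1 t2 => exact ⟨rfl, rfl, fun a => rfl⟩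

theorem m_GG : StGG := by
  intro Q M β e Γ hM X c hok
  have hz := hM.sub
  obtain ⟨hn, hP, hw⟩ := data_GG M e hz X c
  unfold Cert.okG at hok
  rw [Bool.and_eq_true, List.all_eq_true] at hok
  obtain ⟨hpos, hall⟩ := hok
  have hall' : ∀ a < c.n,
      e (X.vz M (c.tr a).2.1) - e (X.vz M (c.tr 0).2.1) = e (X.wz M c a) ∧
      e (X.vz M (c.tr a).2.2) - e (X.vz M (c.tr 0).2.2) = e (X.wz M c a) ∧
      (M.pos M.zero (X.vz M (c.tr a).2.1) (X.vz M (c.tr a).1) = true ∨
      M.pos M.zero (X.vz M (c.tr a).2.2) (X.vz M (c.tr a).2.1) = true ∨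
      M.pos M.zero (X.vz M (c.tr a).1) (X.vz M (c.tr a).2.2) = true) := by
    intro a ha
    have h := hall a (List.mem_range.2 ha)
    simp only [Bool.and_eq_true, Bool.or_eq_true] at h
    obtain ⟨h1, h2, h3⟩ := h
    have e1 := hM.isz _ h1
    have e2 := hM.isz _ h2
    rw [hz, hz] at e1 e2
    exact ⟨sub_eq_zero.1 e1, sub_eq_zero.1 e2, h3⟩
  have h0 : ∀ t : Tr, X.ptr M e t 0 = e (X.vz M t.1) := fun t => rfl
  have h1 : ∀ t : Tr, X.ptr M e t 1 = e (X.vz M t.2.1) := fun t => rfl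
  have h2 : ∀ t : Tr, X.ptr M e t 2 = e (X.vz M t.2.2) := fun t => rfl
  have htr : ∀ (a : Fin (X.clus M e c).n) (s : Fin 3),
      (X.clus M e c).P s + (X.clus M e c).w a = X.ptr M e (c.tr a.val) s := by
    intro a s
    have ha : a.val < c.n := by
      rw [← hn]
      exact a.2
    obtain ⟨e1, e2, -⟩ := hall' a.val ha
    rw [hP, hw]
    fin_cases s
    · show X.ptr M e (c.tr 0) 0 + _ = X.ptr M e (c.tr a.val) 0
      rw [h0, h0]
      unfold Cert.wz
      rw [hz]
      ring
    · show X.ptr M e (c.tr 0) 1 + _ = X.ptr M e (c.tr a.val) 1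
      rw [h1, h1, ← e1]
      ring
    · show X.ptr M e (c.tr 0) 2 + _ = X.ptr M e (c.tr a.val) 2
      rw [h2, h2, ← e2]
      ring
  refine ⟨hn, ?_, htr, ?_⟩
  · rw [hP]
    unfold Pos
    rw [h0, h1, h2]
    exact hM.pos _ _ _ hpos
  · intro a hmem
    have ha : a.val < c.n := by
      rw [← hn]
      exact a.2
    obtain ⟨-, -, e3⟩ := hall' a.val ha
    have hfun : (fun s => (X.clus M e c).P s + (X.clus M e c).w a) = X.ptr M e (c.tr a.val) :=
      funext fun s => htr a s
    rw [hfun] at hmem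
    rcases e3 with h | h | h
    · have h3 := hM.pos _ _ _ h
      rw [hM.zero] at h3
      have h4 := neg_GG h3
      have h5 : 0 ≤ ht (X.ptr M e (c.tr a.val) 0) (X.ptr M e (c.tr a.val) 1) 0 := hmem 0
      rw [h0, h1] at h5
      exact absurd h4 (not_lt.2 h5)
    · have h3 := hM.pos _ _ _ h
      rw [hM.zero] at h3
      have h4 := neg_GG h3
      have h5 : 0 ≤ ht (X.ptr M e (c.tr a.val) 1) (X.ptr M e (c.tr a.val) 2) 0 := hmem 1
      rw [h1, h2] at h5
      exact absurd h4 (not_lt.2 h5)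
    · have h3 := hM.pos _ _ _ h
      rw [hM.zero] at h3
      have h4 := neg_GG h3
      have h5 : 0 ≤ ht (X.ptr M e (c.tr a.val) 2) (X.ptr M e (c.tr a.val) 0) 0 := hmem 2
      rw [h2, h0] at h5
      exact absurd h4 (not_lt.2 h5)

end Pool.Agent.Helper56.FN
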