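import Pool.Agent.Helper56.FN.Fml

/-!
# Project FN, module NH : a certificate checked at the base point is valid near it
-/

set_option autoImplicit false

open Set Filter Topology Matrix
open Pool.Agent.Helper54.Wav

noncomputable section

namespace Pool.Agent.Helper56.FN

open Pool.Agent.Helper54.TRI
open Pool.Agent.Helper56.FM (Ops Sound Rf Tr trv sh1 eqr ZF eqf sides cyc cancel sgI sgD crossz sT Gq)

section

variable {Θ : Type} {l : Filter Θ}

private theorem ev_and {a b : Bool} {a' b' : Θ → Bool} (ha : a = true → ∀ᶠ θ in l, a' θ = true)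
    (hb : b = true → ∀ᶠ θ in l, b' θ = true) :
    (a && b) = true → ∀ᶠ θ in l, (a' θ && b' θ) = true := by
  intro h
  rw [Bool.and_eq_true] at h
  filter_upwards [ha h.1, hb h.2] with θ h1 h2
  rw [h1, h2]
  rfl

private theorem ev_or {a b : Bool} {a' b' : Θ → Bool} (ha : a = true → ∀ᶠ θ in l, a' θ = true)
    (hb : b = true → ∀ᶠ θ in l, b' θ = true) :
    (a || b) = true → ∀ᶠ θ in l, (a' θ || b' θ) = true := by
  intro h
  rw [Bool.or_eq_true] at h
  rcases h with h | h
  · filter_upwards [ha h] with θ h1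
    rw [h1, Bool.true_or]
  · filter_upwards [hb h] with θ h1
    rw [h1, Bool.or_true]

private theorem ev_all {ι : Type} {L : List ι} {f : ι → Bool} {f' : Θ → ι → Bool}
    (h : ∀ x ∈ L, f x = true → ∀ᶠ θ in l, f' θ x = true) :
    L.all f = true → ∀ᶠ θ in l, L.all (f' θ) = true := by
  intro h0
  rw [List.all_eq_true] at h0
  have h1 := (Filter.eventually_all_finite (List.finite_toSet L)).2
    (fun x (hx : x ∈ L) => h x hx (h0 x hx))
  filter_upwards [h1] with θ hθ
  rw [List.all_eq_true]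
  exact hθ

private theorem ev_c {a : Bool} : a = true → ∀ᶠ _ in l, a = true :=
  fun h => Eventually.of_forall fun _ => h

end

section

variable {Q Θ : Type} {M : Ops Q} {l : Filter Θ} {e : Θ → Q → ℂ}

private theorem hp' (hpos : ∀ p q r, M.pos p q r = true → ∀ᶠ θ in l, 0 < ht (e θ p) (e θ q) (e θ r))
    (p q r : Q) (h : M.pos p q r = true) :
    ∀ᶠ θ in l, (exOps M (e θ)).pos p q r = true := by
  filter_upwards [hpos p q r h] with θ hθ
  exact decide_eq_true hθ

private theorem hn' (hnz : ∀ v, M.nz v = true → ∀ᶠ θ in l, e θ v ≠ 0) (v : Q)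
    (h : M.nz v = true) : ∀ᶠ θ in l, (exOps M (e θ)).nz v = true := by
  filter_upwards [hnz v h] with θ hθ
  exact decide_eq_true hθ

private theorem ht_neg {p q x : ℂ} (h : 0 < ht p x q) : ¬ 0 < ht p q x := by
  unfold ht at h ⊢
  have h1 : (x - p) / (q - p) = ((q - p) / (x - p))⁻¹ := by rw [inv_div]
  rw [h1, Complex.inv_im, not_lt]
  have h2 : 0 ≤ ((q - p) / (x - p)).im / Complex.normSq ((q - p) / (x - p)) :=
    div_nonneg h.le (Complex.normSq_nonneg _)
  rw [neg_div]
  linarith

private theorem ev_sg (hpos : ∀ p q r, M.pos p q r = true → ∀ᶠ θ in l, 0 < ht (e θ p) (e θ q) (e θ r))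
    (p q : Q) (h : sgD M p q ≠ 0) : ∀ᶠ θ in l, sgD (exOps M (e θ)) p q = sgD M p q := by
  by_cases h1 : M.pos M.zero p q = true
  · filter_upwards [hp' hpos _ _ _ h1] with θ hθ
    unfold sgD
    rw [if_pos h1]
    exact if_pos hθ
  · have h2 : M.pos M.zero q p = true := by
      by_contra h3
      apply h
      unfold sgD
      rw [if_neg h1, if_neg h3]
    filter_upwards [hpos _ _ _ h2] with θ hθ
    unfold sgD
    rw [if_neg h1, if_pos h2]
    have h4 : ¬ (exOps M (e θ)).pos (exOps M (e θ)).zero p q = true := by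
      intro h5
      exact ht_neg hθ (of_decide_eq_true h5)
    have h6 : (exOps M (e θ)).pos (exOps M (e θ)).zero q p = true := decide_eq_true hθ
    rw [if_neg h4, if_pos h6]

private theorem sgI_eq (M : Ops Q) (v : Q) : sgI M v = sgD M M.one v := rfl

private theorem ev_sgI (hpos : ∀ p q r, M.pos p q r = true → ∀ᶠ θ in l, 0 < ht (e θ p) (e θ q) (e θ r))
    (v : Q) (h : sgI M v ≠ 0) : ∀ᶠ θ in l, sgI (exOps M (e θ)) v = sgI M v := by
  rw [sgI_eq] at h
  filter_upwards [ev_sg hpos M.one v h] with θ hθ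
  exact hθ

private theorem ev_okG (hpos : ∀ p q r, M.pos p q r = true → ∀ᶠ θ in l, 0 < ht (e θ p) (e θ q) (e θ r))
    (X : Cert Q) (c : CD) :
    X.okG M c = true → ∀ᶠ θ in l, X.okG (exOps M (e θ)) c = true := by
  unfold Cert.okG
  refine ev_and (hp' hpos _ _ _) (ev_all fun a _ => ev_and ev_c (ev_and ev_c
    (ev_or (hp' hpos _ _ _) (ev_or (hp' hpos _ _ _) (hp' hpos _ _ _)))))

private theorem ev_okL (hnz : ∀ v, M.nz v = true → ∀ᶠ θ in l, e θ v ≠ 0)
    (X : Cert Q) (c : CD) :
    X.okL M c = true → ∀ᶠ θ in l, X.okL (exOps M (e θ)) c = true := by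
  cases c with
  | P t => exact ev_c
  | W e0 t0 t1 =>
    unfold Cert.okL
    exact ev_and ev_c (ev_and ev_c (ev_and (hn' hnz _) ev_c))
  | T t0 t1 t2 t3 =>
    unfold Cert.okL
    refine ev_and ev_c (ev_and ?_ ev_c)
    intro h
    have h1 := of_decide_eq_true h
    have h2 : ∀ᶠ θ in l, ∀ a b : Fin 4, a ≠ b →
        (exOps M (e θ)).nz (M.sub (X.wz M (.T t0 t1 t2 t3) a.val)
          (X.wz M (.T t0 t1 t2 t3) b.val)) = true := by
      rw [Filter.eventually_all]
      intro a
      rw [Filter.eventually_all]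
      intro b
      rw [Filter.eventually_imp_distrib_left]
      intro hab
      exact hn' hnz _ (h1 a b hab).2
    filter_upwards [h2] with θ hθ
    refine decide_eq_true ?_
    intro a b hab
    exact ⟨(h1 a b hab).1, hθ a b hab⟩
  | E k t0 t1 t2 =>
    unfold Cert.okL
    refine ev_and ev_c (ev_and ev_c (ev_and ?_ ev_c))
    intro h
    have h1 := of_decide_eq_true h
    have h2 : ∀ᶠ θ in l, ∀ a b : Fin 3, a ≠ b →
        (exOps M (e θ)).nz (M.sub (X.wz M (.E k t0 t1 t2) a.val)
          (X.wz M (.E k t0 t1 t2) b.val)) = true := by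
      rw [Filter.eventually_all]
      intro a
      rw [Filter.eventually_all]
      intro b
      rw [Filter.eventually_imp_distrib_left]
      intro hab
      exact hn' hnz _ (h1 a b hab)
    filter_upwards [h2] with θ hθ
    refine decide_eq_true ?_
    intro a b hab
    exact hθ a b hab

private theorem cyc_fst {β : Type} (L : List β) : (cyc L).map Prod.fst = L := by
  unfold cyc
  rw [List.map_fst_zip]
  rw [List.length_append, List.length_tail, List.length_take]
  omega

private theorem cyc_snd {β : Type} (L : List β) (x : β × β) (hx : x ∈ cyc L) : x.2 ∈ L := by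
  unfold cyc at hx
  have h1 := (List.of_mem_zip (a := x.1) (b := x.2) hx).2
  rcases List.mem_append.1 h1 with h2 | h2
  · exact List.mem_of_mem_tail h2
  · exact List.mem_of_mem_take h2

private theorem cyc_mem {β : Type} (L : List β) (x : β) (hx : x ∈ L) : ∃ y ∈ cyc L, y.1 = x := by
  rw [← cyc_fst L, List.mem_map] at hx
  exact hx

private theorem ev_chkS (hpos : ∀ p q r, M.pos p q r = true → ∀ᶠ θ in l, 0 < ht (e θ p) (e θ q) (e θ r))
    (X : Cert Q) :
    X.chkS M = true → ∀ᶠ θ in l, X.chkS (exOps M (e θ)) = true := by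
  intro h
  unfold Cert.chkS at h
  rw [Bool.and_eq_true, Bool.and_eq_true, List.all_eq_true] at h
  obtain ⟨h0, h1, h2⟩ := h
  have h3 : ∀ x ∈ cyc X.seam, sgI M (X.vz M x.1) ≠ 0 ∧ sgD M (X.vz M x.1) (X.vz M x.2) ≠ 0 :=
    fun x hx => of_decide_eq_true (h1 x hx)
  have h4 : ∀ x ∈ X.seam, sgI M (X.vz M x) ≠ 0 := by
    intro x hx
    obtain ⟨y, hy, rfl⟩ := cyc_mem X.seam x hx
    exact (h3 y hy).1
  have h5 := (Filter.eventually_all_finite (List.finite_toSet X.seam)).2
    (fun x (hx : x ∈ X.seam) => ev_sgI hpos (X.vz M x) (h4 x hx))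
  have h6 := (Filter.eventually_all_finite (List.finite_toSet (cyc X.seam))).2
    (fun x (hx : x ∈ cyc X.seam) => ev_sg hpos (X.vz M x.1) (X.vz M x.2) (h3 x hx).2)
  filter_upwards [h5, h6] with θ h7 h8
  have h7' : ∀ x ∈ X.seam, sgI (exOps M (e θ)) (X.vz M x) = sgI M (X.vz M x) := fun x hx => h7 x hx
  have h8' : ∀ x ∈ cyc X.seam, sgD (exOps M (e θ)) (X.vz M x.1) (X.vz M x.2) =
      sgD M (X.vz M x.1) (X.vz M x.2) := fun x hx => h8 x hx
  have h9 : ∀ x ∈ cyc X.seam, x.1 ∈ X.seam := by
    intro x hx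
    have := List.mem_map_of_mem (f := Prod.fst) hx
    rwa [cyc_fst] at this
  unfold Cert.chkS
  rw [Bool.and_eq_true, Bool.and_eq_true, List.all_eq_true]
  refine ⟨h0, ?_, ?_⟩
  · intro x hx
    refine decide_eq_true ?_
    change sgI (exOps M (e θ)) (X.vz M x.1) ≠ 0 ∧
      sgD (exOps M (e θ)) (X.vz M x.1) (X.vz M x.2) ≠ 0
    rw [h7' x.1 (h9 x hx), h8' x hx]
    exact h3 x hx
  · refine decide_eq_true ?_
    have h10 := of_decide_eq_true h2
    rw [← h10]
    have h11 : (cyc X.seam).map (fun x => crossz (exOps M (e θ)) (X.vz (exOps M (e θ)) x.1)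
        (X.vz (exOps M (e θ)) x.2)) =
        (cyc X.seam).map (fun x => crossz M (X.vz M x.1) (X.vz M x.2)) := by
      refine List.map_congr_left ?_
      intro x hx
      change crossz (exOps M (e θ)) (X.vz M x.1) (X.vz M x.2) = _
      unfold crossz
      rw [h7' x.1 (h9 x hx), h7' x.2 (cyc_snd _ x hx), h8' x hx]
    rw [h11]

end

theorem m_NH : StNH := by
  intro Q Θ M l e hpos hnz X h
  unfold Cert.check at h ⊢
  revert h
  refine ev_and ?_ (ev_and ev_c (ev_and ev_c (ev_chkS hpos X)))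
  unfold Cert.chkG
  exact ev_all fun c _ => ev_and (ev_okG hpos X c) (ev_okL hnz X c)

end Pool.Agent.Helper56.FN
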