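import Pool.Agent.Helper56.FN.Fml

/-! Project FN, module NP: no rational power of the matrix. -/

set_option autoImplicit false

open Set Filter Topology Matrix
open Pool.Agent.Helper54.Wav

noncomputable section

namespace Pool.Agent.Helper56.FN

open Pool.Agent.Helper54.TRI
open Pool.Agent.Helper56.FM (Ops Sound Rf Tr trv sh1 eqr ZF eqf sides cyc cancel sgI sgD crossz sT Gq)

theorem m_NP (hr : StRF) (hn : StNR) : StNP := by
  intro v w u t β hC hu hvw A hdet hpow
  obtain ⟨p, M, hp, hM⟩ := hpow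
  obtain ⟨-, hnorm, -⟩ := hr v w u t β hC
  have hpos : 0 < Complex.normSq β := by
    rw [Complex.normSq_pos]
    intro h0
    have him := hC.im
    rw [h0, Complex.zero_im] at him
    exact lt_irrefl _ him
  rw [hnorm] at hpos
  have hdetM : ((M.det : ℚ) : ℝ) = (t ^ 2 + v * t + w) ^ p := by
    have h7 := congrArg Matrix.det hM
    rw [Matrix.det_pow, hdet, hnorm] at h7
    rw [h7]
    have h8 := RingHom.map_det (algebraMap ℚ ℝ) M
    rw [RingHom.mapMatrix_apply] at h8
    rw [← h8]
    rfl
  have hne : ((M.det : ℚ) : ℝ) ≠ 0 := by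
    rw [hdetM]
    exact pow_ne_zero _ hpos.ne'
  have hrs : t * (t ^ 2 + v * t + w) = (u : ℝ) := by
    rw [← hC.real]; ring
  refine (hn v w u t β hC hu hvw p hp.ne' (u ^ p / M.det)).2 ?_
  rw [Rat.cast_div, Rat.cast_pow, eq_div_iff hne, hdetM, ← mul_pow, hrs]

end Pool.Agent.Helper56.FN
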