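import Pool.Agent.Helper56.FN.Fml

/-! # Project FN: module NR (powers of the roots are not rational) -/

set_option autoImplicit false

open Set Filter Topology Matrix
open Pool.Agent.Helper54.Wav

noncomputable section

namespace Pool.Agent.Helper56.FN

open Pool.Agent.Helper54.TRI

/-- the cubic polynomial -/
private def fNR (v w u : ℚ) : Polynomial ℚ :=
  Polynomial.X ^ 3 + Polynomial.C v * Polynomial.X ^ 2 + Polynomial.C w * Polynomial.X - Polynomial.C u

private theorem fNR_natDegree (v w u : ℚ) : (fNR v w u).natDegree = 3 := by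
  unfold fNR
  compute_degree!

private theorem fNR_monic (v w u : ℚ) : (fNR v w u).Monic := by
  unfold fNR
  monicity!

private theorem fNR_aeval (v w u : ℚ) (z : ℂ) :
    Polynomial.aeval z (fNR v w u) = z ^ 3 + (v : ℂ) * z ^ 2 + (w : ℂ) * z - (u : ℂ) := by
  simp [fNR]

private theorem fNR_irr (v w u : ℚ) (hx : ∀ x : ℚ, x ^ 3 + v * x ^ 2 + w * x ≠ u) :
    Irreducible (fNR v w u) := by
  rw [Polynomial.irreducible_iff_roots_eq_zero_of_degree_le_three
    (by rw [fNR_natDegree]; norm_num) (by rw [fNR_natDegree])]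
  rw [Multiset.eq_zero_iff_forall_notMem]
  intro x hmem
  have h1 := (Polynomial.mem_roots'.1 hmem).2
  have h2 : x ^ 3 + v * x ^ 2 + w * x - u = 0 := by
    simpa [fNR, Polynomial.IsRoot] using h1
  exact hx x (sub_eq_zero.1 h2)

/-- a rational power of one root is a rational power of the other one -/
private theorem fNR_transfer (v w u : ℚ) (hx : ∀ x : ℚ, x ^ 3 + v * x ^ 2 + w * x ≠ u) (a b : ℂ)
    (ha : a ^ 3 + v * a ^ 2 + w * a = (u : ℂ)) (hb : b ^ 3 + v * b ^ 2 + w * b = (u : ℂ)) (n : ℕ)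
    (q : ℚ) (h : a ^ n = (q : ℂ)) : b ^ n = (q : ℂ) := by
  have ha0 : Polynomial.aeval a (fNR v w u) = 0 := by rw [fNR_aeval, ha, sub_self]
  have hb0 : Polynomial.aeval b (fNR v w u) = 0 := by rw [fNR_aeval, hb, sub_self]
  have hm : fNR v w u = minpoly ℚ a :=
    minpoly.eq_of_irreducible_of_monic (fNR_irr v w u hx) ha0 (fNR_monic v w u)
  have hd : fNR v w u ∣ Polynomial.X ^ n - Polynomial.C q := by
    rw [hm]
    apply minpoly.dvd
    simp [h]
  obtain ⟨g, hg⟩ := hd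
  have h3 : Polynomial.aeval b (Polynomial.X ^ n - Polynomial.C q : Polynomial ℚ) = 0 := by
    rw [hg, map_mul, hb0, zero_mul]
  have h4 : b ^ n - (q : ℂ) = 0 := by simpa using h3
  exact sub_eq_zero.1 h4

theorem m_NR (hr : StRF) : StNR := by
  intro v w u t β hC hx h3 n hn q
  have hrc : (t : ℂ) ^ 3 + (v : ℂ) * (t : ℂ) ^ 2 + (w : ℂ) * (t : ℂ) = (u : ℂ) := by
    have h1 := hC.real
    have h2 : ((t ^ 3 + v * t ^ 2 + w * t : ℝ) : ℂ) = ((u : ℝ) : ℂ) := by rw [h1]
    push_cast at h2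
    exact h2
  have hns : Complex.normSq β = t ^ 2 + v * t + w := (hr v w u t β hC).2.1
  have hboth : ¬ (β ^ n = (q : ℂ) ∧ (t : ℂ) ^ n = (q : ℂ)) := by
    rintro ⟨h1, h2⟩
    have h4 : ‖β‖ ^ n = |t| ^ n := by
      have h4 : ‖β ^ n‖ = ‖(t : ℂ) ^ n‖ := by rw [h1, h2]
      rwa [norm_pow, norm_pow, Complex.norm_real, Real.norm_eq_abs] at h4
    have h5 : ‖β‖ = |t| := (pow_left_inj₀ (norm_nonneg β) (abs_nonneg t) hn).1 h4
    have h6 : Complex.normSq β = ‖β‖ ^ 2 := Complex.normSq_eq_norm_sq β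
    rw [h5, sq_abs] at h6
    rw [h6] at hns
    linarith
  constructor
  · intro h1
    exact hboth ⟨h1, fNR_transfer v w u hx β t hC.cub hrc n q h1⟩
  · intro h1
    have h2 : (t : ℂ) ^ n = (q : ℂ) := by
      have h3 : ((t ^ n : ℝ) : ℂ) = ((q : ℝ) : ℂ) := by rw [h1]
      push_cast at h3
      exact h3
    exact hboth ⟨fNR_transfer v w u hx t β hrc hC.cub n q h2, h2⟩

end Pool.Agent.Helper56.FN
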