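import Pool.Agent.Helper56.FN.Fml

set_option autoImplicit false

open Set Filter Topology Matrix
open Pool.Agent.Helper54.Wav

noncomputable section

namespace Pool.Agent.Helper56.FN

open Pool.Agent.Helper54.TRI
open Pool.Agent.Helper56.FM (Ops Sound Rf Tr trv sh1 eqr ZF eqf sides cyc cancel sgI sgD crossz sT Gq)

/-- strict monotonicity of the cubic. -/
theorem uu_lt {V W x y : ℝ} (h : V ^ 2 < 3 * W) (hxy : x < y) : uu V W x < uu V W y := by
  have e : uu V W y - uu V W x = (y - x) * (x ^ 2 + x * y + y ^ 2 + V * (x + y) + W) := by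
    unfold uu; ring
  have p : 0 < x ^ 2 + x * y + y ^ 2 + V * (x + y) + W := by
    nlinarith [sq_nonneg (x - y), sq_nonneg (3 * (x + y) + 2 * V)]
  have : 0 < uu V W y - uu V W x := by
    rw [e]; exact mul_pos (by linarith) p
  linarith

theorem m_RC : StRC := by
  intro V W T h S hS
  obtain ⟨δ, hδ, hb⟩ := Metric.mem_nhds_iff.1 hS
  set d : ℝ := δ / 2 with hd
  have hd0 : 0 < d := by positivity
  refine ⟨{x | |x.1 - V| < d ∧ |x.2.1 - W| < d ∧ uu x.1 x.2.1 (T - d) < x.2.2 ∧
    x.2.2 < uu x.1 x.2.1 (T + d)}, ?_, ?_, ?_⟩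
  · have c1 : Continuous fun x : ℝ × ℝ × ℝ => |x.1 - V| := by fun_prop
    have c2 : Continuous fun x : ℝ × ℝ × ℝ => |x.2.1 - W| := by fun_prop
    have c3 : Continuous fun x : ℝ × ℝ × ℝ => uu x.1 x.2.1 (T - d) := by
      unfold uu; fun_prop
    have c4 : Continuous fun x : ℝ × ℝ × ℝ => uu x.1 x.2.1 (T + d) := by
      unfold uu; fun_prop
    have c5 : Continuous fun x : ℝ × ℝ × ℝ => x.2.2 := by fun_prop
    exact (isOpen_lt c1 continuous_const).inter ((isOpen_lt c2 continuous_const).inter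
      ((isOpen_lt c3 c5).inter (isOpen_lt c5 c4)))
  · refine ⟨by simpa using hd0, by simpa using hd0, uu_lt h (by linarith), uu_lt h (by linarith)⟩
  · rintro ⟨v, w, u⟩ ⟨h1, h2, h3, h4⟩
    simp only at h1 h2 h3 h4
    have hc : ContinuousOn (fun t => uu v w t) (Icc (T - d) (T + d)) := by
      unfold uu; fun_prop
    obtain ⟨t, ht, hu⟩ := intermediate_value_Icc (by linarith : T - d ≤ T + d) hc
      (⟨h3.le, h4.le⟩ : u ∈ Icc (uu v w (T - d)) (uu v w (T + d)))
    refine ⟨t, hb ?_, hu⟩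
    have h5 : |t - T| ≤ d := abs_le.2 ⟨by linarith [ht.1], by linarith [ht.2]⟩
    rw [Metric.mem_ball, Prod.dist_eq, Prod.dist_eq]
    simp only [Real.dist_eq]
    have hdd : d < δ := by rw [hd]; linarith
    exact max_lt (by linarith) (max_lt (by linarith) (by linarith))

end Pool.Agent.Helper56.FN
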