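import Pool.Agent.Helper56.FN.Fml

set_option autoImplicit false

open Set Filter Topology Matrix
open Pool.Agent.Helper54.Wav

noncomputable section

namespace Pool.Agent.Helper56.FN

open Pool.Agent.Helper54.TRI
open Pool.Agent.Helper56.FM (Ops Sound Rf Tr trv sh1 eqr ZF eqf sides cyc cancel sgI sgD crossz sT Gq)

private lemma rf_quad' {v w u : ℚ} {t : ℝ} {β : ℂ} (h : Cub v w u t β) :
    β ^ 2 = -((v : ℂ) + (t : ℂ)) * β - ((t : ℂ) ^ 2 + v * t + w) := by
  have hne : β - (t : ℂ) ≠ 0 := by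
    intro h0
    have h1 : β = (t : ℂ) := sub_eq_zero.1 h0
    have h2 := h.im
    rw [h1] at h2
    simp at h2
  have hr : (t : ℂ) ^ 3 + (v : ℂ) * (t : ℂ) ^ 2 + (w : ℂ) * (t : ℂ) = (u : ℂ) := by
    have := congrArg (fun s : ℝ => (s : ℂ)) h.real
    push_cast at this
    exact this
  have hprod : (β - (t : ℂ)) * (β ^ 2 + ((v : ℂ) + (t : ℂ)) * β + ((t : ℂ) ^ 2 + v * t + w)) = 0 := by
    have h1 := h.cub
    linear_combination h1 - hr
  rcases mul_eq_zero.1 hprod with h1 | h1
  · exact absurd h1 hne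
  · linear_combination h1

theorem m_RF : StRF := by
  intro v w u t β h
  have hq := rf_quad' h
  have him := h.im
  have e1 : (v : ℂ) = (((v : ℝ)) : ℂ) := by push_cast; rfl
  have e2 : (w : ℂ) = (((w : ℝ)) : ℂ) := by push_cast; rfl
  have hq' := hq
  rw [e1, e2] at hq'
  have h1 := congrArg Complex.re hq'
  have h2 := congrArg Complex.im hq'
  simp only [pow_two, Complex.mul_re, Complex.mul_im, Complex.sub_re, Complex.sub_im, Complex.add_re,
    Complex.add_im, Complex.neg_re, Complex.neg_im, Complex.ofReal_re, Complex.ofReal_im] at h1 h2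
  have hre : 2 * β.re = -((v : ℝ) + t) := by
    have h3 : β.im * (2 * β.re + ((v : ℝ) + t)) = 0 := by linarith
    rcases mul_eq_zero.1 h3 with h4 | h4
    · exact absurd h4 him.ne'
    · linarith
  refine ⟨hre, ?_, hq⟩
  rw [Complex.normSq_apply]
  have h5 : (v : ℝ) + t = -(2 * β.re) := by linarith
  rw [h5] at h1
  linarith

end Pool.Agent.Helper56.FN
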