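import Pool.Agent.Helper56.FN.Fml

/-! # Project FN: scalar matrices (SC) -/

set_option autoImplicit false

open Set Filter Topology Matrix
open Pool.Agent.Helper54.Wav

noncomputable section

namespace Pool.Agent.Helper56.FN

open Pool.Agent.Helper54.TRI
open Pool.Agent.Helper56.FM (Ops Sound Rf Tr trv sh1 eqr ZF eqf sides cyc cancel sgI sgD crossz sT Gq)

/-- The real root is not zero. -/
theorem scNe {v w u : ℚ} {t : ℝ} {β : ℂ} (hF : Cub v w u t β)
    (hirr : ∀ x : ℚ, x ^ 3 + v * x ^ 2 + w * x ≠ u) : t ≠ 0 := by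
  intro h
  have h1 := hF.real
  rw [h] at h1
  apply hirr 0
  have h2 : (u : ℝ) = 0 := by rw [← h1]; ring
  have h3 : u = 0 := by exact_mod_cast h2
  rw [h3]; ring

/-- A scalar matrix with irrational powers has no rational power. -/
theorem scNrp (hn : StNR) {v w u : ℚ} {t : ℝ} {β : ℂ} (hF : Cub v w u t β)
    (hirr : ∀ x : ℚ, x ^ 3 + v * x ^ 2 + w * x ≠ u) (hc : 0 < v * t + w) :
    ¬ Pool.Agent.Helper54.WavS.HasRationalPower (t • (1 : Matrix (Fin 2) (Fin 2) ℝ)) := by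
  rintro ⟨p, M, hp, hM⟩
  have h1 := congrFun (congrFun hM 0) 0
  rw [smul_pow, one_pow, Matrix.smul_apply, Matrix.one_apply_eq, smul_eq_mul, mul_one] at h1
  exact (hn v w u t β hF hirr hc p (by omega) (M 0 0)).2 (by rw [h1]; simp)

/-- A scalar matrix with irrational powers has no exponent. -/
theorem scExps (hn : StNR) {v w u : ℚ} {t : ℝ} {β : ℂ} (hF : Cub v w u t β)
    (hirr : ∀ x : ℚ, x ^ 3 + v * x ^ 2 + w * x ≠ u) (hc : 0 < v * t + w)
    (j : ℤ) (hj : j ≠ 0) : j ∉ WavN.Exps (t • (1 : Matrix (Fin 2) (Fin 2) ℝ)) := by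
  have hr0 : t ≠ 0 := scNe hF hirr
  have key : ∀ n : ℕ, n ≠ 0 → ∀ (a b : ℤ), b ≠ 0 → t ^ n * (b : ℝ) ≠ a := by
    intro n hn0 a b hb h
    refine (hn v w u t β hF hirr hc n hn0 ((a : ℚ) / b)).2 ?_
    push_cast
    rw [eq_div_iff (by exact_mod_cast hb)]
    exact h
  rintro ⟨x, hx, ⟨p, hp⟩, ⟨q, hq⟩⟩
  have hpow : ∀ k : ℤ, ((t • (1 : Matrix (Fin 2) (Fin 2) ℝ))ᵀ) ^ k =
      (t ^ k) • (1 : Matrix (Fin 2) (Fin 2) ℝ) := by
    intro k
    rw [Matrix.transpose_smul, Matrix.transpose_one]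
    have hnat : ∀ n : ℕ, (t • (1 : Matrix (Fin 2) (Fin 2) ℝ)) ^ n =
        (t ^ n) • (1 : Matrix (Fin 2) (Fin 2) ℝ) := by
      intro n
      rw [smul_pow, one_pow]
    cases k with
    | ofNat n =>
      rw [Int.ofNat_eq_natCast, zpow_natCast, zpow_natCast]
      exact hnat n
    | negSucc n =>
      rw [zpow_negSucc, zpow_negSucc, hnat]
      have h3 : (t ^ (n + 1)) ≠ 0 := pow_ne_zero _ hr0
      apply Matrix.inv_eq_left_inv
      rw [smul_mul_smul_comm, inv_mul_cancel₀ h3, one_mul, one_smul]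
  have hp' : zv p = x.ofLp := by
    have h : ((t • (1 : Matrix (Fin 2) (Fin 2) ℝ))ᵀ ^ (0 : ℤ)) *ᵥ zv p = x.ofLp :=
      congrArg (fun y : Wav.E 2 => y.ofLp) hp
    rwa [zpow_zero, Matrix.one_mulVec] at h
  have hq' : ((t • (1 : Matrix (Fin 2) (Fin 2) ℝ))ᵀ ^ j) *ᵥ zv q = x.ofLp :=
    congrArg (fun y : Wav.E 2 => y.ofLp) hq
  rw [hpow, Matrix.smul_mulVec, Matrix.one_mulVec] at hq'
  have hx' : x.ofLp ≠ 0 := fun h => hx (by
    have : x = WithLp.toLp 2 x.ofLp := rfl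
    rw [this, h]; rfl)
  obtain ⟨i, hi⟩ : ∃ i, x.ofLp i ≠ 0 := by
    by_contra hcon
    push Not at hcon
    exact hx' (funext hcon)
  have e1 : (p i : ℝ) = x.ofLp i := congrFun hp' i
  have e2 : t ^ j * (q i : ℝ) = x.ofLp i := by
    have := congrFun hq' i
    simpa [zv] using this
  have hpi : p i ≠ 0 := by
    intro h0
    rw [h0] at e1
    apply hi
    rw [← e1]
    simp
  have hqi : q i ≠ 0 := by
    intro h0
    rw [h0] at e2
    apply hi
    rw [← e2]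
    simp
  cases j with
  | ofNat n =>
    rw [Int.ofNat_eq_natCast, zpow_natCast] at e2
    exact key n (by rintro rfl; exact hj rfl) (p i) (q i) hqi (by rw [e2, e1])
  | negSucc n =>
    rw [zpow_negSucc] at e2
    refine key (n + 1) (by omega) (q i) (p i) hpi ?_
    rw [e1, ← e2, ← mul_assoc, mul_inv_cancel₀ (pow_ne_zero _ hr0), one_mul]

/-- SC. -/
theorem m_SC (hn : StNR) : StSC := fun _ _ _ _ _ hF hirr hc =>
  ⟨scNrp hn hF hirr hc, fun j hj => scExps hn hF hirr hc j hj⟩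

end Pool.Agent.Helper56.FN
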