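import Pool.Agent.Helper56.FN.Fml

/-!
# Project FN, module SO: correctness of the operations
-/

set_option autoImplicit false

open Set Filter Topology Matrix
open Pool.Agent.Helper54.Wav

noncomputable section

namespace Pool.Agent.Helper56.FN

open Pool.Agent.Helper54.TRI
open Pool.Agent.Helper56.FM (Ops Sound Rf Tr trv sh1 eqr ZF eqf sides cyc cancel sgI sgD crossz sT Gq)

section

variable {α K : Type} [CommRing K]

theorem SO_lev_nil (e : α → K) (x : K) : lev e x [] = 0 := rfl

theorem SO_lev_cons (e : α → K) (x : K) (a : α) (p : List α) :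
    lev e x (a :: p) = e a + x * lev e x p := rfl

theorem SO_lev_add (e : α → K) (x : K) (f : α → α → α) (hf : ∀ a b, e (f a b) = e a + e b)
    (p q : List α) : lev e x (ladd f p q) = lev e x p + lev e x q := by
  induction p generalizing q with
  | nil => rw [ladd, SO_lev_nil, zero_add]
  | cons a p ih =>
    cases q with
    | nil => rw [ladd, SO_lev_nil, add_zero]
    | cons b q =>
      rw [ladd, SO_lev_cons, SO_lev_cons, SO_lev_cons, hf, ih]
      ring

theorem SO_lev_map (e : α → K) (x c : K) (g : α → α) (hg : ∀ a, e (g a) = c * e a)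
    (p : List α) : lev e x (p.map g) = c * lev e x p := by
  induction p with
  | nil => simp [SO_lev_nil]
  | cons a p ih =>
    rw [List.map_cons, SO_lev_cons, SO_lev_cons, hg, ih]
    ring

theorem SO_lev_zero (e : α → K) (x : K) (z : α → Bool) (hz : ∀ a, z a = true → e a = 0)
    (p : List α) (h : p.all z = true) : lev e x p = 0 := by
  induction p with
  | nil => rfl
  | cons a p ih =>
    rw [List.all_cons, Bool.and_eq_true] at h
    rw [SO_lev_cons, hz a h.1, ih h.2, mul_zero, add_zero]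

theorem SO_lev_hom {K' : Type} [CommRing K'] (φ : K →+* K') (e : α → K) (x : K) (p : List α) :
    φ (lev e x p) = lev (fun a => φ (e a)) (φ x) p := by
  induction p with
  | nil => rw [SO_lev_nil, SO_lev_nil, map_zero]
  | cons a p ih => rw [SO_lev_cons, SO_lev_cons, map_add, map_mul, ih]

variable (v w u : K)

theorem SO_a1 (p q : P1) : e1 u (a1 p q) = e1 u p + e1 u q :=
  SO_lev_add _ u _ (fun a b => by push_cast; rfl) p q

theorem SO_a2 (p q : P2) : e2 w u (a2 p q) = e2 w u p + e2 w u q :=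
  SO_lev_add _ w _ (SO_a1 u) p q

theorem SO_a3 (p q : P3) : e3 v w u (a3 p q) = e3 v w u p + e3 v w u q :=
  SO_lev_add _ v _ (SO_a2 w u) p q

theorem SO_n1 (p : P1) : e1 u (n1 p) = -1 * e1 u p :=
  SO_lev_map _ u (-1) _ (fun a => by push_cast; ring) p

theorem SO_n2 (p : P2) : e2 w u (n2 p) = -1 * e2 w u p :=
  SO_lev_map _ w (-1) _ (SO_n1 u) p

theorem SO_n3 (p : P3) : e3 v w u (n3 p) = - e3 v w u p := by
  have h : e3 v w u (n3 p) = -1 * e3 v w u p := SO_lev_map _ v (-1) _ (SO_n2 w u) p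
  rw [h, neg_one_mul]

theorem SO_z1 (p : P1) (h : z1 p = true) : e1 u p = 0 :=
  SO_lev_zero _ u _ (fun a ha => by
    have h1 : a = 0 := of_decide_eq_true ha
    rw [h1, Int.cast_zero]) p h

theorem SO_z2 (p : P2) (h : z2 p = true) : e2 w u p = 0 :=
  SO_lev_zero _ w _ (SO_z1 u) p h

theorem SO_z3 (p : P3) (h : z3 p = true) : e3 v w u p = 0 :=
  SO_lev_zero _ v _ (SO_z2 w u) p h

theorem SO_mv (p : P3) : e3 v w u (mv p) = v * e3 v w u p := by
  have h1 : e3 v w u (mv p) = e2 w u [] + v * e3 v w u p := rfl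
  have h2 : e2 w u ([] : P2) = 0 := rfl
  rw [h1, h2, zero_add]

theorem SO_mw (p : P3) : e3 v w u (mw p) = w * e3 v w u p :=
  SO_lev_map _ v w _ (fun q => by
    have h1 : e2 w u (([] : P1) :: q) = e1 u [] + w * e2 w u q := rfl
    have h2 : e1 u ([] : P1) = 0 := rfl
    rw [h1, h2, zero_add]) p

theorem SO_mu (p : P3) : e3 v w u (mu p) = u * e3 v w u p :=
  SO_lev_map _ v u _ (fun q => SO_lev_map _ w u _ (fun r => by
    have h1 : e1 u ((0 : ℤ) :: r) = ((0 : ℤ) : K) + u * e1 u r := rfl
    rw [h1, Int.cast_zero, zero_add]) q) p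

theorem SO_hom {K' : Type} [CommRing K'] (φ : K →+* K') (p : P3) :
    φ (e3 v w u p) = e3 (φ v) (φ w) (φ u) p := by
  have h1 : ∀ r : P1, φ (e1 u r) = e1 (φ u) r := by
    intro r
    unfold e1
    rw [SO_lev_hom]
    simp only [map_intCast]
  have h2 : ∀ q : P2, φ (e2 w u q) = e2 (φ w) (φ u) q := by
    intro q
    unfold e2
    rw [SO_lev_hom]
    have h3 : (fun a => φ (e1 u a)) = e1 (φ u) := funext h1
    rw [h3]
  unfold e3
  rw [SO_lev_hom]
  have h3 : (fun a => φ (e2 w u a)) = e2 (φ w) (φ u) := funext h2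
  rw [h3]

end

theorem SO_rat (v w u : ℚ) (p : P3) : e3 (v : ℂ) (w : ℂ) (u : ℂ) p = ((e3 v w u p : ℚ) : ℂ) := by
  have h := SO_hom v w u (Rat.castHom ℂ) p
  simpa using h.symm

theorem SO_sub (v w u β : ℂ) (x y : F3) :
    evp v w u β (fsub x y) = evp v w u β x - evp v w u β y := by
  simp only [evp, fsub, SO_a3, SO_n3]
  ring

theorem SO_neg (v w u β : ℂ) (x : F3) : evp v w u β (fneg x) = - evp v w u β x := by
  simp only [evp, fneg, SO_n3]
  ring

theorem SO_fB {v w u β : ℂ} (h : β ^ 3 + v * β ^ 2 + w * β = u) (x : F3) :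
    evp v w u β (fB x) = β * evp v w u β x := by
  simp only [evp, fB, SO_a3, SO_n3, SO_mu, SO_mv, SO_mw]
  linear_combination (- e3 v w u x.2.2) * h

theorem SO_fA {v w u β : ℂ} (h : β ^ 3 + v * β ^ 2 + w * β = u) (x : F3) :
    β * evp v w u β (fA x) = u * evp v w u β x := by
  simp only [evp, fA, SO_a3, SO_mu, SO_mv, SO_mw]
  linear_combination (e3 v w u x.1) * h

theorem SO_fBn {v w u β : ℂ} (h : β ^ 3 + v * β ^ 2 + w * β = u) (n : ℕ) (x : F3) :
    evp v w u β (fBn n x) = β ^ n * evp v w u β x := by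
  induction n with
  | zero => simp [fBn]
  | succ n ih =>
    rw [fBn, SO_fB h, ih, pow_succ']
    ring

theorem SO_fAn {v w u β : ℂ} (h : β ^ 3 + v * β ^ 2 + w * β = u) (n : ℕ) (x : F3) :
    β ^ n * evp v w u β (fAn n x) = u ^ n * evp v w u β x := by
  induction n with
  | zero => simp [fAn]
  | succ n ih =>
    rw [fAn, pow_succ, mul_assoc, SO_fA h, pow_succ]
    linear_combination u * ih

theorem m_SO : StSO := by
  intro V W T v w u t β₀ hC hu hβ1
  obtain ⟨β, hβ⟩ : ∃ β, β = starRingEnd ℂ β₀ := ⟨_, rfl⟩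
  rw [← hβ]
  have h3 : 1 < ‖β‖ := by
    rw [hβ, RCLike.norm_conj]
    exact hβ1
  have hcub : β ^ 3 + (v : ℂ) * β ^ 2 + (w : ℂ) * β = (u : ℂ) := by
    have := congrArg (starRingEnd ℂ) hC.cub
    simpa [hβ] using this
  have huC : (u : ℂ) ≠ 0 := by exact_mod_cast hu
  have hβ0 : β ≠ 0 := by
    rintro rfl
    simp at h3
    linarith
  exact
    { one_lt := h3
      zero := by
        change evp v w u β ([], [], []) = 0
        have h1 : e3 (v : ℂ) (w : ℂ) (u : ℂ) [] = 0 := rfl
        simp only [evp, h1]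
        ring
      one := by
        refine ⟨1, one_pos, ?_⟩
        change evp v w u β ([[[1]]], [], []) = ((1 : ℝ) : ℂ)
        have h1 : e3 (v : ℂ) (w : ℂ) (u : ℂ) [] = 0 := rfl
        have h2 : e3 (v : ℂ) (w : ℂ) (u : ℂ) [[[1]]] =
          ((((1 : ℤ) : ℂ) + (u : ℂ) * 0) + (w : ℂ) * 0) + (v : ℂ) * 0 := rfl
        simp only [evp, h1, h2]
        push_cast
        ring
      sub := SO_sub v w u β
      neg := SO_neg v w u β
      mul := SO_fBn hcub
      isz := by
        intro x h
        have h : (z3 x.1 && (z3 x.2.1 && z3 x.2.2)) = true := h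
        rw [Bool.and_eq_true, Bool.and_eq_true] at h
        obtain ⟨a, b, c⟩ := h
        rw [evp, SO_z3 _ _ _ _ a, SO_z3 _ _ _ _ b, SO_z3 _ _ _ _ c]
        ring
      nz := by
        intro x h
        exact of_decide_eq_true h
      pos := by
        intro p q r h
        exact of_decide_eq_true h
      inG := by
        intro l x h
        have h : (if 1 ≤ l then z3 (fAn (l - 1).toNat x).2.2 else z3 (fBn (1 - l).toNat x).2.2) =
          true := h
        by_cases hl : 1 ≤ l
        · rw [if_pos hl] at h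
          have e1 := SO_fAn hcub (l - 1).toNat x
          obtain ⟨n, hn⟩ : ∃ n, n = (l - 1).toNat := ⟨_, rfl⟩
          rw [← hn] at h e1
          have hln : l = (n : ℤ) + 1 := by omega
          rw [evp, SO_z3 _ _ _ _ h, SO_rat, SO_rat] at e1
          generalize (e3 v w u (fAn n x).1 : ℚ) = a at e1
          generalize (e3 v w u (fAn n x).2.1 : ℚ) = b at e1
          refine ⟨b / u ^ n, a / u ^ n, ?_⟩
          have hsn : (u : ℂ) ^ n ≠ 0 := pow_ne_zero _ huC
          have e2 : evp v w u β x = ((u : ℂ) ^ n)⁻¹ * (β ^ n *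
              ((a : ℂ) + (b : ℂ) * β + 0 * β ^ 2)) := by
            rw [e1, ← mul_assoc, inv_mul_cancel₀ hsn, one_mul]
          rw [e2, hln, zpow_add₀ hβ0, zpow_natCast, zpow_one]
          push_cast
          field_simp
          ring
        · rw [if_neg hl] at h
          have e1 := SO_fBn hcub (1 - l).toNat x
          obtain ⟨n, hn⟩ : ∃ n, n = (1 - l).toNat := ⟨_, rfl⟩
          rw [← hn] at h e1
          have hln : l = 1 - (n : ℤ) := by omega
          rw [evp, SO_z3 _ _ _ _ h, SO_rat, SO_rat] at e1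
          generalize (e3 v w u (fBn n x).1 : ℚ) = a at e1
          generalize (e3 v w u (fBn n x).2.1 : ℚ) = b at e1
          refine ⟨b, a, ?_⟩
          have hbn : β ^ n ≠ 0 := pow_ne_zero _ hβ0
          have e2 : evp v w u β x = (β ^ n)⁻¹ * ((a : ℂ) + (b : ℂ) * β + 0 * β ^ 2) := by
            rw [e1, ← mul_assoc, inv_mul_cancel₀ hbn, one_mul]
          rw [e2, hln, zpow_sub₀ hβ0, zpow_natCast, zpow_one]
          field_simp
          ring
      g0 := fun l => ⟨0, 0, by simp⟩
      gn := by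
        rintro l x ⟨a, b, rfl⟩
        refine ⟨-a, -b, ?_⟩
        push_cast
        ring
      ga := by
        rintro l k x ⟨a, b, rfl⟩
        refine ⟨a, b, ?_⟩
        rw [zpow_add₀ hβ0]
        ring }

end Pool.Agent.Helper56.FN
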