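import Pool.Agent.Helper56.FN.Fml

/-! # Project FN: module TD (trace and determinant, or a scalar matrix) -/

set_option autoImplicit false

open Set Filter Topology Matrix
open Pool.Agent.Helper54.Wav

noncomputable section

namespace Pool.Agent.Helper56.FN

open Pool.Agent.Helper54.TRI

theorem m_TD (hr : StRF) : StTD := by
  intro v w u t β hC hvw A hA
  obtain ⟨h1, h2, -⟩ := hr v w u t β hC
  rw [h1, h2]
  have ht := hC.real
  have hvw' : (v : ℝ) ^ 2 < 3 * (w : ℝ) := by exact_mod_cast hvw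
  obtain ⟨V, hV⟩ : ∃ V : ℝ, V = (v : ℝ) := ⟨_, rfl⟩
  obtain ⟨W, hW⟩ : ∃ W : ℝ, W = (w : ℝ) := ⟨_, rfl⟩
  obtain ⟨U, hU⟩ : ∃ U : ℝ, U = (u : ℝ) := ⟨_, rfl⟩
  rw [← hV, ← hW, ← hU] at ht
  rw [← hV, ← hW] at hvw'
  rw [← hV, ← hW, ← hU] at hA
  rw [← hV, ← hW]
  -- injectivity of the cubic
  have hinj : ∀ x : ℝ, x ^ 3 + V * x ^ 2 + W * x = U → x = t := by
    intro x hx
    have h3 : (x - t) * ((x + (t + V) / 2) ^ 2 + (3 / 4 * (t + V / 3) ^ 2 + (W - V ^ 2 / 3))) = 0 := by
      rw [← ht] at hx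
      linear_combination hx
    rcases mul_eq_zero.1 h3 with h | h
    · linarith
    · exfalso
      nlinarith [sq_nonneg (x + (t + V) / 2), sq_nonneg (t + V / 3)]
  obtain ⟨a, ha⟩ : ∃ a : ℝ, a = A 0 0 := ⟨_, rfl⟩
  obtain ⟨b, hb⟩ : ∃ b : ℝ, b = A 0 1 := ⟨_, rfl⟩
  obtain ⟨c, hc⟩ : ∃ c : ℝ, c = A 1 0 := ⟨_, rfl⟩
  obtain ⟨d, hd⟩ : ∃ d : ℝ, d = A 1 1 := ⟨_, rfl⟩
  have hT : A.trace = a + d := by rw [Matrix.trace_fin_two, ha, hd]
  have hD : A.det = a * d - b * c := by rw [Matrix.det_fin_two, ha, hb, hc, hd]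
  have e00 := congrFun (congrFun hA 0) 0
  have e01 := congrFun (congrFun hA 0) 1
  have e10 := congrFun (congrFun hA 1) 0
  have e11 := congrFun (congrFun hA 1) 1
  simp only [pow_succ, pow_zero, one_mul, Matrix.add_apply, Matrix.mul_apply, Fin.sum_univ_two,
    Matrix.smul_apply, Matrix.one_apply_eq, smul_eq_mul, mul_one, ← ha, ← hb, ← hc, ← hd]
    at e00 e01 e10 e11
  rw [Matrix.one_apply_ne (by decide), mul_zero] at e01 e10
  have f01 : b * ((a + d) ^ 2 - (a * d - b * c) + V * (a + d) + W) = 0 := by linarith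
  have f10 : c * ((a + d) ^ 2 - (a * d - b * c) + V * (a + d) + W) = 0 := by linarith
  have f00 : a * ((a + d) ^ 2 - (a * d - b * c) + V * (a + d) + W) =
      (a + d) * (a * d - b * c) + V * (a * d - b * c) + U := by linarith
  have f11 : d * ((a + d) ^ 2 - (a * d - b * c) + V * (a + d) + W) =
      (a + d) * (a * d - b * c) + V * (a * d - b * c) + U := by linarith
  by_cases hK : (a + d) ^ 2 - (a * d - b * c) + V * (a + d) + W = 0
  · left
    rw [hK, mul_zero] at f00
    have h4 : a * d - b * c = (a + d) ^ 2 + V * (a + d) + W := by linarith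
    rw [h4] at f00
    have h5 : -(V + (a + d)) = t := by
      apply hinj
      linarith
    rw [hT, hD, h4]
    have h6 : a + d = -(V + t) := by linarith
    rw [h6]
    constructor
    · rfl
    · ring
  · right
    have hb0 : b = 0 := (mul_eq_zero.1 f01).resolve_right hK
    have hc0 : c = 0 := (mul_eq_zero.1 f10).resolve_right hK
    have had : a = d := by
      have h7 : (a - d) * ((a + d) ^ 2 - (a * d - b * c) + V * (a + d) + W) = 0 := by linarith
      have := (mul_eq_zero.1 h7).resolve_right hK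
      linarith
    have har : a = t := by
      apply hinj
      rw [hb0, hc0] at e00
      linarith
    ext i j
    fin_cases i <;> fin_cases j
    · show A 0 0 = _
      rw [← ha, har]; simp
    · show A 0 1 = _
      rw [← hb, hb0]; simp
    · show A 1 0 = _
      rw [← hc, hc0]; simp
    · show A 1 1 = _
      rw [← hd, ← had, har]; simp

end Pool.Agent.Helper56.FN
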