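import Pool.Agent.Helper56.FN.Cert
import Pool.Agent.Helper56.FM.St

/-!
# Project FN, part 2: from a checked certificate to an atlas
-/

set_option autoImplicit false

open Set Filter Topology

noncomputable section

namespace Pool.Agent.Helper56.FN

open Pool.Agent.Helper54.TRI
open Pool.Agent.Helper56.FM (Ops Sound Rf Tr trv sh1 eqr ZF eqf sides cyc cancel sgI sgD crossz sT StVL StTL)

/-- A three-cluster with the sign `-1` at the copy `k` (no sign for `k = 3`). -/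
def clES (k : ℕ) (P : Fin 3 → ℂ) (w : Fin 3 → ℂ) (i j : ℤ) : Clus where
  n := 3
  P := P
  w := w
  S := {i, j}
  M := fun l z => if l = i then Matrix.of (fun a b => (sE k a.val : ℝ) * (sE k b.val : ℝ) * (FF z a * FF z b))
    else if l = j then 1 - Matrix.of (fun a b => (sE k a.val : ℝ) * (sE k b.val : ℝ) * (FF z a * FF z b)) else 0

/-- Edge forms of a signed three-cluster. -/
def fES (k : ℕ) (w : Fin 3 → ℂ) (i j : ℤ) (a : Fin 3) (s : Fin 3) : EF :=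
  if a = s then .wall i j (w (s + 1) - w s) ((sE k s.val * sE k (s + 1).val : ℤ) : ℝ)
  else if a = s + 1 then .wall j i (w s - w (s + 1)) ((-(sE k s.val * sE k (s + 1).val) : ℤ) : ℝ)
  else .pure j

/-- **KES** (hypothesis `hf : StFF`).  As `m_KE`, file `Pool/Agent/Helper54/TRI/M_KE.lean`, with `FF z a` replaced by `G z a = sE k a * FF z a`
(`∑ G² = ∑ FF² = 1` because `sE k a ^ 2 = 1`; the off-diagonal entry between the copies `s` and `s + 1` gets the factor `sE k s * sE k (s + 1)`). -/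
def StKES : Prop := ∀ (k : ℕ) (Γ : ℤ → ℂ → Prop) (P : Fin 3 → ℂ) (w : Fin 3 → ℂ) (i j : ℤ),
  Function.Injective w → i ≠ j → (∀ a b, Γ i (w b - w a)) → (∀ a b, Γ j (w b - w a)) →
  ClusOK Γ (clES k P w i j) ∧
  (∀ (a : Fin 3) s t, 0 ≤ t → t ≤ 1 → crow (clES k P w i j) a (ez s t) = (fES k w i j a s).row t) ∧
  (∀ (a : Fin 3) s, crow (clES k P w i j) a (Pi.single s 1) = prow (if a = s then i else j)) ∧
  ∀ a s, (fES k w i j a s).ok

namespace Cert

variable {Q : Type} (M : Ops Q) (e : Q → ℂ) (X : Cert Q)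

/-- The point of a vertex reference. -/
def pt (r : Rf) : ℂ := e (X.vz M r)

/-- The triangle of a triple of references. -/
def ptr (t : Tr) (s : Fin 3) : ℂ := X.pt M e (trv t s)

/-- The cluster of cluster data. -/
def clus : CD → Clus
  | .P t => clP (X.ptr M e t) (X.lz M t.1)
  | .W s t0 t1 => clW (X.ptr M e t0) (e (M.sub (X.vz M t1.1) (X.vz M t0.1))) (X.lz M t0.1)
      (X.lz M t1.1) (fun s => decide (X.lz M (trv t0 s) = X.lz M t0.1)) (s : ℝ)
  | .T t0 t1 t2 t3 => clT (X.ptr M e t0) (fun a => e (X.wz M (.T t0 t1 t2 t3) a.val))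
      (X.LT M (.T t0 t1 t2 t3)) sT
  | .E k t0 t1 t2 => clES k (X.ptr M e t0) (fun a => e (X.wz M (.E k t0 t1 t2) a.val))
      (X.lz M t0.1) (X.lz M t0.2.1)

/-- Geometric part of a good cluster. -/
def Good1 (c : CD) : Prop :=
  (X.clus M e c).n = c.n ∧ Pos (X.clus M e c).P ∧
  (∀ (a : Fin (X.clus M e c).n) s, (X.clus M e c).P s + (X.clus M e c).w a = X.ptr M e (c.tr a.val) s) ∧
  ∀ (a : Fin (X.clus M e c).n), (0 : ℂ) ∉ Cls (fun s => (X.clus M e c).P s + (X.clus M e c).w a)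

/-- Algebraic part of a good cluster. -/
def Good2 (Γ : ℤ → ℂ → Prop) (c : CD) : Prop :=
  ClusOK Γ (X.clus M e c) ∧
  (∀ (a : Fin (X.clus M e c).n) s t, 0 ≤ t → t ≤ 1 →
    crow (X.clus M e c) a (ez s t) = ((X.zf M c a.val s).toEF e).row t) ∧
  (∀ (a : Fin (X.clus M e c).n) s,
    crow (X.clus M e c) a (Pi.single s 1) = prow (X.lz M (trv (c.tr a.val) s))) ∧
  ∀ (a : Fin (X.clus M e c).n) s, ((X.zf M c a.val s).toEF e).ok

/-- The clusters of a certificate. -/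
def C (c : Fin X.CS.length) : Clus := X.clus M e (X.cl c.val)

/-- The edge forms. -/
def F (i : Ix (X.C M e)) (s : Fin 3) : EF := (X.zf M (X.cl i.1.val) i.2.val s).toEF e

/-- The vertex labels. -/
def lab (i : Ix (X.C M e)) (s : Fin 3) : ℤ := X.lz M (trv ((X.cl i.1.val).tr i.2.val) s)

end Cert

/-- **GG**.  As `Pool.Agent.Helper54.TRI.m_GG` (file `Pool/Agent/Helper54/TRI/M_GG.lean`): the translations from `okG` (`isz (sub a b)` gives `e a = e b`; for the vertex `0` it is the definition of `wz`; `e (wz c 0) = 0`), positivity from `hM.pos`.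
`0 ∉ Cls`: one of the three tests gives `0 < ht 0 (vertex (s+1)) (vertex s)`, so `ht (P s) (P (s+1)) 0 < 0`. -/
def StGG : Prop := ∀ (Q : Type) (M : Ops Q) (β : ℂ) (e : Q → ℂ) (Γ : ℤ → ℂ → Prop), Sound M β e Γ →
  ∀ (X : Cert Q) (c : CD), X.okG M c = true → X.Good1 M e c

/-- **GP** (hypothesis `hk : StKP`).  As `Pool/Agent/Helper54/TRI/M_GP.lean`. -/
def StGP : Prop := ∀ (Q : Type) (M : Ops Q) (β : ℂ) (e : Q → ℂ) (Γ : ℤ → ℂ → Prop), Sound M β e Γ →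
  ∀ (X : Cert Q) (t : Tr), X.okL M (.P t) = true → X.Good2 M e Γ (.P t)

/-- **GW** (hypothesis `hk : StKW`).  As `Pool/Agent/Helper54/TRI/M_GW.lean` (`v ≠ 0` from `hM.nz`). -/
def StGW : Prop := ∀ (Q : Type) (M : Ops Q) (β : ℂ) (e : Q → ℂ) (Γ : ℤ → ℂ → Prop), Sound M β e Γ →
  ∀ (X : Cert Q) (s : ℤ) (t0 t1 : Tr), X.okL M (.W s t0 t1) = true → X.Good2 M e Γ (.W s t0 t1)

/-- **GT** (hypothesis `hk : StKT`).  As `Pool/Agent/Helper54/TRI/M_GT.lean` (injectivity of `w`: `nz (sub (wz a) (wz b))`). -/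
def StGT : Prop := ∀ (Q : Type) (M : Ops Q) (β : ℂ) (e : Q → ℂ) (Γ : ℤ → ℂ → Prop), Sound M β e Γ →
  ∀ (X : Cert Q) (t0 t1 t2 t3 : Tr), X.okL M (.T t0 t1 t2 t3) = true → X.Good2 M e Γ (.T t0 t1 t2 t3)

/-- **GE** (hypothesis `hk : StKES`).  As `Pool/Agent/Helper54/TRI/M_GE.lean`. -/
def StGE : Prop := ∀ (Q : Type) (M : Ops Q) (β : ℂ) (e : Q → ℂ) (Γ : ℤ → ℂ → Prop), Sound M β e Γ →
  ∀ (X : Cert Q) (k : ℕ) (t0 t1 t2 : Tr), X.okL M (.E k t0 t1 t2) = true →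
    X.Good2 M e Γ (.E k t0 t1 t2)

/-- **NB** (neighbours).  As `Pool/Agent/Helper54/TRI/M_NB.lean`.  `eqr m r r' = true` gives `X.pt M e r = β ^ m * X.pt M e r'` (`vz r = mul r.2 ..`, `β ≠ 0`, `zpow_add₀`) and `X.lz M r = X.lz M r' + m`;
`eqf M m f g = true` gives `f.toEF e = ((g.toEF e).rev).act β m` (cases; for `m < 0` the test says `β^(-m) e v = e v'`). -/
def StNB : Prop := ∀ (Q : Type) (M : Ops Q) (β : ℂ) (e : Q → ℂ) (Γ : ℤ → ℂ → Prop), Sound M β e Γ →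
  ∀ X : Cert Q, X.chkN M = true → (∀ c : Fin X.CS.length, X.Good1 M e (X.cl c.val)) →
  ∀ (i : Ix (X.C M e)) (s : Fin 3), ∃ (j : Ix (X.C M e)) (t : Fin 3) (m : ℤ),
    TT (X.C M e) i s = β ^ m * TT (X.C M e) j (t + 1) ∧ TT (X.C M e) i (s + 1) = β ^ m * TT (X.C M e) j t ∧
    X.F M e i s = ((X.F M e j t).rev).act β m ∧
    X.lab M e i s = X.lab M e j (t + 1) + m ∧ X.lab M e i (s + 1) = X.lab M e j t + m

/-- **CH** (chain identity).  As `Pool/Agent/Helper54/TRI/M_CH.lean` (`X.pt M e (sh1 r) = β * X.pt M e r`). -/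
def StCH : Prop := ∀ (Q : Type) (M : Ops Q) (β : ℂ) (e : Q → ℂ) (Γ : ℤ → ℂ → Prop), Sound M β e Γ →
  ∀ X : Cert Q, X.chkC = true → (∀ c : Fin X.CS.length, X.Good1 M e (X.cl c.val)) →
  ∀ g : ℂ → ℂ → ℝ, (∀ (i : Ix (X.C M e)) (s : Fin 3), g (TT (X.C M e) i (s + 1)) (TT (X.C M e) i s) = - g (TT (X.C M e) i s) (TT (X.C M e) i (s + 1))) →
    (∀ a ∈ (cyc X.seam).map (fun a => (X.pt M e a.1, X.pt M e a.2)), g a.2 a.1 = - g a.1 a.2) →
    (∀ a ∈ (cyc X.seam).map (fun a => (X.pt M e a.1, X.pt M e a.2)),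
      g (β * a.2) (β * a.1) = - g (β * a.1) (β * a.2)) →
    ∑ i : Ix (X.C M e), ∑ s : Fin 3, g (TT (X.C M e) i s) (TT (X.C M e) i (s + 1)) =
      (((cyc X.seam).map (fun a => (X.pt M e a.1, X.pt M e a.2))).map
        (fun a => g (β * a.1) (β * a.2) - g a.1 a.2)).sum

/-- **WI** (winding number of the seam).  As `Pool/Agent/Helper54/TRI/M_WI.lean` (`e M.one = c > 0`: `ht 0 c z = Im z / c`). -/
def StWI : Prop := ∀ (Q : Type) (M : Ops Q) (β : ℂ) (e : Q → ℂ) (Γ : ℤ → ℂ → Prop), Sound M β e Γ →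
  ∀ X : Cert Q, X.chkS M = true →
  (∀ a ∈ (cyc X.seam).map (fun a => (X.pt M e a.1, X.pt M e a.2)), a.1 ≠ 0 ∧ a.2 / a.1 ∈ Complex.slitPlane) ∧
  (((cyc X.seam).map (fun a => (X.pt M e a.1, X.pt M e a.2))).map (fun a => Complex.arg (a.2 / a.1))).sum =
    2 * Real.pi

/-- **AT** (the atlas of a certificate; all the statements above as hypotheses).  As `Pool/Agent/Helper54/TRI/M_AT.lean`; `vlab` by `StVL`. -/
def StAT : Prop := ∀ (Q : Type) (M : Ops Q) (β : ℂ) (e : Q → ℂ) (Γ : ℤ → ℂ → Prop), Sound M β e Γ →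
  ∀ X : Cert Q, X.check M = true →
  ∃ nb : Ix (X.C M e) → Fin 3 → Ix (X.C M e) × Fin 3 × ℤ,
    Atlas (X.C M e) β Γ nb (X.F M e) (X.lab M e)

end Pool.Agent.Helper56.FN
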